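import Pool.Agent.Shared.DoubleRec.Transfer
import Pool.Agent.Shared.Ergodic.Spectral

/-!
The double recurrence theorem of Bourgain (twisted form) for ergodic invertible systems.
-/

set_option autoImplicit false

open MeasureTheory Filter Topology Finset ComplexConjugate

namespace Pool.Agent.Shared.DoubleRec

lemma block_le (z : ℕ → ℂ) (s M : ℕ) {r : ℕ} (hr : r ≤ M) {c : ℝ} {K : ℕ} (hK : s + M ≤ K)
    (h : ∑ n ∈ range K, ‖z n‖ ^ 2 ≤ c) : ‖∑ n ∈ range r, z (s + n)‖ ≤ √(M * c) := by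
  refine Real.le_sqrt_of_sq_le ?_
  refine (pow_le_pow_left₀ (norm_nonneg _) (norm_sum_le _ _) 2).trans ?_
  refine sq_sum_le_card_mul_sum_sq.trans ?_
  rw [card_range]
  have h1 : ∑ n ∈ range r, ‖z (s + n)‖ ^ 2 ≤ ∑ n ∈ range K, ‖z n‖ ^ 2 := by
    refine le_trans ?_ (sum_le_sum_of_subset_of_nonneg (range_subset_range.2
      (show s + r ≤ K by omega)) fun _ _ _ => sq_nonneg _)
    rw [sum_range_add]
    exact le_add_of_nonneg_left (by positivity)
  exact mul_le_mul (by exact_mod_cast hr) (h1.trans h) (by positivity) (Nat.cast_nonneg _)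

lemma ces_le_trp (z : ℕ → ℂ) {M N' r : ℕ} (hM : 0 < M) (hN : 0 < N') (hr : r ≤ M) {c : ℝ}
    (h : ∑ n ∈ range (N' + M), ‖z n‖ ^ 2 ≤ c) :
    ‖∑ n ∈ range (N' + r), z n‖ ≤ N' * ‖trp z M N'‖ + 3 * √(M * c) := by
  have hM' : (0 : ℝ) < M := by exact_mod_cast hM
  have hM'' : (M : ℂ) ≠ 0 := by exact_mod_cast hM.ne'
  have hN'' : (N' : ℂ) ≠ 0 := by exact_mod_cast hN.ne'
  have key : ∀ m ∈ range M, ‖∑ n ∈ range (N' + r), z n - ∑ n ∈ range N', z (m + n)‖ ≤
      3 * √(M * c) := by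
    intro m hm
    have hm' := (mem_range.1 hm).le
    have e1 := sum_range_add z N' r
    have e2 := sum_range_add z N' m
    have e3 := sum_range_add z m N'
    rw [add_comm m N', e2] at e3
    have a1 := block_le z N' M hr le_rfl h
    have a2 := block_le z N' M hm' le_rfl h
    have a3 := block_le z 0 M hm' (by omega) h
    simp only [zero_add] at a3
    have : ∑ n ∈ range (N' + r), z n - ∑ n ∈ range N', z (m + n) =
        ∑ n ∈ range r, z (N' + n) + ∑ n ∈ range m, z n - ∑ n ∈ range m, z (N' + n) := by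
      linear_combination e1 + e3
    rw [this]
    linarith [norm_sub_le (∑ n ∈ range r, z (N' + n) + ∑ n ∈ range m, z n)
      (∑ n ∈ range m, z (N' + n)), norm_add_le (∑ n ∈ range r, z (N' + n)) (∑ n ∈ range m, z n)]
  have e : (M : ℂ) * (∑ n ∈ range (N' + r), z n - N' * trp z M N') =
      ∑ m ∈ range M, (∑ n ∈ range (N' + r), z n - ∑ n ∈ range N', z (m + n)) := by
    rw [sum_sub_distrib, sum_const, card_range, nsmul_eq_mul, trp]
    field_simp
  have h1 := (norm_sum_le _ _).trans (sum_le_card_nsmul _ _ _ key)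
  rw [← e, norm_mul, Complex.norm_natCast, card_range, nsmul_eq_mul] at h1
  have h2 := le_of_mul_le_mul_left h1 hM'
  have h3 := norm_sub_norm_le (∑ n ∈ range (N' + r), z n) (N' * trp z M N')
  rw [norm_mul, Complex.norm_natCast] at h3
  linarith

lemma ces_of_trp {z : ℕ → ℂ} {c : ℝ} (hc : 0 < c)
    (hE : ∀ᶠ N : ℕ in atTop, ∑ n ∈ range N, ‖z n‖ ^ 2 ≤ c * N)
    (h : ∀ j, 0 < j → Tendsto (fun k : ℕ => trp z (2 ^ k) (j * 2 ^ k)) atTop (𝓝 0)) :
    Tendsto (ces z) atTop (𝓝 0) := by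
  rw [NormedAddGroup.tendsto_nhds_zero]
  intro ε hε
  obtain ⟨J, hJ, hJ0⟩ := ((tendsto_natCast_atTop_atTop.eventually_ge_atTop
    (2 * c / (ε / 8) ^ 2)).and (eventually_gt_atTop 0)).exists
  rw [div_le_iff₀ (by positivity)] at hJ
  have h1 : ∀ᶠ k : ℕ in atTop, ∀ j ∈ Ico J (2 * J), ‖trp z (2 ^ k) (j * 2 ^ k)‖ < ε / 2 :=
    (eventually_all_finset _).2 fun j hj =>
      NormedAddGroup.tendsto_nhds_zero.1 (h j (hJ0.trans_le (mem_Ico.1 hj).1)) _ (half_pos hε)
  obtain ⟨k0, h1⟩ := eventually_atTop.1 h1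
  obtain ⟨N0, hE⟩ := eventually_atTop.1 hE
  filter_upwards [eventually_ge_atTop (J * 2 ^ k0), eventually_ge_atTop N0] with N hN hN0
  have b1 : 2 ^ k0 ≤ N / J := (Nat.le_div_iff_mul_le hJ0).2 (mul_comm J _ ▸ hN)
  have b0 : N / J ≠ 0 := by have := Nat.one_le_two_pow (n := k0); omega
  set k := Nat.log 2 (N / J) with hk
  have b2 : k0 ≤ k := Nat.le_log_of_pow_le one_lt_two b1
  have b3 : 2 ^ k ≤ N / J := Nat.pow_log_le_self 2 b0
  have b4 : N / J < 2 ^ (k + 1) := Nat.lt_pow_succ_log_self one_lt_two _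
  have hM : 0 < 2 ^ k := by positivity
  set M := 2 ^ k with hMd
  have c1 : J ≤ N / M := (Nat.le_div_iff_mul_le hM).2
    (mul_comm J M ▸ (Nat.le_div_iff_mul_le hJ0).1 b3)
  have c2 : N / M < 2 * J := by
    rw [Nat.div_lt_iff_lt_mul hM]
    rw [Nat.div_lt_iff_lt_mul hJ0, pow_succ] at b4
    calc N < M * 2 * J := b4
      _ = _ := by ring
  have c3 := Nat.div_add_mod N M
  have c4 := Nat.mod_lt N hM
  have t1 := h1 k b2 (N / M) (mem_Ico.2 ⟨c1, c2⟩)
  set j := N / M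
  have hj : 0 < j := hJ0.trans_le c1
  have t2 := ces_le_trp z hM (Nat.mul_pos hj hM) c4.le (hE (j * M + M) (by nlinarith))
  rw [show j * M + N % M = N by linarith] at t2
  have hM' : (0 : ℝ) < M := by exact_mod_cast hM
  have hj' : (1 : ℝ) ≤ j := by exact_mod_cast hj
  have hJj : (J : ℝ) ≤ j := by exact_mod_cast c1
  have hjN : (j : ℝ) * M ≤ N := by exact_mod_cast Nat.div_mul_le_self N M
  have hN' : (0 : ℝ) < N := lt_of_lt_of_le (by positivity) hjN
  have t3 : √(M * (c * (j * M + M : ℕ))) ≤ ε / 8 * (j * M) := by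
    refine Real.sqrt_le_iff.2 ⟨by positivity, ?_⟩
    push_cast
    have a1 : 2 * c ≤ j * (ε / 8) ^ 2 := hJ.trans (by gcongr)
    calc M * (c * (j * M + M)) ≤ M * (c * (j * M + j * M)) := by
          gcongr; exact le_mul_of_one_le_left hM'.le hj'
      _ = (2 * c) * (j * M ^ 2) := by ring
      _ ≤ (j * (ε / 8) ^ 2) * (j * M ^ 2) := by gcongr
      _ = _ := by ring
  rw [ces, norm_mul, norm_inv, Complex.norm_natCast, inv_mul_lt_iff₀ hN']
  push_cast at t2 t3
  have t4 : (j * M : ℝ) * ‖trp z M (j * M)‖ ≤ j * M * (ε / 2) := by gcongr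
  nlinarith

variable {X : Type*} [MeasurableSpace X] {μ : Measure X} [IsProbabilityMeasure μ]

theorem trp_tendsto {T : X ≃ᵐ X} (hT : Ergodic T μ) {u v : X → ℂ} (hu : Measurable u)
    (h2 : MemLp u 2 μ) (hc : CorrSmall μ T u)
    (hv : Measurable v) {a b j : ℕ} (ha : 0 < a) (hb : 0 < b) (hab : a ≠ b) (hj : 0 < j)
    {ρ : ℝ} (hρ : ∀ x, ‖v x‖ ≤ ρ) (hρ' : a * ρ ^ 2 ≤ 1)
    (hn : a * ∫ x, ‖u x‖ ^ 2 ∂μ < (b : ℝ)⁻¹) (θ : Tor) :
    ∀ᵐ p ∂μ, Tendsto (fun k : ℕ => trp (sq2 T u v a b θ p) (2 ^ k) (j * 2 ^ k)) atTop (𝓝 0) := by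
  set A : ℝ → Set X := fun ε =>
    {p | ∃ᶠ k : ℕ in atTop, ε < ‖trp (sq2 T u v a b θ p) (2 ^ k) (j * 2 ^ k)‖} with hA
  have key : ∀ ε > 0, μ (A ε) ≤ ENNReal.ofReal (2 * ε) := by
    intro ε hε
    obtain ⟨η, hη, H⟩ := transfer hT.toMeasurePreserving hu hv ha hb hab hj hρ hρ' θ hε
    have hg := ae_goodSet hT hu h2 hc ha hn hη
    have hm : Monotone fun l => goodSet T u a (b : ℝ)⁻¹ η l ∩ A ε := fun l l' h p hp =>
      ⟨fun N1 N2 hN => hp.1 N1 N2 (h.trans hN), hp.2⟩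
    have h1 : μ (A ε) ≤ μ (⋃ l, goodSet T u a (b : ℝ)⁻¹ η l ∩ A ε) := by
      refine measure_mono_ae ?_
      filter_upwards [hg] with p hp h
      obtain ⟨l, hl⟩ := hp.exists
      exact Set.mem_iUnion.2 ⟨l, hl, h⟩
    rw [hm.measure_iUnion] at h1
    refine h1.trans (iSup_le fun l => ?_)
    set B : ℕ → Set X := fun D => goodSet T u a (b : ℝ)⁻¹ η l ∩
      {p | ∃ d ≤ D, ε < ‖trp (sq2 T u v a b θ p) (2 ^ (l + d)) (j * 2 ^ (l + d))‖}
    have hB : Monotone B := fun D D' h p ⟨h1, d, h2, h3⟩ => ⟨h1, d, h2.trans h, h3⟩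
    have h3 : goodSet T u a (b : ℝ)⁻¹ η l ∩ A ε ⊆ ⋃ D, B D := by
      rintro p ⟨h1, h2⟩
      obtain ⟨k, h3, h4⟩ := (h2.and_eventually (eventually_ge_atTop l)).exists
      obtain ⟨d, rfl⟩ := Nat.exists_eq_add_of_le h4
      exact Set.mem_iUnion.2 ⟨d, h1, d, le_rfl, h3⟩
    refine (measure_mono h3).trans ?_
    rw [hB.measure_iUnion]
    refine iSup_le fun D => ?_
    rw [← ofReal_measureReal]
    exact ENNReal.ofReal_le_ofReal (H l l D Nat.lt_two_pow_self.le)
  have key2 : ∀ ε > 0, μ (A ε) = 0 := by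
    intro ε hε
    refine le_antisymm ?_ bot_le
    have h1 := ENNReal.tendsto_ofReal (tendsto_inv_two_pow.const_mul 2)
    rw [mul_zero, ENNReal.ofReal_zero] at h1
    refine ge_of_tendsto h1 ?_
    filter_upwards [tendsto_inv_two_pow.eventually (gt_mem_nhds hε)] with s hs
    refine le_trans (measure_mono fun p hp => ?_) (key _ (by positivity))
    exact Frequently.mono hp fun k hk => hs.trans hk
  have := ae_all_iff.2 fun s : ℕ =>
    (measure_eq_zero_iff_ae_notMem.1 (key2 (1 / ((s : ℝ) + 1)) Nat.one_div_pos_of_nat))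
  filter_upwards [this] with p hp
  rw [NormedAddGroup.tendsto_nhds_zero]
  intro ε hε
  obtain ⟨s, hs⟩ := exists_nat_one_div_lt hε
  have := hp s
  simp only [hA, Set.mem_ofPred_eq, not_frequently, not_lt] at this
  exact this.mono fun k hk => hk.trans_lt hs

/-- the averages tend to zero when the correlations of the first function are small -/
theorem bdr_zero {T : X ≃ᵐ X} (hT : Ergodic T μ) {u v : X → ℂ} (hu : Measurable u)
    (h2 : MemLp u 2 μ) (hc : CorrSmall μ T u) (hv : Measurable v) {C : ℝ} (hC : ∀ x, ‖v x‖ ≤ C)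
    {a b : ℕ} (ha : 0 < a) (hb : 0 < b) (hab : a ≠ b) (θ : Tor) :
    ∀ᵐ p ∂μ, Tendsto (ces (sq2 T u v a b θ p)) atTop (𝓝 0) := by
  have ha' : (0 : ℝ) < a := by exact_mod_cast ha
  have hb' : (0 : ℝ) < b := by exact_mod_cast hb
  obtain ⟨s, hs0, hs1, hs2⟩ : ∃ s : ℝ, 0 < s ∧ a * (s * C) ^ 2 < 1 ∧
      a * (s ^ 2 * ∫ x, ‖u x‖ ^ 2 ∂μ) < (b : ℝ)⁻¹ := by
    have c1 : Continuous fun s : ℝ => a * (s * C) ^ 2 := by fun_prop
    have c2 : Continuous fun s : ℝ => a * (s ^ 2 * ∫ x, ‖u x‖ ^ 2 ∂μ) := by fun_prop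
    have t1 := (c1.tendsto 0).eventually (gt_mem_nhds (a := 1) (by simp))
    have t2 := (c2.tendsto 0).eventually (gt_mem_nhds (a := (b : ℝ)⁻¹) (by simpa using hb))
    obtain ⟨s, h1, h2⟩ := (((t1.and t2).filter_mono
      (nhdsWithin_le_nhds (s := Set.Ioi (0 : ℝ)))).and self_mem_nhdsWithin).exists
    exact ⟨s, h2, h1⟩
  have hsn : ‖(s : ℂ)‖ = s := by rw [Complex.norm_real, Real.norm_of_nonneg hs0.le]
  have hc' : CorrSmall μ T fun x => s * u x := by
    have := hc.const_mul (s ^ 2)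
    rw [mul_zero] at this
    refine this.congr fun H => ?_
    rw [mul_left_comm]
    simp only [mul_sum]
    refine sum_congr rfl fun h _ => sum_congr rfl fun k _ => ?_
    congr 1
    have : ∀ x, s * u (T^[h] x) * conj (s * u (T^[k] x)) =
        (s * s : ℂ) * (u (T^[h] x) * conj (u (T^[k] x))) := fun x => by
      rw [map_mul, Complex.conj_ofReal]; ring
    simp only [this]
    rw [integral_const_mul, norm_mul, norm_mul, hsn, sq]
  have h3 := ae_all_iff.2 fun j : ℕ => trp_tendsto hT (u := fun x => s * u x)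
    (v := fun x => s * v x) (hu.const_mul _) (h2.const_mul _) hc' (hv.const_mul _) ha hb hab
    (Nat.succ_pos j) (ρ := s * C) (fun x => by rw [norm_mul, hsn]; gcongr; exact hC x) hs1.le
    (by simp only [norm_mul, hsn, mul_pow]; rwa [integral_const_mul]) θ
  have h4 := sum_mul_le_of_ergodic hT (w := fun x => ‖u x‖ ^ 2) (hu.norm.pow_const 2)
    (fun x => sq_nonneg _) (integrable_sq h2) ha
  filter_upwards [h3, h4] with p h3 h4
  have h0 : 0 ≤ a * ∫ x, ‖u x‖ ^ 2 ∂μ := mul_nonneg ha'.le (integral_nonneg fun x => sq_nonneg _)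
  refine ces_of_trp (c := (C ^ 2 + 1) * (a * ∫ x, ‖u x‖ ^ 2 ∂μ + 1)) (by positivity) ?_ ?_
  · filter_upwards [h4 _ (lt_add_one _)] with N hN
    rw [mul_assoc]
    refine le_trans ?_ (mul_le_mul_of_nonneg_left hN (by positivity))
    rw [mul_sum]
    refine sum_le_sum fun n _ => ?_
    simp only [sq2, norm_mul, norm_ch, one_mul, mul_pow]
    rw [mul_comm]
    gcongr
    exact (pow_le_pow_left₀ (norm_nonneg _) (hC _) 2).trans (lt_add_one _).le
  · intro j hj
    obtain ⟨j, rfl⟩ : ∃ i, j = i + 1 := ⟨j - 1, by omega⟩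
    have := (h3 j).const_mul ((s : ℂ) * s)⁻¹
    rw [mul_zero] at this
    refine this.congr fun k => ?_
    have hs : (s : ℂ) ≠ 0 := by exact_mod_cast hs0.ne'
    simp only [trp, mul_sum, sq2]
    refine sum_congr rfl fun m _ => sum_congr rfl fun n _ => ?_
    field_simp

omit [IsProbabilityMeasure μ] in
lemma eigen_iterate {T : X → X} (hT : MeasurePreserving T μ μ) {φ : X → ℂ} {ζ : Tor}
    (h : ∀ᵐ x ∂μ, φ (T x) = fourier 1 ζ * φ x) :
    ∀ᵐ x ∂μ, ∀ n : ℕ, φ (T^[n] x) = ch ζ n * φ x := by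
  have := ae_all_iff.2 fun n : ℕ => (hT.iterate n).quasiMeasurePreserving.ae h
  filter_upwards [this] with x hx n
  induction n with
  | zero => simp
  | succ n ih =>
    rw [Function.iterate_succ_apply', hx, ih]
    push_cast
    rw [ch_add, ch.eq_1 ζ 1]; ring

lemma integral_norm_le_sqrt {r : X → ℂ} (h : MemLp r 2 μ) :
    ∫ x, ‖r x‖ ∂μ ≤ √(∫ x, ‖r x‖ ^ 2 ∂μ) := by
  have := integral_cs μ (φ := fun x => ‖r x‖) (ψ := fun _ => 1) (fun _ => norm_nonneg _)
    (fun _ => zero_le_one) h.norm (memLp_const 1)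
  simpa using this

/-- twisted double recurrence, first function square integrable -/
theorem bdr_two {T : X ≃ᵐ X} (hT : Ergodic T μ) {u v : X → ℂ} (hu : Measurable u)
    (h2 : MemLp u 2 μ) (hv : Measurable v) {C : ℝ} (hC : ∀ x, ‖v x‖ ≤ C)
    {a b : ℕ} (ha : 0 < a) (hb : 0 < b) (hab : a ≠ b) (θ : Tor) :
    Cv μ fun n x => ch θ n * u (T^[a * n] x) * v (T^[b * n] x) := by
  have hp := hT.toMeasurePreserving
  refine cv_of_approx hT ha fun ε hε => ?_
  have hC1 : 0 < |C| + 1 := by positivity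
  obtain ⟨m, φ, ζ, w, r, -, -, h3, h4, h5, h6, h7, h8, h9, h10⟩ :=
    Pool.Agent.Shared.Ergodic.kron_split hp hu h2 (ε := (ε / (|C| + 1)) ^ 2) (by positivity)
  refine ⟨fun n x => ∑ i, ch θ n * φ i (T^[a * n] x) * v (T^[b * n] x) +
    ch θ n * w (T^[a * n] x) * v (T^[b * n] x), fun x => (|C| + 1) * ‖r x‖, ?_,
    h6.norm.const_mul _, fun x => by positivity,
    (h7.integrable one_le_two).norm.const_mul _, ?_, Eventually.of_forall fun x n => ?_⟩
  · refine Cv.add (Cv.sum _ fun i _ => ?_) ?_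
    · refine ((birkhoff_twisted (hp.iterate b) hv C hC (θ + (a : ℤ) • ζ i)).mul_left
        (φ i)).congr ?_
      filter_upwards [eigen_iterate hp (h3 i)] with x hx n
      rw [hx, ch_add_left, ch_smul, Function.iterate_mul]
      push_cast; ring
    · filter_upwards [bdr_zero hT h4 h5 h10 hv hC ha hb hab θ] with x hx
      exact ⟨0, hx⟩
  · rw [integral_const_mul, ← le_div_iff₀' hC1]
    exact (integral_norm_le_sqrt h7).trans (Real.sqrt_le_iff.2 ⟨by positivity, h9⟩)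
  · beta_reduce
    rw [h8, ← sum_mul, ← mul_sum]
    have : ∀ p q s t e : ℂ, e * (p + q + s) * t - (e * p * t + e * q * t) = e * s * t :=
      fun _ _ _ _ _ => by ring
    rw [this, norm_mul, norm_ch_mul, mul_comm]
    gcongr
    linarith [hC (T^[b * n] x), le_abs_self C]

/-- twisted double recurrence, first function integrable -/
theorem bdr_one {T : X ≃ᵐ X} (hT : Ergodic T μ) {u v : X → ℂ} (hu : Measurable u)
    (h1 : Integrable u μ) (hv : Measurable v) {C : ℝ} (hC : ∀ x, ‖v x‖ ≤ C)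
    {a b : ℕ} (ha : 0 < a) (hb : 0 < b) (hab : a ≠ b) (θ : Tor) :
    Cv μ fun n x => ch θ n * u (T^[a * n] x) * v (T^[b * n] x) := by
  refine cv_of_approx hT ha fun ε hε => ?_
  have hC1 : 0 < |C| + 1 := by positivity
  obtain ⟨M, hM⟩ := ((tendsto_trunc hu h1).eventually
    (gt_mem_nhds (show 0 < ε / (|C| + 1) by positivity))).exists
  have hm : Measurable fun x => trunc M (u x) := (measurable_trunc M).comp hu
  have h2 : MemLp (fun x => trunc M (u x)) 2 μ :=
    MemLp.of_bound hm.aestronglyMeasurable M (Eventually.of_forall fun x => norm_trunc_le M _)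
  refine ⟨_, fun x => (|C| + 1) * ‖u x - trunc M (u x)‖, bdr_two hT hm h2 hv hC ha hb hab θ,
    (hu.sub hm).norm.const_mul _, fun x => by positivity,
    (h1.sub (h2.integrable one_le_two)).norm.const_mul _, ?_,
    Eventually.of_forall fun x n => ?_⟩
  · rw [integral_const_mul, ← le_div_iff₀' hC1]
    exact hM.le
  · beta_reduce
    rw [← sub_mul, ← mul_sub, norm_mul, norm_ch_mul, mul_comm]
    gcongr
    linarith [hC (T^[b * n] x), le_abs_self C]

/-- the double recurrence theorem of Bourgain, twisted, for bounded functions -/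
theorem bdr {T : X ≃ᵐ X} (hT : Ergodic T μ) {a b : ℕ} (ha : 0 < a) (hb : 0 < b) (hab : a ≠ b)
    {u v : X → ℂ} (hu : Measurable u) (hv : Measurable v) {C C' : ℝ} (hC : ∀ x, ‖u x‖ ≤ C)
    (hC' : ∀ x, ‖v x‖ ≤ C') (s : UnitAddCircle) :
    ∀ᵐ x ∂μ, ∃ L, Tendsto (fun N : ℕ => (N : ℂ)⁻¹ *
      ∑ n ∈ range N, fourier n s * u (T^[a * n] x) * v (T^[b * n] x)) atTop (𝓝 L) :=
  bdr_one hT hu (integrable_of_norm_le hu.aestronglyMeasurable C hC) hv hC' ha hb hab s

end Pool.Agent.Shared.DoubleRec
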