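import Pool.Agent.Shared.DoubleRec.Char

/-!
Penalised approximation by trigonometric sums: near minimisers have uniform residuals and are
stable (strong convexity).
-/

set_option autoImplicit false

open Finset ComplexConjugate

namespace Pool.Agent.Shared.DoubleRec

/-- coefficient families -/
abbrev Co := Tor →₀ ℂ

/-- the trigonometric sum with the given coefficients -/
noncomputable def ev (c : Co) (y : ℤ) : ℂ := c.sum fun θ z => z * ch θ y

/-- total mass of the coefficients -/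
noncomputable def l1 (c : Co) : ℝ := c.sum fun _ z => ‖z‖

lemma ev_eq {c : Co} {S : Finset Tor} (h : c.support ⊆ S) (y : ℤ) :
    ev c y = ∑ θ ∈ S, c θ * ch θ y :=
  Finsupp.sum_of_support_subset c h _ (by simp)

lemma l1_eq {c : Co} {S : Finset Tor} (h : c.support ⊆ S) : l1 c = ∑ θ ∈ S, ‖c θ‖ :=
  Finsupp.sum_of_support_subset c h _ (by simp)

lemma l1_nonneg (c : Co) : 0 ≤ l1 c := sum_nonneg fun _ _ => norm_nonneg _

lemma ev_add (c d : Co) (y : ℤ) : ev (c + d) y = ev c y + ev d y :=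
  Finsupp.sum_add_index' (by simp) (by intros; ring)

lemma ev_smul (r : ℂ) (c : Co) (y : ℤ) : ev (r • c) y = r * ev c y := by
  rw [ev_eq (Finsupp.support_smul), ev_eq (Subset.refl _), mul_sum]
  exact sum_congr rfl fun θ _ => by simp [mul_assoc]

@[simp] lemma ev_zero (y : ℤ) : ev 0 y = 0 := by simp [ev]

@[simp] lemma l1_zero : l1 0 = 0 := by simp [l1]

lemma ev_single (θ : Tor) (s : ℂ) (y : ℤ) : ev (Finsupp.single θ s) y = s * ch θ y :=
  Finsupp.sum_single_index (by simp)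

lemma l1_single (θ : Tor) (s : ℂ) : l1 (Finsupp.single θ s) = ‖s‖ :=
  Finsupp.sum_single_index (by simp)

lemma l1_add_le (c d : Co) : l1 (c + d) ≤ l1 c + l1 d := by
  classical
  rw [l1_eq (Finsupp.support_add), l1_eq (c := c) (S := c.support ∪ d.support) subset_union_left,
    l1_eq (c := d) (S := c.support ∪ d.support) subset_union_right, ← sum_add_distrib]
  exact sum_le_sum fun θ _ => norm_add_le _ _

lemma l1_smul (r : ℂ) (c : Co) : l1 (r • c) = ‖r‖ * l1 c := by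
  rw [l1_eq (Finsupp.support_smul), l1_eq (Subset.refl _), mul_sum]
  exact sum_congr rfl fun θ _ => by simp

lemma norm_ev_le (c : Co) (y : ℤ) : ‖ev c y‖ ≤ l1 c := by
  rw [ev_eq (Subset.refl _), l1_eq (Subset.refl _)]
  exact (norm_sum_le _ _).trans (le_of_eq (sum_congr rfl fun θ _ => by simp))

/-- penalised objective -/
noncomputable def obj (β : ℝ) (I : Finset ℤ) (f : ℤ → ℂ) (c : Co) : ℝ :=
  en I (fun y => f y - ev c y) + 2 * β * l1 c

lemma obj_nonneg {β : ℝ} (hβ : 0 ≤ β) (I : Finset ℤ) (f : ℤ → ℂ) (c : Co) : 0 ≤ obj β I f c := by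
  have := en_nonneg I (fun y => f y - ev c y)
  have := l1_nonneg c
  unfold obj; positivity

lemma obj_zero (β : ℝ) (I : Finset ℤ) (f : ℤ → ℂ) : obj β I f 0 = en I f := by
  simp [obj]

/-- near minimiser -/
def Near (β κ : ℝ) (I : Finset ℤ) (f : ℤ → ℂ) (c : Co) : Prop :=
  ∀ c', obj β I f c ≤ obj β I f c' + κ

lemma exists_near {β κ : ℝ} (hβ : 0 ≤ β) (hκ : 0 < κ) (I : Finset ℤ) (f : ℤ → ℂ) :
    ∃ c, Near β κ I f c := by
  have hb : BddBelow (Set.range (obj β I f)) := ⟨0, by rintro _ ⟨c, rfl⟩; exact obj_nonneg hβ I f c⟩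
  obtain ⟨c, hc⟩ := exists_lt_of_ciInf_lt (f := obj β I f)
    (lt_add_of_pos_right (⨅ c, obj β I f c) hκ)
  exact ⟨c, fun c' => by have := ciInf_le hb c'; linarith⟩

lemma norm_sub_sq_eq (u v : ℂ) : ‖u - v‖ ^ 2 = ‖u‖ ^ 2 - 2 * (u * conj v).re + ‖v‖ ^ 2 := by
  simp only [← Complex.normSq_eq_norm_sq, Complex.normSq_sub]; ring

lemma en_sub (I : Finset ℤ) (p q : ℤ → ℂ) : en I (fun y => p y - q y) =
    en I p - 2 * (∑ y ∈ I, p y * conj (q y)).re + en I q := by
  simp only [en, norm_sub_sq_eq, sum_add_distrib, sum_sub_distrib, Complex.re_sum, mul_sum]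

lemma en_sub_le (I : Finset ℤ) (p q : ℤ → ℂ) :
    en I (fun y => p y - q y) ≤ 2 * en I p + 2 * en I q := by
  simp only [en, mul_sum, ← sum_add_distrib]
  refine sum_le_sum fun y _ => ?_
  have := norm_sub_le (p y) (q y)
  have h2 := pow_le_pow_left₀ (norm_nonneg _) this 2
  nlinarith [sq_nonneg (‖p y‖ - ‖q y‖)]

lemma Near.uniform {β κ τ : ℝ} {I : Finset ℤ} {f : ℤ → ℂ} {c : Co} (h : Near β κ I f c)
    (hβ : 0 ≤ β) (hκ : 0 ≤ κ) (hτ : 0 < τ) (θ : Tor) :
    ‖ft I (fun y => f y - ev c y) θ‖ ≤ τ * I.card / 2 + β + κ / (2 * τ) := by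
  set ρ := ft I (fun y => f y - ev c y) θ with hρ
  rcases (norm_nonneg ρ).eq_or_lt with h0 | h0
  · rw [← h0]; positivity
  set s : ℂ := ((τ / ‖ρ‖ : ℝ) : ℂ) * ρ with hs
  have hsn : ‖s‖ = τ := by
    rw [hs, norm_mul, Complex.norm_real, Real.norm_of_nonneg (by positivity)]; field_simp
  have h1 := h (c + Finsupp.single θ s)
  have h2 := l1_add_le c (Finsupp.single θ s)
  rw [l1_single, hsn] at h2
  have h3 : en I (fun y => f y - ev (c + Finsupp.single θ s) y) =
      en I (fun y => f y - ev c y) - 2 * (τ * ‖ρ‖) + τ ^ 2 * I.card := by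
    have := en_sub I (fun y => f y - ev c y) (fun y => s * ch θ y)
    simp only [ev_add, ev_single, ← sub_sub]
    rw [this]
    congr 2
    · congr 1
      have : ∑ y ∈ I, (f y - ev c y) * conj (s * ch θ y) = conj s * ρ := by
        rw [hρ, ft, mul_sum]; exact sum_congr rfl fun y _ => by rw [map_mul]; ring
      rw [this, hs, map_mul, Complex.conj_ofReal, mul_assoc, mul_comm (conj ρ), Complex.mul_conj,
        Complex.normSq_eq_norm_sq, ← Complex.ofReal_mul, Complex.ofReal_re]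
      field_simp
    · simp [en, hsn, mul_comm]
  unfold obj at h1
  rw [h3] at h1
  have h4 : 2 * τ * ‖ρ‖ ≤ τ ^ 2 * I.card + 2 * β * τ + κ := by nlinarith
  have : τ * I.card / 2 + β + κ / (2 * τ) = (τ ^ 2 * I.card + 2 * β * τ + κ) / (2 * τ) := by
    field_simp
  rw [this, le_div_iff₀ (by positivity)]
  linarith

lemma Near.mid {β κ : ℝ} {I : Finset ℤ} {f : ℤ → ℂ} {c : Co} (h : Near β κ I f c)
    (hβ : 0 ≤ β) (c' : Co) :
    obj β I f c + en I (fun y => ev c y - ev c' y) / 2 ≤ obj β I f c' + 2 * κ := by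
  have h1 := h ((1 / 2 : ℂ) • (c + c'))
  have h2 : l1 ((1 / 2 : ℂ) • (c + c')) ≤ (l1 c + l1 c') / 2 := by
    rw [l1_smul]
    have := l1_add_le c c'
    norm_num; linarith
  have h3 : en I (fun y => f y - ev ((1 / 2 : ℂ) • (c + c')) y) =
      en I (fun y => f y - ev c y) / 2 + en I (fun y => f y - ev c' y) / 2 -
        en I (fun y => ev c y - ev c' y) / 4 := by
    simp only [en, sum_div, ← sum_add_distrib, ← sum_sub_distrib]
    refine sum_congr rfl fun y _ => ?_
    rw [ev_smul, ev_add]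
    simp only [← Complex.normSq_eq_norm_sq, Complex.normSq_apply]
    simp
    ring
  unfold obj at *
  rw [h3] at h1
  nlinarith

lemma Near.l1_le {β κ : ℝ} {I : Finset ℤ} {f : ℤ → ℂ} {c : Co} (h : Near β κ I f c) :
    2 * β * l1 c ≤ en I f + κ := by
  have := h 0
  rw [obj_zero] at this
  have h2 := en_nonneg I (fun y => f y - ev c y)
  unfold obj at this; linarith

lemma Near.en_le {β κ : ℝ} {I : Finset ℤ} {f : ℤ → ℂ} {c : Co} (h : Near β κ I f c)
    (hβ : 0 ≤ β) : en I (ev c) ≤ 2 * en I f + 4 * κ := by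
  have := h.mid hβ 0
  rw [obj_zero] at this
  have h2 := obj_nonneg hβ I f c
  simp only [ev_zero, sub_zero] at this
  linarith

lemma Near.en_le_of_uniform {β κ : ℝ} {I : Finset ℤ} {f : ℤ → ℂ} {c : Co} (h : Near β κ I f c)
    (hf : ∀ θ, ‖ft I f θ‖ ≤ β) : en I (ev c) ≤ κ := by
  have h1 := h 0
  rw [obj_zero, obj, en_sub] at h1
  have h2 : ∑ y ∈ I, f y * conj (ev c y) = ∑ θ ∈ c.support, conj (c θ) * ft I f θ := by
    simp only [ev_eq (Subset.refl c.support), map_sum, mul_sum, ft, map_mul]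
    rw [sum_comm]
    exact sum_congr rfl fun θ _ => sum_congr rfl fun y _ => by ring
  have h3 : (∑ y ∈ I, f y * conj (ev c y)).re ≤ β * l1 c := by
    refine (Complex.re_le_norm _).trans ?_
    rw [h2, l1_eq (Subset.refl _), mul_sum]
    refine (norm_sum_le _ _).trans (sum_le_sum fun θ _ => ?_)
    rw [norm_mul, Complex.norm_conj, mul_comm]
    exact mul_le_mul_of_nonneg_right (hf θ) (norm_nonneg _)
  linarith

/-- the window of the average lies in the set -/
def Fits (M N : ℕ) (I : Finset ℤ) (s : ℤ) : Prop := ∀ m < M, ∀ n < N, s + ((m : ℤ) + n) ∈ I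

lemma bil_res {M N : ℕ} {I Z : Finset ℤ} {s s' : ℤ} (h : Fits M N I s) (h' : Fits M N Z s')
    (p q : ℤ → ℂ) : bil M N p q s s' = bil M N (res I p) (res Z q) s s' := by
  unfold bil
  congr 1
  refine sum_congr rfl fun m hm => sum_congr rfl fun n hn => ?_
  rw [res, res, if_pos (h m (mem_range.1 hm) n (mem_range.1 hn)),
    if_pos (h' m (mem_range.1 hm) n (mem_range.1 hn))]

lemma sum_window_le {M N : ℕ} {I : Finset ℤ} {s : ℤ} (h : Fits M N I s) (p : ℤ → ℂ) {m : ℕ}
    (hm : m < M) : ∑ n ∈ range N, ‖p (s + (m + n))‖ ^ 2 ≤ en I p := by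
  classical
  rw [← sum_image (g := fun n : ℕ => s + ((m : ℤ) + n)) (f := fun y => ‖p y‖ ^ 2)
    (fun x _ y _ e => by simpa using e)]
  refine sum_le_sum_of_subset_of_nonneg ?_ fun _ _ _ => sq_nonneg _
  intro y hy
  obtain ⟨n, hn, rfl⟩ := mem_image.1 hy
  exact h m hm n (mem_range.1 hn)

lemma norm_bil_le {M N : ℕ} {I Z : Finset ℤ} {s s' : ℤ} (h : Fits M N I s) (h' : Fits M N Z s')
    (hM : 0 < M) (hN : 0 < N) (p q : ℤ → ℂ) :
    ‖bil M N p q s s'‖ ≤ √(en I p) * √(en Z q) / N := by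
  have hM' : (0 : ℝ) < M := by exact_mod_cast hM
  have hN' : (0 : ℝ) < N := by exact_mod_cast hN
  rw [bil, norm_mul, norm_inv, norm_mul, Complex.norm_natCast, Complex.norm_natCast]
  have : ‖∑ m ∈ range M, ∑ n ∈ range N, p (s + (m + n)) * conj (q (s' + (m + n)))‖ ≤
      M * (√(en I p) * √(en Z q)) := by
    refine (norm_sum_le _ _).trans ?_
    refine (sum_le_card_nsmul _ _ (√(en I p) * √(en Z q)) fun m hm => ?_).trans (by simp)
    refine (norm_sum_le _ _).trans ?_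
    simp only [norm_mul, Complex.norm_conj]
    refine (Real.sum_mul_le_sqrt_mul_sqrt _ _ _).trans ?_
    gcongr
    · exact sum_window_le h p (mem_range.1 hm)
    · exact sum_window_le h' q (mem_range.1 hm)
  refine (mul_le_mul_of_nonneg_left this (by positivity)).trans (le_of_eq ?_)
  field_simp

lemma bil_sub_left (M N : ℕ) (p p' q : ℤ → ℂ) (s s' : ℤ) :
    bil M N (fun y => p y - p' y) q s s' = bil M N p q s s' - bil M N p' q s s' := by
  simp only [bil, sub_mul, sum_sub_distrib, mul_sub]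

lemma bil_sub_right (M N : ℕ) (p q q' : ℤ → ℂ) (s s' : ℤ) :
    bil M N p (fun y => q y - q' y) s s' = bil M N p q s s' - bil M N p q' s s' := by
  simp only [bil, map_sub, sum_sub_distrib, mul_sub]

/-- frequency kernel of the average -/
noncomputable def ker (M N : ℕ) (o : ℤ) (ξ : Tor) : ℂ :=
  ((M : ℂ) * N)⁻¹ * ∑ m ∈ range M, ∑ n ∈ range N, ch ξ (o + (m + n))

lemma sum4_comm {α β γ δ E : Type*} [AddCommMonoid E] (A : Finset α) (B : Finset β)
    (C : Finset γ) (D : Finset δ) (f : α → β → γ → δ → E) :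
    ∑ a ∈ A, ∑ b ∈ B, ∑ c ∈ C, ∑ d ∈ D, f a b c d =
      ∑ c ∈ C, ∑ d ∈ D, ∑ a ∈ A, ∑ b ∈ B, f a b c d := by
  rw [← sum_product' (f := fun a b => ∑ c ∈ C, ∑ d ∈ D, f a b c d),
    ← sum_product' (f := fun c d => ∑ a ∈ A, ∑ b ∈ B, f a b c d)]
  simp_rw [← sum_product' (s := C) (t := D), ← sum_product' (s := A) (t := B)]
  exact sum_comm

lemma bil_ev (M N : ℕ) {c d : Co} {S : Finset Tor} (hc : c.support ⊆ S) (hd : d.support ⊆ S)
    (s s' o : ℤ) : bil M N (ev c) (ev d) (s + o) (s' + o) =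
      ∑ θ ∈ S, ∑ φ ∈ S, c θ * conj (d φ) * (ch θ s * conj (ch φ s')) * ker M N o (θ - φ) := by
  simp only [bil, ker, ev_eq hc, ev_eq hd, map_sum, sum_mul_sum]
  simp only [mul_sum]
  rw [sum4_comm]
  refine sum_congr rfl fun θ _ => sum_congr rfl fun φ _ => sum_congr rfl fun m _ =>
    sum_congr rfl fun n _ => ?_
  rw [add_assoc, add_assoc, ch_add θ s, ch_add φ s', ch_sub_left]
  simp only [map_mul]
  ring

lemma ker_eq (M N : ℕ) (o : ℤ) (ξ : Tor) :
    ker M N o ξ = ((M : ℂ) * N)⁻¹ * (ch ξ o * (dir M ξ * dir N ξ)) := by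
  simp only [ker, dir, sum_mul_sum, ch_add]
  simp only [mul_sum]

lemma norm_ker_le {M N : ℕ} (hM : 0 < M) (hN : 0 < N) (o : ℤ) (ξ : Tor) :
    ‖ker M N o ξ‖ ≤ 1 := by
  have hM' : (0 : ℝ) < M := by exact_mod_cast hM
  have hN' : (0 : ℝ) < N := by exact_mod_cast hN
  simp only [ker_eq, norm_mul, norm_inv, Complex.norm_natCast, norm_ch, one_mul]
  rw [inv_mul_le_iff₀ (by positivity), mul_one]
  exact mul_le_mul (norm_dir_le _ _) (norm_dir_le _ _) (norm_nonneg _) hM'.le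

lemma norm_ker_mul_chord {M N : ℕ} (hM : 0 < M) (hN : 0 < N) (o : ℤ) (ξ : Tor) :
    ‖ker M N o ξ‖ * (M * chord ξ) ≤ 2 := by
  have hM' : (0 : ℝ) < M := by exact_mod_cast hM
  have hN' : (0 : ℝ) < N := by exact_mod_cast hN
  simp only [ker_eq, norm_mul, norm_inv, Complex.norm_natCast, norm_ch, one_mul]
  have h1 := norm_dir_mul_chord M ξ
  have h2 := norm_dir_le N ξ
  have h3 := chord_nonneg ξ
  calc _ = (‖dir M ξ‖ * chord ξ) * (‖dir N ξ‖ / N) := by field_simp
    _ ≤ 2 * 1 := mul_le_mul h1 ((div_le_one hN').2 h2) (by positivity) (by norm_num)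
    _ = 2 := by norm_num

lemma norm_ker_sub_one {M N : ℕ} (hM : 0 < M) (hN : 0 < N) {o : ℤ}
    (ho : -((M : ℤ) + N) ≤ o) (ho' : o ≤ 0) (ξ : Tor) :
    ‖ker M N o ξ - 1‖ ≤ (M + N) * chord ξ := by
  have hM' : (0 : ℝ) < M := by exact_mod_cast hM
  have hN' : (0 : ℝ) < N := by exact_mod_cast hN
  have hM'' : (M : ℂ) ≠ 0 := by exact_mod_cast hM.ne'
  have hN'' : (N : ℂ) ≠ 0 := by exact_mod_cast hN.ne'
  have : ker M N o ξ - 1 =
      ((M : ℂ) * N)⁻¹ * ∑ m ∈ range M, ∑ n ∈ range N, (ch ξ (o + (m + n)) - 1) := by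
    simp only [ker, sum_sub_distrib, sum_const, card_range, nsmul_eq_mul, mul_one, mul_sub]
    field_simp
  rw [this, norm_mul, norm_inv, norm_mul, Complex.norm_natCast, Complex.norm_natCast,
    inv_mul_le_iff₀ (by positivity)]
  refine (norm_sum_le _ _).trans ?_
  refine (sum_le_card_nsmul _ _ (N * ((M + N) * chord ξ)) fun m hm => ?_).trans
    (by simp [mul_assoc])
  refine (norm_sum_le _ _).trans ?_
  refine (sum_le_card_nsmul _ _ ((M + N) * chord ξ) fun n hn => ?_).trans (by simp)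
  refine (norm_ch_sub_one _ _).trans (mul_le_mul_of_nonneg_right ?_ (chord_nonneg _))
  have h1 := mem_range.1 hm
  have h2 := mem_range.1 hn
  have : |o + ((m : ℤ) + n)| ≤ M + N := by rw [abs_le]; constructor <;> omega
  exact_mod_cast this

end Pool.Agent.Shared.DoubleRec
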