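import Mathlib

/-!
Characters of the circle, Parseval, a Hankel form bound and the single scale bound for bilinear
averages with a trapezoidal weight.
-/

set_option autoImplicit false

open MeasureTheory Finset ComplexConjugate

namespace Pool.Agent.Shared.DoubleRec

/-- the circle -/
abbrev Tor := UnitAddCircle

/-- the character `exp (2 π i y θ)` -/
noncomputable def ch (θ : Tor) (y : ℤ) : ℂ := fourier y θ

lemma ch_add (θ : Tor) (y z : ℤ) : ch θ (y + z) = ch θ y * ch θ z := fourier_add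

lemma ch_neg (θ : Tor) (y : ℤ) : ch θ (-y) = conj (ch θ y) := fourier_neg

@[simp] lemma ch_zero (θ : Tor) : ch θ 0 = 1 := fourier_zero

@[simp] lemma norm_ch (θ : Tor) (y : ℤ) : ‖ch θ y‖ = 1 := by
  simp [ch, fourier_apply]

lemma ch_add_left (θ φ : Tor) (y : ℤ) : ch (θ + φ) y = ch θ y * ch φ y := by
  simp [ch, fourier_apply, AddCircle.toCircle_add]

@[simp] lemma ch_zero_left (y : ℤ) : ch 0 y = 1 := fourier_eval_zero y

lemma ch_neg_left (θ : Tor) (y : ℤ) : ch (-θ) y = conj (ch θ y) := by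
  rw [← ch_neg]; simp [ch, fourier_apply]

lemma ch_sub_left (θ φ : Tor) (y : ℤ) : ch (θ - φ) y = ch θ y * conj (ch φ y) := by
  rw [sub_eq_add_neg, ch_add_left, ch_neg_left]

lemma ch_smul (θ : Tor) (a y : ℤ) : ch (a • θ) y = ch θ (a * y) := by
  simp only [ch, fourier_apply, smul_smul, mul_comm]

lemma ch_mul_conj (θ : Tor) (y : ℤ) : ch θ y * conj (ch θ y) = 1 := by
  rw [Complex.mul_conj, Complex.normSq_eq_norm_sq, norm_ch]; simp

lemma ch_natCast (θ : Tor) (n : ℕ) : ch θ n = ch θ 1 ^ n := by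
  induction n with
  | zero => simp
  | succ n ih => push_cast; rw [ch_add, ih, pow_succ]

@[continuity, fun_prop] lemma continuous_ch (y : ℤ) : Continuous fun θ : Tor => ch θ y :=
  (fourier y).continuous

lemma ch_one_injective : Function.Injective fun θ : Tor => ch θ 1 := by
  intro θ φ h
  simp only [ch, fourier_one] at h
  exact AddCircle.injective_toCircle one_ne_zero (Subtype.ext h)

lemma integral_ch (n : ℤ) : ∫ θ : Tor, ch θ n = if n = 0 then 1 else 0 := by
  split_ifs with h
  · simp [h, Measure.real]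
  · exact integral_eq_zero_of_add_right_eq_neg (μ := volume)
      (fourier_add_half_inv_index h one_pos)

lemma integrable_of_continuous {E : Type*} [NormedAddCommGroup E] {φ : Tor → E}
    (h : Continuous φ) (ν : Measure Tor) [IsFiniteMeasure ν] : Integrable φ ν :=
  h.integrable_of_hasCompactSupport (HasCompactSupport.of_compactSpace φ)

/-- chordal distance to the origin -/
noncomputable def chord (θ : Tor) : ℝ := ‖ch θ 1 - 1‖

lemma chord_nonneg (θ : Tor) : 0 ≤ chord θ := norm_nonneg _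

lemma chord_sub (θ φ : Tor) : chord (θ - φ) = ‖ch θ 1 - ch φ 1‖ := by
  have : ch θ 1 - ch φ 1 = (ch (θ - φ) 1 - 1) * ch φ 1 := by
    rw [ch_sub_left, sub_mul, mul_assoc, mul_comm (conj _), ch_mul_conj]; ring
  rw [this, norm_mul, norm_ch, mul_one, chord]

lemma norm_ch_nat_sub_one (θ : Tor) (n : ℕ) : ‖ch θ n - 1‖ ≤ n * chord θ := by
  induction n with
  | zero => simp
  | succ n ih =>
    push_cast
    have : ch θ (n + 1) - 1 = (ch θ n - 1) * ch θ 1 + (ch θ 1 - 1) := by rw [ch_add]; ring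
    rw [this]
    refine (norm_add_le _ _).trans ?_
    rw [norm_mul, norm_ch, mul_one, add_mul, one_mul]
    exact add_le_add ih le_rfl

lemma norm_ch_sub_one (θ : Tor) (y : ℤ) : ‖ch θ y - 1‖ ≤ |(y : ℝ)| * chord θ := by
  obtain ⟨n, rfl | rfl⟩ := Int.eq_nat_or_neg y
  · simpa using norm_ch_nat_sub_one θ n
  · have : ch θ (-(n : ℤ)) - 1 = conj (ch θ n - 1) := by rw [ch_neg]; simp
    rw [this, Complex.norm_conj]
    simpa using norm_ch_nat_sub_one θ n

/-- Dirichlet kernel -/
noncomputable def dir (M : ℕ) (θ : Tor) : ℂ := ∑ m ∈ range M, ch θ m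

lemma norm_dir_le (M : ℕ) (θ : Tor) : ‖dir M θ‖ ≤ M := by
  refine (norm_sum_le _ _).trans ?_
  simp

lemma norm_dir_mul_chord (M : ℕ) (θ : Tor) : ‖dir M θ‖ * chord θ ≤ 2 := by
  have : dir M θ * (ch θ 1 - 1) = ch θ 1 ^ M - 1 := by
    simp only [dir, ch_natCast]; exact geom_sum_mul _ _
  rw [chord, ← norm_mul, this]
  refine (norm_sub_le _ _).trans ?_
  rw [norm_pow, norm_ch]; norm_num

@[continuity, fun_prop] lemma continuous_dir (M : ℕ) : Continuous (dir M) := by
  unfold dir; fun_prop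

/-- Parseval identity for trigonometric sums -/
lemma parseval {ι : Type*} (S : Finset ι) (ν : ι → ℤ) (hν : Set.InjOn ν S) (h : ι → ℂ) :
    ∫ θ : Tor, ‖∑ s ∈ S, h s * ch θ (ν s)‖ ^ 2 = ∑ s ∈ S, ‖h s‖ ^ 2 := by
  classical
  have e1 : ∀ θ : Tor, (((‖∑ s ∈ S, h s * ch θ (ν s)‖ ^ 2 : ℝ)) : ℂ) =
      ∑ s ∈ S, ∑ s' ∈ S, h s * conj (h s') * ch θ (ν s - ν s') := by
    intro θ
    rw [← Complex.normSq_eq_norm_sq, ← Complex.mul_conj, map_sum, sum_mul_sum]
    refine sum_congr rfl fun s _ => sum_congr rfl fun s' _ => ?_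
    rw [sub_eq_add_neg, ch_add, ch_neg, map_mul]; ring
  apply Complex.ofReal_injective
  rw [← integral_complex_ofReal]
  simp_rw [e1]
  rw [integral_finsetSum _ fun s _ => integrable_of_continuous (by fun_prop) _]
  push_cast
  refine sum_congr rfl fun s hs => ?_
  rw [integral_finsetSum _ fun s _ => integrable_of_continuous (by fun_prop) _]
  simp_rw [integral_const_mul, integral_ch]
  rw [sum_eq_single s]
  · simp [Complex.mul_conj, Complex.normSq_eq_norm_sq]
  · intro s' hs' hne
    rw [if_neg, mul_zero]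
    intro h0
    exact hne (hν hs' hs (by linarith))
  · intro h; exact absurd hs h

lemma integral_cs {α : Type*} [MeasurableSpace α] (ν : Measure α) {φ ψ : α → ℝ}
    (hφ0 : ∀ x, 0 ≤ φ x) (hψ0 : ∀ x, 0 ≤ ψ x) (hφ : MemLp φ 2 ν) (hψ : MemLp ψ 2 ν) :
    ∫ x, φ x * ψ x ∂ν ≤ √(∫ x, φ x ^ 2 ∂ν) * √(∫ x, ψ x ^ 2 ∂ν) := by
  have := integral_mul_le_Lp_mul_Lq_of_nonneg (μ := ν) Real.HolderConjugate.two_two
    (Filter.Eventually.of_forall hφ0) (Filter.Eventually.of_forall hψ0)
    (by simpa using hφ) (by simpa using hψ)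
  simpa [Real.sqrt_eq_rpow] using this

lemma memLp_of_continuous {E : Type*} [NormedAddCommGroup E] {φ : Tor → E}
    (h : Continuous φ) (ν : Measure Tor) [IsFiniteMeasure ν] : MemLp φ 2 ν :=
  h.memLp_of_hasCompactSupport (HasCompactSupport.of_compactSpace φ)

lemma integral_cs_tor {φ ψ : Tor → ℂ} (hφ : Continuous φ) (hψ : Continuous ψ) :
    ∫ x, ‖φ x‖ * ‖ψ x‖ ≤ √(∫ x, ‖φ x‖ ^ 2) * √(∫ x, ‖ψ x‖ ^ 2) :=
  integral_cs _ (fun _ => norm_nonneg _) (fun _ => norm_nonneg _)
    (memLp_of_continuous hφ.norm _) (memLp_of_continuous hψ.norm _)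

/-- energy on a finite set -/
noncomputable def en (I : Finset ℤ) (p : ℤ → ℂ) : ℝ := ∑ y ∈ I, ‖p y‖ ^ 2

lemma en_nonneg (I : Finset ℤ) (p : ℤ → ℂ) : 0 ≤ en I p := sum_nonneg fun _ _ => sq_nonneg _

/-- Fourier transform on a finite set -/
noncomputable def ft (I : Finset ℤ) (p : ℤ → ℂ) (θ : Tor) : ℂ := ∑ y ∈ I, p y * conj (ch θ y)

/-- restriction to a finite set -/
noncomputable def res (I : Finset ℤ) (p : ℤ → ℂ) (y : ℤ) : ℂ := if y ∈ I then p y else 0

lemma continuous_ft (I : Finset ℤ) (p : ℤ → ℂ) : Continuous (ft I p) := by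
  unfold ft
  refine continuous_finsetSum _ fun y _ => continuous_const.mul ?_
  exact Complex.continuous_conj.comp (continuous_ch y)

lemma res_eq_integral (I : Finset ℤ) (p : ℤ → ℂ) (y : ℤ) :
    res I p y = ∫ θ : Tor, ft I p θ * ch θ y := by
  simp_rw [ft, sum_mul, ← ch_neg, mul_assoc, ← ch_add]
  rw [integral_finsetSum _ fun s _ => integrable_of_continuous (by fun_prop) _]
  simp_rw [integral_const_mul, integral_ch]
  unfold res
  split_ifs with h
  · rw [sum_eq_single y]
    · simp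
    · intro z _ hz; rw [if_neg (by omega), mul_zero]
    · intro h'; exact absurd h h'
  · refine (sum_eq_zero fun z hz => ?_).symm
    have : z ≠ y := fun e => h (e ▸ hz)
    rw [if_neg (by omega), mul_zero]

/-- Hankel form bound -/
lemma hankel (I S Z : Finset ℤ) (p h q : ℤ → ℂ) {c : ℤ} (hc : c ≠ 0) {U : ℝ}
    (hU : ∀ θ, ‖ft I p θ‖ ≤ U) :
    ‖∑ t ∈ S, ∑ z ∈ Z, h t * q z * res I p (c * t + z)‖ ≤ U * (√(en S h) * √(en Z q)) := by
  have hf := continuous_ft I p
  have e1 : ∑ t ∈ S, ∑ z ∈ Z, h t * q z * res I p (c * t + z) =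
      ∫ θ : Tor, ft I p θ * ((∑ t ∈ S, h t * ch θ (c * t)) * ∑ z ∈ Z, q z * ch θ z) := by
    simp_rw [sum_mul_sum, mul_sum]
    rw [integral_finsetSum _ fun s _ => integrable_of_continuous (by fun_prop) _]
    refine sum_congr rfl fun t _ => ?_
    rw [integral_finsetSum _ fun s _ => integrable_of_continuous (by fun_prop) _]
    refine sum_congr rfl fun z _ => ?_
    rw [res_eq_integral, ← integral_const_mul]
    refine integral_congr_ae (Filter.Eventually.of_forall fun θ => ?_)
    simp only [ch_add]; ring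
  have hU0 : 0 ≤ U := (norm_nonneg _).trans (hU 0)
  rw [e1]
  refine (norm_integral_le_integral_norm _).trans ?_
  have c1 : Continuous fun θ : Tor => ∑ t ∈ S, h t * ch θ (c * t) := by fun_prop
  have c2 : Continuous fun θ : Tor => ∑ z ∈ Z, q z * ch θ z := by fun_prop
  have := integral_cs_tor c1 c2
  rw [parseval S (fun t => c * t) (fun x _ y _ e => mul_left_cancel₀ hc e),
    parseval Z (fun t => t) (fun x _ y _ e => e)] at this
  refine le_trans ?_ (mul_le_mul_of_nonneg_left this hU0)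
  rw [← integral_const_mul]
  refine integral_mono (integrable_of_continuous (by fun_prop) _)
    (integrable_of_continuous (by fun_prop) _) fun θ => ?_
  simp only [norm_mul]
  exact mul_le_mul_of_nonneg_right (hU θ) (by positivity)

/-- bilinear average with trapezoidal weight -/
noncomputable def bil (M N : ℕ) (p q : ℤ → ℂ) (s s' : ℤ) : ℂ :=
  ((M : ℂ) * N)⁻¹ * ∑ m ∈ range M, ∑ n ∈ range N, p (s + (m + n)) * conj (q (s' + (m + n)))

lemma bil_swap (M N : ℕ) (p q : ℤ → ℂ) (s s' : ℤ) :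
    bil M N q p s' s = conj (bil M N p q s s') := by
  simp only [bil, map_mul, map_inv₀, map_natCast, map_sum, Complex.conj_conj]
  congr 1
  exact sum_congr rfl fun m _ => sum_congr rfl fun n _ => mul_comm _ _

lemma integral_dir_sq (M : ℕ) : ∫ θ : Tor, ‖dir M θ‖ ^ 2 = M := by
  have := parseval (range M) (fun m => (m : ℤ)) (fun x _ y _ e => Nat.cast_injective e) fun _ => 1
  simpa [dir] using this

/-- single scale bound -/
lemma single_scale (I Z S : Finset ℤ) (p q : ℤ → ℂ) {a b : ℤ} (hab : a ≠ b) (o : ℤ) {M N : ℕ}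
    (hM : 0 < M) (hN : 0 < N) {U : ℝ} (hU : ∀ θ, ‖ft I p θ‖ ≤ U) :
    ∑ t ∈ S, ‖bil M N (res I p) (res Z q) (b * t + o) (a * t + o)‖ ^ 2 ≤
      U ^ 2 / (M * N) * en Z q := by
  set A : ℤ → ℂ := fun t => bil M N (res I p) (res Z q) (b * t + o) (a * t + o) with hA
  have hU0 : 0 ≤ U := (norm_nonneg _).trans (hU 0)
  have hM' : (0 : ℝ) < M := by exact_mod_cast hM
  have hN' : (0 : ℝ) < N := by exact_mod_cast hN
  set Hk : Tor → ℂ := fun ξ => ∑ t ∈ S, ∑ z ∈ Z, (conj (A t) * ch ξ (a * t + o)) *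
    (conj (q z) * ch ξ (-z)) * res I p ((b - a) * t + z) with hHk
  have cH : Continuous Hk := by rw [hHk]; fun_prop
  have bH : ∀ ξ, ‖Hk ξ‖ ≤ U * (√(en S A) * √(en Z q)) := by
    intro ξ
    have := hankel I S Z p (fun t => conj (A t) * ch ξ (a * t + o))
      (fun z => conj (q z) * ch ξ (-z)) (c := b - a) (by omega) hU
    simpa [en] using this
  have e0 : ∀ (t : ℤ) (m n : ℕ), res I p (b * t + o + (m + n)) *
      conj (res Z q (a * t + o + (m + n))) =
      ∫ ξ : Tor, ∑ z ∈ Z, ch ξ m * ch ξ n * (ch ξ (a * t + o) *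
        (conj (q z) * ch ξ (-z)) * res I p ((b - a) * t + z)) := by
    intro t m n
    rw [integral_finsetSum _ fun s _ => integrable_of_continuous (by fun_prop) _]
    have : ∀ z : ℤ, ∫ ξ : Tor, ch ξ m * ch ξ n * (ch ξ (a * t + o) *
        (conj (q z) * ch ξ (-z)) * res I p ((b - a) * t + z)) =
        conj (q z) * res I p ((b - a) * t + z) *
          if a * t + o + (m + n) - z = 0 then 1 else 0 := by
      intro z
      rw [← integral_ch, ← integral_const_mul]
      refine integral_congr_ae (Filter.Eventually.of_forall fun ξ => ?_)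
      simp only [sub_eq_add_neg, ch_add]; ring
    simp_rw [this]
    by_cases hz : a * t + o + (m + n) ∈ Z
    · rw [sum_eq_single (a * t + o + (m + n))]
      · rw [res.eq_1 Z, if_pos hz, if_pos (by ring), mul_one, mul_comm]
        congr 2; ring
      · intro z _ hz'; rw [if_neg (by omega), mul_zero]
      · intro h'; exact absurd hz h'
    · rw [res.eq_1 Z, if_neg hz, map_zero, mul_zero]
      refine (sum_eq_zero fun z hz' => ?_).symm
      have : z ≠ a * t + o + (m + n) := fun e => hz (e ▸ hz')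
      rw [if_neg (by omega), mul_zero]
  have e1 : ((en S A : ℝ) : ℂ) = ((M : ℂ) * N)⁻¹ * ∫ ξ : Tor, dir M ξ * dir N ξ * Hk ξ := by
    have : ∀ t, ((‖A t‖ ^ 2 : ℝ) : ℂ) = conj (A t) * A t := by
      intro t; rw [mul_comm, Complex.mul_conj, Complex.normSq_eq_norm_sq]
    simp only [en, Complex.ofReal_sum, this]
    have e2 : ∀ ξ, dir M ξ * dir N ξ * Hk ξ = ∑ t ∈ S, conj (A t) * ∑ m ∈ range M, ∑ n ∈ range N,
        ∑ z ∈ Z, ch ξ m * ch ξ n * (ch ξ (a * t + o) *
        (conj (q z) * ch ξ (-z)) * res I p ((b - a) * t + z)) := by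
      intro ξ
      simp only [hHk, mul_sum]
      refine sum_congr rfl fun t _ => ?_
      rw [dir, dir, sum_mul_sum]
      simp only [sum_mul]
      rw [sum_comm]
      refine sum_congr rfl fun m _ => ?_
      rw [sum_comm]
      refine sum_congr rfl fun n _ => sum_congr rfl fun z _ => by ring
    simp_rw [e2]
    rw [integral_finsetSum _ fun s _ => integrable_of_continuous (by fun_prop) _, mul_sum]
    refine sum_congr rfl fun t _ => ?_
    rw [integral_const_mul, integral_finsetSum _ fun s _ => integrable_of_continuous (by fun_prop) _]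
    have : ∀ m : ℕ, ∫ ξ : Tor, ∑ n ∈ range N, ∑ z ∈ Z, ch ξ m * ch ξ n * (ch ξ (a * t + o) *
        (conj (q z) * ch ξ (-z)) * res I p ((b - a) * t + z)) =
        ∑ n ∈ range N, res I p (b * t + o + (m + n)) * conj (res Z q (a * t + o + (m + n))) := by
      intro m
      rw [integral_finsetSum _ fun s _ => integrable_of_continuous (by fun_prop) _]
      exact sum_congr rfl fun n _ => (e0 t m n).symm
    simp_rw [this]
    conv_lhs => rw [show conj (A t) * A t =
      conj (A t) * bil M N (res I p) (res Z q) (b * t + o) (a * t + o) from rfl, bil]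
    ring
  have e3 : en S A ≤ (M * N : ℝ)⁻¹ * ((√M * √N) * (U * (√(en S A) * √(en Z q)))) := by
    have h1 : en S A = ‖((en S A : ℝ) : ℂ)‖ := by
      rw [Complex.norm_real, Real.norm_of_nonneg (en_nonneg _ _)]
    conv_lhs => rw [h1, e1]
    rw [norm_mul, norm_inv, norm_mul, Complex.norm_natCast, Complex.norm_natCast]
    refine mul_le_mul_of_nonneg_left ?_ (by positivity)
    refine (norm_integral_le_integral_norm _).trans ?_
    have := integral_cs_tor (continuous_dir M) (continuous_dir N)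
    rw [integral_dir_sq, integral_dir_sq] at this
    refine le_trans ?_ (mul_le_mul_of_nonneg_right this (by positivity))
    rw [← integral_mul_const]
    refine integral_mono (integrable_of_continuous (by fun_prop) _)
      (integrable_of_continuous (by fun_prop) _) fun θ => ?_
    simp only [norm_mul]
    exact mul_le_mul_of_nonneg_left (bH θ) (by positivity)
  change en S A ≤ _
  have h0 := en_nonneg S A
  have h0' := en_nonneg Z q
  set x := √(en S A) with hx
  set w := √(en Z q) with hw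
  set m := √(M : ℝ) with hm
  set n := √(N : ℝ) with hn
  have hx2 : en S A = x ^ 2 := (Real.sq_sqrt h0).symm
  have hw2 : en Z q = w ^ 2 := (Real.sq_sqrt h0').symm
  have hm2 : (M : ℝ) = m ^ 2 := (Real.sq_sqrt hM'.le).symm
  have hn2 : (N : ℝ) = n ^ 2 := (Real.sq_sqrt hN'.le).symm
  have hm0 : 0 < m := Real.sqrt_pos.2 hM'
  have hn0 : 0 < n := Real.sqrt_pos.2 hN'
  have hx0 : 0 ≤ x := Real.sqrt_nonneg _
  have hw0 : 0 ≤ w := Real.sqrt_nonneg _
  rw [hx2, hm2, hn2] at e3
  rw [hx2, hw2, hm2, hn2]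
  have e4 : x * x ≤ x * (U * w / (m * n)) := by
    calc x * x = x ^ 2 := by ring
      _ ≤ _ := e3
      _ = _ := by field_simp
  have e5 : x ≤ U * w / (m * n) := by
    rcases hx0.eq_or_lt with h | h
    · rw [← h]; positivity
    · exact le_of_mul_le_mul_left e4 h
  calc x ^ 2 ≤ (U * w / (m * n)) ^ 2 := pow_le_pow_left₀ hx0 e5 2
    _ = _ := by field_simp

end Pool.Agent.Shared.DoubleRec
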