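import Pool.Agent.Shared.DoubleRec.Char
import Pool.Agent.Shared.Ergodic.Birkhoff

/-!
Ergodic tools: maximal inequality, Birkhoff theorem for integrable functions on ergodic systems,
closure of almost everywhere convergence, twisted Birkhoff theorem.
-/

set_option autoImplicit false

open MeasureTheory Filter Topology Finset ComplexConjugate

namespace Pool.Agent.Shared.DoubleRec

open Pool.Agent.Shared.Ergodic

instance : IsProbabilityMeasure (volume : Measure Tor) := ⟨UnitAddCircle.measure_univ⟩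

variable {X : Type*} [MeasurableSpace X] {μ : Measure X} [IsProbabilityMeasure μ]

/-- maximal ergodic inequality -/
theorem maximal {T : X → X} (hT : MeasurePreserving T μ μ) {w : X → ℝ} (hw : Measurable w)
    (h0 : ∀ x, 0 ≤ w x) (hi : Integrable w μ) {l : ℝ} (hl : 0 < l) :
    μ {x | ∃ N : ℕ, l * N < ∑ n ∈ range N, w (T^[n] x)} ≤ ENNReal.ofReal ((∫ x, w x ∂μ) / l) := by
  set E : ℕ → Set X := fun M => {x | ∃ N ≤ M + 1, l * N < ∑ n ∈ range N, min (w (T^[n] x)) M}
  have hE : Monotone E := by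
    intro M M' h x ⟨N, h1, h2⟩
    refine ⟨N, by omega, h2.trans_le (sum_le_sum fun n _ => min_le_min le_rfl ?_)⟩
    exact_mod_cast h
  have hsub : {x | ∃ N : ℕ, l * N < ∑ n ∈ range N, w (T^[n] x)} ⊆ ⋃ M, E M := by
    rintro x ⟨N, hN⟩
    obtain ⟨M, hM⟩ := exists_nat_ge (∑ n ∈ range N, w (T^[n] x))
    refine Set.mem_iUnion.2 ⟨M + N, N, by omega, hN.trans_le (sum_le_sum fun n hn => ?_)⟩
    refine le_min le_rfl ?_
    have := single_le_sum (f := fun n => w (T^[n] x)) (fun n _ => h0 _) hn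
    push_cast
    linarith [Nat.cast_nonneg (α := ℝ) N]
  refine (measure_mono hsub).trans ?_
  rw [hE.measure_iUnion]
  refine iSup_le fun M => ?_
  set f : X → ℝ := fun x => min (w x) M - l
  have hf : Measurable f := (hw.min measurable_const).sub measurable_const
  have hb : ∀ x, |f x| ≤ M + l := fun x => by
    have h1 := min_le_right (w x) M
    have h2 : 0 ≤ min (w x) M := le_min (h0 x) (Nat.cast_nonneg _)
    rw [abs_le]; constructor <;> simp only [f] <;> linarith [Nat.cast_nonneg (α := ℝ) M]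
  have hg := garsia hT hf _ hb M
  set A := {x | 0 < runMax T f (M + 1) x}
  have hA : MeasurableSet A :=
    measurableSet_lt measurable_const (measurable_runMax hT.measurable hf _)
  have h1 : E M ⊆ A := by
    rintro x ⟨N, h1, h2⟩
    have hm : Monotone fun N => runMax T f N x :=
      monotone_nat_of_le_succ fun N => runMax_mono T f N x
    refine lt_of_lt_of_le ?_ ((sum_le_runMax T f N x).trans (hm h1))
    simp only [f, sum_sub_distrib, sum_const, card_range, nsmul_eq_mul]
    linarith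
  refine (measure_mono h1).trans ?_
  rw [← ofReal_measureReal, ENNReal.ofReal_le_ofReal_iff
    (div_nonneg (integral_nonneg h0) hl.le), le_div_iff₀ hl]
  have h2 : ∫ x, A.indicator f x ∂μ ≤ ∫ x, (w x - A.indicator (fun _ => l) x) ∂μ := by
    refine integral_mono ((integrable_of_bdd hf _ hb).indicator hA)
      (hi.sub ((integrable_const l).indicator hA)) fun x => ?_
    by_cases hx : x ∈ A
    · simp only [Set.indicator_of_mem hx, f]; linarith [min_le_left (w x) M]
    · simp only [Set.indicator_of_notMem hx]; linarith [h0 x]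
  rw [integral_sub hi ((integrable_const l).indicator hA), integral_indicator_const _ hA,
    smul_eq_mul] at h2
  linarith

omit [IsProbabilityMeasure μ] in
lemma integral_iterate {E : Type*} [NormedAddCommGroup E] [NormedSpace ℝ E] {T : X → X}
    (hT : MeasurePreserving T μ μ) {w : X → E} (hw : AEStronglyMeasurable w μ) (n : ℕ) :
    ∫ x, w (T^[n] x) ∂μ = ∫ x, w x ∂μ := by
  have h := hT.iterate n
  rw [← integral_map h.measurable.aemeasurable (h.map_eq.symm ▸ hw), h.map_eq]

lemma birkhoff_bdd {T : X → X} (hT : Ergodic T μ) {f : X → ℝ} (hf : Measurable f) (C : ℝ)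
    (hC : ∀ x, |f x| ≤ C) : ∀ᵐ x ∂μ, Tendsto (avg T f x) atTop (𝓝 (∫ x, f x ∂μ)) := by
  have hp := hT.toMeasurePreserving
  obtain ⟨c, hc⟩ := hT.toPreErgodic.ae_eq_const_of_ae_eq_comp (measurable_upper hp.measurable hf)
    (funext fun x => upper_shift T C hC x)
  have h1 : ∀ᵐ x ∂μ, Tendsto (avg T f x) atTop (𝓝 c) := by
    filter_upwards [birkhoff_real hp hf C hC, hc] with x ⟨L, hL⟩ hx
    have : upper T f x = L := hL.limsup_eq
    rw [this] at hx
    exact (show L = c from hx) ▸ hL
  have h2 := tendsto_integral_of_dominated_convergence (μ := μ) (F := fun N x => avg T f x N)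
    (f := fun _ => c) (fun _ => C)
    (fun N => (measurable_avg hp.measurable hf N).aestronglyMeasurable) (integrable_const C)
    (fun N => Eventually.of_forall fun x => abs_avg_le T C hC x N) h1
  have h3 : ∀ᶠ N : ℕ in atTop, ∫ x, avg T f x N ∂μ = ∫ x, f x ∂μ := by
    filter_upwards [eventually_gt_atTop 0] with N hN
    have hN' : (N : ℝ) ≠ 0 := by exact_mod_cast hN.ne'
    simp only [avg]
    rw [integral_const_mul, integral_finsetSum (f := fun n x => f (T^[n] x)) _ fun n _ =>
      integrable_of_bdd (hf.comp (hp.measurable.iterate n)) C fun x => hC _]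
    simp only [integral_iterate hp hf.aestronglyMeasurable, sum_const, card_range, nsmul_eq_mul]
    field_simp
  have h4 : c = ∫ x, f x ∂μ := by
    have := tendsto_nhds_unique (h2.congr' h3) tendsto_const_nhds
    simpa using this
  exact h4 ▸ h1

omit [IsProbabilityMeasure μ] in
lemma tendsto_tail {w : X → ℝ} (hw : Measurable w) (h0 : ∀ x, 0 ≤ w x) (hi : Integrable w μ) :
    Tendsto (fun M : ℕ => ∫ x, (w x - min (w x) M) ∂μ) atTop (𝓝 0) := by
  have := tendsto_integral_of_dominated_convergence (μ := μ)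
    (F := fun (M : ℕ) x => w x - min (w x) M) (f := fun _ => 0) w
    (fun M => (hw.sub (hw.min measurable_const)).aestronglyMeasurable) hi
    (fun M => Eventually.of_forall fun x => by
      have h1 := min_le_left (w x) M
      have h2 : 0 ≤ min (w x) M := le_min (h0 x) (Nat.cast_nonneg _)
      rw [Real.norm_eq_abs, abs_le]; constructor <;> linarith)
    (Eventually.of_forall fun x => by
      obtain ⟨M, hM⟩ := exists_nat_ge (w x)
      refine tendsto_const_nhds.congr' ?_
      filter_upwards [eventually_ge_atTop M] with N hN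
      rw [min_eq_left (hM.trans (by exact_mod_cast hN)), sub_self])
  simpa using this

/-- upper bound for the ergodic sums of a nonnegative integrable function -/
theorem sum_le_of_ergodic {T : X → X} (hT : Ergodic T μ) {w : X → ℝ} (hw : Measurable w)
    (h0 : ∀ x, 0 ≤ w x) (hi : Integrable w μ) :
    ∀ᵐ x ∂μ, ∀ c, ∫ x, w x ∂μ < c → ∀ᶠ N : ℕ in atTop, ∑ n ∈ range N, w (T^[n] x) ≤ c * N := by
  have hp := hT.toMeasurePreserving
  have key : ∀ ε > 0, ∀ᵐ x ∂μ, ∀ᶠ N : ℕ in atTop,
      ∑ n ∈ range N, w (T^[n] x) ≤ (∫ x, w x ∂μ + 2 * ε) * N := by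
    intro ε hε
    have hb : ∀ (M : ℕ) x, |min (w x) M| ≤ M := fun M x => by
      rw [abs_of_nonneg (le_min (h0 x) (Nat.cast_nonneg _))]; exact min_le_right _ _
    have h1 : ∀ᵐ x ∂μ, ∀ M : ℕ, Tendsto (avg T (fun x => min (w x) M) x) atTop
        (𝓝 (∫ x, min (w x) M ∂μ)) :=
      ae_all_iff.2 fun M => birkhoff_bdd hT (hw.min measurable_const) M (hb M)
    have h2 : ∀ᵐ x ∂μ, ∃ M : ℕ, ∀ N : ℕ,
        ∑ n ∈ range N, (w (T^[n] x) - min (w (T^[n] x)) M) ≤ ε * N := by
      rw [ae_iff]
      refine le_antisymm ?_ bot_le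
      have h3 := ENNReal.tendsto_ofReal ((tendsto_tail hw h0 hi).div_const ε)
      rw [zero_div, ENNReal.ofReal_zero] at h3
      refine ge_of_tendsto' h3 fun M => le_trans (measure_mono fun x hx => ?_)
        (maximal hp (w := fun x => w x - min (w x) M) (hw.sub (hw.min measurable_const))
          (fun x => sub_nonneg.2 (min_le_left _ _))
          (hi.sub (integrable_of_bdd (hw.min measurable_const) M (hb M))) hε)
      simp only [Set.mem_ofPred_eq, not_exists, not_forall, not_le] at hx ⊢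
      exact hx M
    filter_upwards [h1, h2] with x h1 ⟨M, h2⟩
    have h3 : ∫ x, min (w x) M ∂μ < ∫ x, w x ∂μ + ε :=
      lt_of_le_of_lt (integral_mono (integrable_of_bdd (hw.min measurable_const) M (hb M)) hi
        fun x => min_le_left _ _) (by linarith)
    filter_upwards [(h1 M).eventually (gt_mem_nhds h3), eventually_gt_atTop 0] with N h4 hN
    have hN' : (0 : ℝ) < N := by exact_mod_cast hN
    have h5 := h2 N
    rw [avg, inv_mul_lt_iff₀ hN'] at h4
    rw [sum_sub_distrib] at h5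
    linarith
  have := ae_all_iff.2 fun k : ℕ => key (1 / ((k : ℝ) + 1)) Nat.one_div_pos_of_nat
  filter_upwards [this] with x hx c hc
  obtain ⟨k, hk⟩ := exists_nat_one_div_lt (half_pos (sub_pos.2 hc))
  filter_upwards [hx k] with N hN
  exact hN.trans (mul_le_mul_of_nonneg_right (by linarith) (Nat.cast_nonneg _))

lemma sum_mul_le {z : ℕ → ℝ} (h0 : ∀ n, 0 ≤ z n) {a : ℕ} (ha : 0 < a) (N : ℕ) :
    ∑ n ∈ range N, z (a * n) ≤ ∑ n ∈ range (a * N), z n := by
  classical
  rw [← sum_image (g := fun n => a * n) (f := z) fun x _ y _ e => Nat.eq_of_mul_eq_mul_left ha e]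
  refine sum_le_sum_of_subset_of_nonneg ?_ fun _ _ _ => h0 _
  intro y hy
  obtain ⟨n, hn, rfl⟩ := mem_image.1 hy
  exact mem_range.2 (Nat.mul_lt_mul_of_pos_left (mem_range.1 hn) ha)

lemma tendsto_mul_atTop {a : ℕ} (ha : 0 < a) : Tendsto (fun N : ℕ => a * N) atTop atTop :=
  tendsto_id.const_mul_atTop' ha

/-- the same along an arithmetic progression -/
theorem sum_mul_le_of_ergodic {T : X → X} (hT : Ergodic T μ) {w : X → ℝ} (hw : Measurable w)
    (h0 : ∀ x, 0 ≤ w x) (hi : Integrable w μ) {a : ℕ} (ha : 0 < a) :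
    ∀ᵐ x ∂μ, ∀ c, a * ∫ x, w x ∂μ < c →
      ∀ᶠ N : ℕ in atTop, ∑ n ∈ range N, w (T^[a * n] x) ≤ c * N := by
  filter_upwards [sum_le_of_ergodic hT hw h0 hi] with x hx c hc
  have ha' : (0 : ℝ) < a := by exact_mod_cast ha
  have := (tendsto_mul_atTop ha).eventually (hx (c / a) (by rwa [lt_div_iff₀' ha']))
  filter_upwards [this] with N hN
  refine (sum_mul_le (z := fun n => w (T^[n] x)) (fun n => h0 _) ha N).trans (hN.trans ?_)
  push_cast
  refine le_of_eq ?_
  field_simp

/-- Cesaro averages -/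
noncomputable def ces (z : ℕ → ℂ) (N : ℕ) : ℂ := (N : ℂ)⁻¹ * ∑ n ∈ range N, z n

lemma norm_ces_sub_le {z z' : ℕ → ℂ} {w : ℕ → ℝ} (h : ∀ n, ‖z n - z' n‖ ≤ w n) {c : ℝ}
    (hc : 0 ≤ c) {N : ℕ} (hN : ∑ n ∈ range N, w n ≤ c * N) : ‖ces z N - ces z' N‖ ≤ c := by
  rcases Nat.eq_zero_or_pos N with rfl | h0
  · simpa [ces] using hc
  have hN' : (0 : ℝ) < N := by exact_mod_cast h0
  rw [ces, ces, ← mul_sub, ← sum_sub_distrib, norm_mul, norm_inv, Complex.norm_natCast,
    inv_mul_le_iff₀ hN', mul_comm]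
  exact (norm_sum_le _ _).trans ((sum_le_sum fun n _ => h n).trans hN)

lemma exists_tendsto_of_approx {u : ℕ → ℂ}
    (h : ∀ ε > 0, ∃ v : ℕ → ℂ, (∃ L, Tendsto v atTop (𝓝 L)) ∧ ∀ᶠ N in atTop, ‖u N - v N‖ ≤ ε) :
    ∃ L, Tendsto u atTop (𝓝 L) := by
  refine cauchySeq_tendsto_of_complete (Metric.cauchySeq_iff'.2 fun ε hε => ?_)
  obtain ⟨v, ⟨L, hL⟩, hv⟩ := h (ε / 5) (by positivity)
  have h1 := Metric.tendsto_nhds.1 hL (ε / 5) (by positivity)
  obtain ⟨N, hN⟩ := eventually_atTop.1 (hv.and h1)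
  refine ⟨N, fun n hn => ?_⟩
  have a1 := hN n hn
  have a2 := hN N le_rfl
  rw [← dist_eq_norm] at a1 a2
  linarith [dist_triangle4 (u n) (v n) L (v N), dist_triangle (u n) (v N) (u N),
    dist_comm (v N) L, dist_comm (v N) (u N)]

/-- almost everywhere convergence of the Cesaro averages -/
def Cv (μ : Measure X) (F : ℕ → X → ℂ) : Prop :=
  ∀ᵐ x ∂μ, ∃ L, Tendsto (ces fun n => F n x) atTop (𝓝 L)

/-- closure of almost everywhere convergence -/
theorem cv_of_approx {T : X → X} (hT : Ergodic T μ) {a : ℕ} (ha : 0 < a) {F : ℕ → X → ℂ}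
    (h : ∀ ε > 0, ∃ (G : ℕ → X → ℂ) (w : X → ℝ), Cv μ G ∧ Measurable w ∧ (∀ x, 0 ≤ w x) ∧
      Integrable w μ ∧ ∫ x, w x ∂μ ≤ ε ∧ ∀ᵐ x ∂μ, ∀ n, ‖F n x - G n x‖ ≤ w (T^[a * n] x)) :
    Cv μ F := by
  have ha' : (0 : ℝ) < a := by exact_mod_cast ha
  have key : ∀ ε > 0, ∀ᵐ x ∂μ, ∃ v : ℕ → ℂ, (∃ L, Tendsto v atTop (𝓝 L)) ∧
      ∀ᶠ N in atTop, ‖ces (fun n => F n x) N - v N‖ ≤ ε := by
    intro ε hε
    obtain ⟨G, w, h1, h2, h3, h4, h5, h6⟩ := h (ε / (2 * a)) (by positivity)
    filter_upwards [h1, h6, sum_mul_le_of_ergodic hT h2 h3 h4 ha] with x h1 h6 h7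
    refine ⟨_, h1, ?_⟩
    have : a * ∫ x, w x ∂μ < ε := by
      have := mul_le_mul_of_nonneg_left h5 ha'.le
      have e : a * (ε / (2 * a)) = ε / 2 := by field_simp
      linarith
    filter_upwards [h7 ε this] with N hN
    exact norm_ces_sub_le h6 hε.le hN
  have := ae_all_iff.2 fun k : ℕ => key (1 / ((k : ℝ) + 1)) Nat.one_div_pos_of_nat
  filter_upwards [this] with x hx
  refine exists_tendsto_of_approx fun ε hε => ?_
  obtain ⟨k, hk⟩ := exists_nat_one_div_lt hε
  obtain ⟨v, h1, h2⟩ := hx k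
  exact ⟨v, h1, h2.mono fun N hN => hN.trans hk.le⟩

omit [IsProbabilityMeasure μ] in
lemma Cv.add {F G : ℕ → X → ℂ} (hF : Cv μ F) (hG : Cv μ G) :
    Cv μ fun n x => F n x + G n x := by
  filter_upwards [hF, hG] with x ⟨a, ha⟩ ⟨b, hb⟩
  refine ⟨a + b, (ha.add hb).congr fun N => ?_⟩
  rw [ces, ces, ces, sum_add_distrib, mul_add]

omit [IsProbabilityMeasure μ] in
lemma Cv.mul_left {F : ℕ → X → ℂ} (hF : Cv μ F) (c : X → ℂ) :
    Cv μ fun n x => c x * F n x := by
  filter_upwards [hF] with x ⟨a, ha⟩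
  refine ⟨c x * a, (ha.const_mul (c x)).congr fun N => ?_⟩
  rw [ces, ces, ← mul_sum]; ring

omit [IsProbabilityMeasure μ] in
lemma Cv.congr {F G : ℕ → X → ℂ} (hF : Cv μ F) (h : ∀ᵐ x ∂μ, ∀ n, F n x = G n x) : Cv μ G := by
  filter_upwards [hF, h] with x hx h'
  rwa [← funext h']

omit [IsProbabilityMeasure μ] in
lemma Cv.sum {ι : Type*} (s : Finset ι) {F : ι → ℕ → X → ℂ} (hF : ∀ i ∈ s, Cv μ (F i)) :
    Cv μ fun n x => ∑ i ∈ s, F i n x := by
  classical
  induction s using Finset.induction_on with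
  | empty => exact Eventually.of_forall fun _ => ⟨0, by
      simp only [sum_empty]
      exact tendsto_const_nhds.congr fun N => by simp [ces]⟩
  | insert i s hi ih =>
    simp only [sum_insert hi]
    exact (hF i (mem_insert_self _ _)).add (ih fun j hj => hF j (mem_insert_of_mem hj))

/-- bounded truncation -/
noncomputable def trunc (M : ℕ) (z : ℂ) : ℂ := if ‖z‖ ≤ M then z else 0

lemma measurable_trunc (M : ℕ) : Measurable (trunc M) :=
  Measurable.ite (measurableSet_le measurable_norm measurable_const) measurable_id measurable_const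

lemma norm_trunc_le (M : ℕ) (z : ℂ) : ‖trunc M z‖ ≤ M := by
  unfold trunc; split_ifs with h
  · exact h
  · simp

omit [IsProbabilityMeasure μ] in
lemma tendsto_trunc {w : X → ℂ} (hw : Measurable w) (hi : Integrable w μ) :
    Tendsto (fun M : ℕ => ∫ x, ‖w x - trunc M (w x)‖ ∂μ) atTop (𝓝 0) := by
  have := tendsto_integral_of_dominated_convergence (μ := μ)
    (F := fun (M : ℕ) x => ‖w x - trunc M (w x)‖) (f := fun _ => 0) (fun x => ‖w x‖)
    (fun M => (hw.sub ((measurable_trunc M).comp hw)).norm.aestronglyMeasurable) hi.norm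
    (fun M => Eventually.of_forall fun x => by
      rw [norm_norm, trunc]; split_ifs <;> simp)
    (Eventually.of_forall fun x => by
      obtain ⟨M, hM⟩ := exists_nat_ge ‖w x‖
      refine tendsto_const_nhds.congr' ?_
      filter_upwards [eventually_ge_atTop M] with N hN
      rw [trunc, if_pos (hM.trans (by exact_mod_cast hN)), sub_self, norm_zero])
  simpa using this

lemma integrable_of_norm_le {E : Type*} [NormedAddCommGroup E] {f : X → E}
    (hf : AEStronglyMeasurable f μ) (C : ℝ) (hC : ∀ x, ‖f x‖ ≤ C) : Integrable f μ :=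
  Integrable.of_bound hf C (Eventually.of_forall hC)

lemma birkhoff_bdd_complex {T : X → X} (hT : Ergodic T μ) {f : X → ℂ} (hf : Measurable f) (C : ℝ)
    (hC : ∀ x, ‖f x‖ ≤ C) :
    ∀ᵐ x ∂μ, Tendsto (ces fun n => f (T^[n] x)) atTop (𝓝 (∫ x, f x ∂μ)) := by
  have h1 := birkhoff_bdd hT (f := fun x => (f x).re) (Complex.measurable_re.comp hf) C
    fun x => le_trans (Complex.abs_re_le_norm _) (hC x)
  have h2 := birkhoff_bdd hT (f := fun x => (f x).im) (Complex.measurable_im.comp hf) C
    fun x => le_trans (Complex.abs_im_le_norm _) (hC x)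
  have hi := integrable_of_norm_le (μ := μ) hf.aestronglyMeasurable C hC
  filter_upwards [h1, h2] with x h1 h2
  have := ((Complex.continuous_ofReal.tendsto _).comp h1).add
    (((Complex.continuous_ofReal.tendsto _).comp h2).mul_const Complex.I)
  have e : ((∫ x, (f x).re ∂μ : ℝ) : ℂ) + ((∫ x, (f x).im ∂μ : ℝ) : ℂ) * Complex.I =
      ∫ x, f x ∂μ := by
    have a1 := integral_re hi
    have a2 := integral_im hi
    simp only [RCLike.re_to_complex, RCLike.im_to_complex] at a1 a2
    rw [a1, a2, Complex.re_add_im]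
  rw [e] at this
  refine this.congr fun N => ?_
  simp only [Function.comp, avg, ces]
  push_cast
  rw [mul_assoc, ← mul_add, sum_mul, ← sum_add_distrib]
  simp only [Complex.re_add_im]

/-- Birkhoff theorem for integrable functions on an ergodic system -/
theorem birkhoff_ergodic {T : X → X} (hT : Ergodic T μ) {f : X → ℂ} (hf : Measurable f)
    (hi : Integrable f μ) :
    ∀ᵐ x ∂μ, Tendsto (ces fun n => f (T^[n] x)) atTop (𝓝 (∫ x, f x ∂μ)) := by
  have hm : ∀ M, Measurable fun x => trunc M (f x) := fun M => (measurable_trunc M).comp hf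
  have hit : ∀ M, Integrable (fun x => trunc M (f x)) μ := fun M =>
    integrable_of_norm_le (hm M).aestronglyMeasurable M fun x => norm_trunc_le M _
  have h1 := ae_all_iff.2 fun M : ℕ => birkhoff_bdd_complex hT (hm M) M fun x => norm_trunc_le M _
  have h2 := ae_all_iff.2 fun M : ℕ => sum_le_of_ergodic hT (hf.sub (hm M)).norm
    (fun x => norm_nonneg _) (hi.sub (hit M)).norm
  filter_upwards [h1, h2] with x h1 h2
  rw [Metric.tendsto_nhds]
  intro ε hε
  obtain ⟨M, hM⟩ := ((tendsto_trunc hf hi).eventually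
    (gt_mem_nhds (show (0 : ℝ) < ε / 3 by positivity))).exists
  filter_upwards [h2 M _ hM, Metric.tendsto_nhds.1 (h1 M) (ε / 3) (by positivity)] with N a1 a2
  have a3 := norm_ces_sub_le (z := fun n => f (T^[n] x)) (z' := fun n => trunc M (f (T^[n] x)))
    (fun n => le_rfl) (by positivity) a1
  have a4 : ‖∫ x, trunc M (f x) ∂μ - ∫ x, f x ∂μ‖ < ε / 3 := by
    rw [norm_sub_rev, ← integral_sub hi (hit M)]
    exact (norm_integral_le_integral_norm _).trans_lt hM
  rw [← dist_eq_norm] at a3 a4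
  linarith [dist_triangle4 (ces (fun n => f (T^[n] x)) N) (ces (fun n => trunc M (f (T^[n] x))) N)
    (∫ x, trunc M (f x) ∂μ) (∫ x, f x ∂μ)]

/-- twisted Birkhoff theorem -/
theorem birkhoff_twisted {S : X → X} (hS : MeasurePreserving S μ μ) {v : X → ℂ}
    (hv : Measurable v) (C : ℝ) (hC : ∀ x, ‖v x‖ ≤ C) (θ : Tor) :
    Cv μ fun n x => ch θ n * v (S^[n] x) := by
  have hR := hS.prod (measurePreserving_add_right (volume : Measure Tor) θ)
  have h := birkhoff_complex hR (f := fun p => ch p.2 1 * v p.1)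
    (((continuous_ch 1).measurable.comp measurable_snd).mul (hv.comp measurable_fst)) C
    fun p => by simpa using hC p.1
  filter_upwards [Measure.ae_ae_of_ae_prod h] with x hx
  obtain ⟨z, L, hL⟩ := hx.exists
  refine ⟨conj (ch z 1) * L, (hL.const_mul _).congr fun N => ?_⟩
  have : ∀ n : ℕ, ch ((fun x => x + θ)^[n] z) 1 = ch z 1 * ch θ n := by
    intro n
    rw [add_right_iterate, ch_add_left, ← natCast_zsmul, ch_smul, mul_one]
  simp only [Prod.map_iterate, Prod.map_fst, Prod.map_snd, this, ces, mul_assoc]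
  rw [← mul_sum, mul_left_comm, ← mul_assoc (conj _), mul_comm (conj _), ch_mul_conj, one_mul]

end Pool.Agent.Shared.DoubleRec
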