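import Pool.Agent.Shared.DoubleRec.Level

/-!
The finite maximal estimate: if the first sequence is uniform on all nodes, the bilinear averages
are small at all scales outside a small set of positions.
-/

set_option autoImplicit false

open Finset ComplexConjugate Filter Topology

namespace Pool.Agent.Shared.DoubleRec

namespace Par

variable {P : Par}

lemma Lev.weaken {S : ℕ → ℕ → ℂ} {lab : ℕ → ℕ → ℕ} {z z' ε ε' : ℝ} {Λ Λ' : ℕ}
    (h : P.Lev S lab z Λ ε) (hz : z ≤ z') (hΛ : Λ ≤ Λ') (hε : ε ≤ ε') :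
    P.Lev S lab z' Λ' ε' where
  mono := h.mono
  close t ht d' d h1 h2 e := (h.close t ht d' d h1 h2 e).trans hz
  few := (cnt_mono fun _ _ ht => lt_of_le_of_lt hΛ ht).trans
    (h.few.trans (mul_le_mul_of_nonneg_right hε (P.len_pos' 0).le))

/-- first constant -/
def c1 (C H : ℕ) : ℕ := 26 * (104 * C * (2 * H + 45))

/-- second constant -/
def c2 (C H : ℕ) : ℕ := 2 + 896 * C ^ 2 * H ^ 2 * c1 C H * 2 ^ 17

lemma eta_le {s : ℕ} (hs : 1 ≤ s) : ((2 : ℝ) ^ s)⁻¹ ^ 10 ≤ ((2 : ℝ) ^ s)⁻¹ / 4 := by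
  have h1 : ((2 : ℝ) ^ s)⁻¹ ≤ 1 / 2 := by
    rw [one_div]; gcongr; exact le_self_pow₀ (by norm_num) (by omega)
  have h0 : (0 : ℝ) < ((2 : ℝ) ^ s)⁻¹ := by positivity
  set x := ((2 : ℝ) ^ s)⁻¹
  have : x ^ 9 ≤ (1 / 2) ^ 9 := pow_le_pow_left₀ h0.le h1 9
  rw [pow_succ]
  nlinarith

variable (P)

lemma lev_dyadic {s : ℕ} (hs : 1 ≤ s) : ∃ lab, P.Lev (P.S (((2 : ℝ) ^ s)⁻¹ ^ 10)) lab
    (130 * ((2 : ℝ) ^ s)⁻¹) (c1 P.C P.H * (2 ^ s) ^ 16) ((2 : ℝ) ^ s)⁻¹ := by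
  have hC := P.one_le_C
  have hη := eta_le hs
  have hX1 : (1 : ℝ) ≤ 2 ^ s := one_le_pow₀ (by norm_num)
  have hXs : (s : ℝ) ≤ 2 ^ s := by exact_mod_cast Nat.lt_two_pow_self.le
  have hH : (P.H : ℝ) ≤ 2 ^ P.H := by exact_mod_cast Nat.lt_two_pow_self.le
  have hL : (2 : ℝ) ^ (21 * s + P.H) = (2 ^ s) ^ 21 * 2 ^ P.H := by
    rw [pow_add, mul_comm 21, pow_mul]
  have hlog : Real.log (32 * (2 ^ s) ^ 21) ≤ 26 * 2 ^ s := by
    rw [show (32 : ℝ) * (2 ^ s) ^ 21 = 2 ^ (21 * s + 5) by rw [pow_add, mul_comm 21, pow_mul]; ring,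
      Real.log_pow]
    have := Real.log_two_lt_d9
    push_cast
    nlinarith [Real.log_two_gt_d9]
  have hXn : ((2 ^ s : ℕ) : ℝ) = 2 ^ s := by push_cast; rfl
  have hXn1 : 1 ≤ 2 ^ s := Nat.one_le_two_pow
  generalize (2 ^ s : ℕ) = Xn at hXn hXn1
  generalize (2 : ℝ) ^ s = X at *
  have hx1 : X⁻¹ ≤ 1 := inv_le_one_of_one_le₀ hX1
  have hx0 : 0 < X⁻¹ := by positivity
  have h := P.lev (η := X⁻¹ ^ 10) (x := X⁻¹) (m0 := X⁻¹ * X⁻¹ ^ 10 / 16) (y := X⁻¹ / (2 * P.C))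
    (L := 21 * s + P.H) (V := 104 * P.C * (2 * P.H + 45) * Xn ^ 13) (g := 12 * Xn ^ 3)
    (by positivity) (by linarith) hx0 hx1
    (by nlinarith [pow_pos hx0 10]) (by positivity)
    (by
      have : 1 ≤ (X⁻¹ ^ 10)⁻¹ := one_le_inv₀ (by positivity) |>.2 (by linarith)
      nlinarith [pow_pos hx0 10])
    (by positivity) (by field_simp; linarith) (by positivity)
    (by
      rw [show 2 * (X⁻¹ ^ 10)⁻¹ / (X⁻¹ * X⁻¹ ^ 10 / 16) = 32 * X ^ 21 by field_simp; norm_num]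
      push_cast
      rw [hXn]
      have h0 : 0 ≤ Real.log (32 * X ^ 21) :=
        Real.log_nonneg (by nlinarith [one_le_pow₀ (n := 21) hX1])
      have h1 : (2 * (21 * s + P.H) + 3 : ℝ) ≤ (2 * P.H + 45) * X := by
        nlinarith [Nat.cast_nonneg (α := ℝ) P.H]
      calc _ ≤ ((2 * P.H + 45) * X) * (2 * (X⁻¹ ^ 10)⁻¹ * (26 * X)) := by gcongr
        _ = _ := by field_simp; ring)
  refine ⟨_, h.weaken ?_ ?_ ?_⟩
  · have e1 : P.C * (2 * (X⁻¹ / (2 * P.C))) = X⁻¹ := by field_simp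
    have e2 : 16 * (X⁻¹ ^ 10)⁻¹ * (X⁻¹ * X⁻¹ ^ 10 / 16) = X⁻¹ := by field_simp
    have e3 : (X⁻¹ ^ 10)⁻¹ ^ 2 * (P.H / 2 ^ (21 * s + P.H)) ≤ X⁻¹ := by
      rw [hL]
      calc _ = X⁻¹ * (P.H / 2 ^ P.H) := by field_simp
        _ ≤ X⁻¹ * 1 := by gcongr; exact (div_le_one (by positivity)).2 hH
        _ = _ := mul_one _
    rw [e1, e2]; linarith
  · have hC' : 1 ≤ P.C := by exact_mod_cast hC
    have h3 : 1 ≤ Xn ^ 3 := Nat.one_le_pow _ _ hXn1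
    have hV : 1 ≤ 104 * P.C * (2 * P.H + 45) * Xn ^ 13 := Nat.succ_le_of_lt (by positivity)
    have e : c1 P.C P.H * Xn ^ 16 =
        26 * Xn ^ 3 * (104 * P.C * (2 * P.H + 45) * Xn ^ 13) := by unfold c1; ring
    rw [e]
    generalize 104 * P.C * (2 * P.H + 45) * Xn ^ 13 = V at *
    generalize Xn ^ 3 = Y at *
    nlinarith
  · push_cast; rw [hXn]; refine le_of_eq ?_; field_simp

lemma S_node (η : ℝ) (d i : ℕ) {r : ℕ} (hr : r ∈ range (P.len d)) :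
    P.S η d (i * P.len d + r) = P.av (ev (P.nm η P.b P.F d i)) (ev (P.nm η P.a P.G d i)) d
      (i * P.len d + r) := by
  rw [S, P.idx_node d i (mem_range.1 hr)]

lemma ft_sub (I : Finset ℤ) (p q : ℤ → ℂ) (θ : Tor) :
    ft I (fun y => p y - q y) θ = ft I p θ - ft I q θ := by
  simp only [ft, sub_mul, sum_sub_distrib]

lemma nm_diff {η η' : ℝ} (hη' : 0 < η') (h : η' ≤ η) {c : ℕ} (hc : c ≤ P.C) (f : ℤ → ℂ)
    (d i : ℕ) (θ : Tor) :
    ‖ft (P.iv c d i) (fun y => ev (P.nm η' c f d i) y - ev (P.nm η c f d i) y) θ‖ ≤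
      4 * P.C * η * P.len d := by
  have h1 := P.nm_unif hη' hc f d i θ
  have h2 := P.nm_unif (hη'.trans_le h) hc f d i θ
  have h3 := ft_sub (P.iv c d i) (fun y => f y - ev (P.nm η c f d i) y)
    (fun y => f y - ev (P.nm η' c f d i) y) θ
  simp only [sub_sub_sub_cancel_left] at h3
  rw [h3]
  have hl := P.len_pos' d
  have hC := P.one_le_C
  have : 2 * P.C * η' * P.len d ≤ 2 * P.C * η * P.len d := by gcongr
  linarith [norm_sub_le (ft (P.iv c d i) (fun y => f y - ev (P.nm η c f d i) y) θ)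
    (ft (P.iv c d i) (fun y => f y - ev (P.nm η' c f d i) y) θ)]

lemma cnt_step {s : ℕ} (hs : 1 ≤ s) :
    P.cnt (fun t => ∃ d ≤ P.D, 196 * ((2 : ℝ) ^ s)⁻¹ <
      ‖P.S (((2 : ℝ) ^ (s + 1))⁻¹ ^ 10) d t - P.S (((2 : ℝ) ^ s)⁻¹ ^ 10) d t‖) ≤
      c2 P.C P.H * ((2 : ℝ) ^ s)⁻¹ * P.len 0 := by
  obtain ⟨l1, h1⟩ := P.lev_dyadic hs
  obtain ⟨l2, h2⟩ := P.lev_dyadic (s := s + 1) (by omega)
  have hη := eta_le hs
  have hX1 : (1 : ℝ) ≤ 2 ^ s := one_le_pow₀ (by norm_num)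
  have hx1 : ((2 : ℝ) ^ s)⁻¹ ≤ 1 := inv_le_one_of_one_le₀ hX1
  have hle : ((2 : ℝ) ^ (s + 1))⁻¹ ^ 10 ≤ ((2 : ℝ) ^ s)⁻¹ ^ 10 := by
    gcongr
    · norm_num
    · omega
  have h := (h1.sub h2).count (x := ((2 : ℝ) ^ s)⁻¹)
    (γ := 56 * ((4 * P.C * ((2 : ℝ) ^ s)⁻¹ ^ 10) ^ 2 * P.H ^ 2)) (by positivity) (by positivity)
    (fun d hd i hi => by
      have hl := P.len_pos' d
      rw [sum_congr rfl fun r hr => by rw [P.S_node _ d i hr, P.S_node _ d i hr]]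
      exact P.node_diff d i (P.nm_diff (by positivity) hle P.b_le_C _ d i)
        (P.nm_diff (by positivity) hle P.a_le_C _ d i)
        ((P.nm_en (by positivity) (by linarith) hi.1).trans (by linarith))
        ((P.nm_en (by positivity) (by linarith) hi.2).trans (by linarith)))
  refine le_trans (cnt_mono fun t _ ⟨d, hd, ht⟩ => ⟨d, hd, lt_of_le_of_lt (le_of_eq ?_) ht⟩)
    (h.trans (mul_le_mul_of_nonneg_right ?_ (P.len_pos' 0).le))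
  swap
  · rw [pow_succ]; field_simp; norm_num
  · have hc : (1 : ℝ) ≤ c1 P.C P.H := by
      have hC' : 1 ≤ P.C := by exact_mod_cast P.one_le_C
      exact_mod_cast Nat.succ_le_of_lt (by unfold c1; positivity)
    simp only [c2, pow_succ (2 : ℝ) s, pow_succ (2 : ℕ) s]
    push_cast
    generalize (2 : ℝ) ^ s = X at *
    generalize (c1 P.C P.H : ℝ) = c at *
    have a1 : 1 ≤ c * X ^ 16 := one_le_mul_of_one_le_of_one_le hc (one_le_pow₀ hX1)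
    have a2 : c * X ^ 16 + c * (X * 2) ^ 16 + 1 ≤ 2 ^ 17 * (c * X ^ 16) := by
      rw [mul_pow]; nlinarith
    have a3 : 56 * ((4 * P.C * X⁻¹ ^ 10) ^ 2 * P.H ^ 2) * (c * X ^ 16 + c * (X * 2) ^ 16 + 1) /
        X⁻¹ ^ 2 ≤ 896 * P.C ^ 2 * P.H ^ 2 * c * 2 ^ 17 * X⁻¹ := by
      calc _ ≤ 56 * ((4 * P.C * X⁻¹ ^ 10) ^ 2 * P.H ^ 2) * (2 ^ 17 * (c * X ^ 16)) / X⁻¹ ^ 2 := by
            gcongr
        _ = 896 * P.C ^ 2 * P.H ^ 2 * c * 2 ^ 17 * X⁻¹ * X⁻¹ := by field_simp; ring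
        _ ≤ _ := mul_le_of_le_one_right (by positivity) hx1
    have a4 : (X * 2)⁻¹ ≤ X⁻¹ := by gcongr; linarith
    linarith

lemma cnt_last {η x : ℝ} (hη : 0 < η) (hη1 : η ≤ 1 / 4) (hx : 0 < x) :
    P.cnt (fun t => ∃ d ≤ P.D, x < ‖P.av P.F P.G d t - P.S η d t‖) ≤
      56 * ((2 * P.C * η) ^ 2 * P.H ^ 2) * (P.D + 1) / x ^ 2 * P.len 0 := by
  have h := (lev_trivial (P := P) fun d t => P.av P.F P.G d t - P.S η d t).count hx
    (γ := 56 * ((2 * P.C * η) ^ 2 * P.H ^ 2)) (by positivity)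
    (fun d hd i hi => by
      have hl := P.len_pos' d
      rw [sum_congr rfl fun r hr => by rw [P.S_node _ d i hr]]
      exact P.node_diff d i (P.nm_unif hη P.b_le_C _ d i) (P.nm_unif hη P.a_le_C _ d i)
        ((P.nm_en hη hη1 hi.1).trans (by linarith)) (hi.2.trans (by linarith)))
  simpa using h

/-- the first sequence is uniform on all nodes above `t` -/
def unif (η : ℝ) (t : ℕ) : Prop :=
  ∀ d ≤ P.D, ∀ θ, ‖ft (P.iv P.b d (P.idx d t)) P.F θ‖ ≤ η * P.len d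

lemma S_first {η : ℝ} (hη : 0 < η) (hη1 : η ≤ 1 / 4) {t : ℕ} (ht : P.good t) (hu : P.unif η t)
    {d : ℕ} (hd : d ≤ P.D) : ‖P.S η d t‖ ≤ 6 * η := by
  have h1 := (P.nm_near hη P.b P.F d (P.idx d t)).en_le_of_uniform (hu d hd)
  have h2 := P.nm_en hη hη1 (ht d hd).2
  have := (P.win d t).norm_le hη.le (β := 3 / 2) (by norm_num) h1 (h2.trans (by norm_num))
  unfold S av
  linarith

end Par

lemma sum_geom_le (s n : ℕ) : ∑ i ∈ range n, ((2 : ℝ) ^ (s + i))⁻¹ ≤ 2 * ((2 : ℝ) ^ s)⁻¹ := by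
  have : ∑ i ∈ range n, ((2 : ℝ) ^ (s + i))⁻¹ = 2 * ((2 : ℝ) ^ s)⁻¹ - 2 * ((2 : ℝ) ^ (s + n))⁻¹ := by
    induction n with
    | zero => simp
    | succ n ih => rw [sum_range_succ, ih, ← add_assoc, pow_succ]; field_simp; ring
  rw [this]
  have : (0 : ℝ) < ((2 : ℝ) ^ (s + n))⁻¹ := by positivity
  linarith

lemma tendsto_inv_two_pow : Tendsto (fun s : ℕ => ((2 : ℝ) ^ s)⁻¹) atTop (𝓝 0) :=
  tendsto_inv_atTop_zero.comp (tendsto_pow_atTop_atTop_of_one_lt one_lt_two)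

/-- the finite maximal estimate -/
theorem finite_max (C H : ℕ) {ε : ℝ} (hε : 0 < ε) : ∃ η > 0, ∀ P : Par, P.C = C → P.H = H →
    P.cnt (fun t => P.unif η t ∧ ∃ d ≤ P.D, ε < ‖P.av P.F P.G d t‖) ≤ ε * P.len 0 := by
  obtain ⟨s, hs, hs1⟩ : ∃ s : ℕ, (400 + 2 * Par.c2 C H) * ((2 : ℝ) ^ s)⁻¹ < ε ∧ 1 ≤ s := by
    have := tendsto_inv_two_pow.const_mul (400 + 2 * (Par.c2 C H : ℝ))
    rw [mul_zero] at this
    exact ((this.eventually (gt_mem_nhds hε)).and (eventually_ge_atTop 1)).exists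
  refine ⟨((2 : ℝ) ^ s)⁻¹ ^ 10, by positivity, ?_⟩
  rintro P rfl rfl
  have hx : (0 : ℝ) < ((2 : ℝ) ^ s)⁻¹ := by positivity
  have hx1 : ∀ s : ℕ, ((2 : ℝ) ^ s)⁻¹ ≤ 1 := fun s =>
    inv_le_one_of_one_le₀ (one_le_pow₀ (by norm_num))
  obtain ⟨n, hn⟩ : ∃ n : ℕ, 56 * ((2 * P.C * ((2 : ℝ) ^ (s + n))⁻¹ ^ 10) ^ 2 * P.H ^ 2) *
      (P.D + 1) / ((2 : ℝ) ^ s)⁻¹ ^ 2 < ((2 : ℝ) ^ s)⁻¹ := by
    have h1 := tendsto_inv_two_pow.comp (tendsto_add_atTop_nat s)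
    have h2 : Continuous fun η : ℝ => 56 * ((2 * P.C * η ^ 10) ^ 2 * P.H ^ 2) *
      (P.D + 1) / ((2 : ℝ) ^ s)⁻¹ ^ 2 := by fun_prop
    have h3 := (h2.tendsto 0).comp h1
    simp only [ne_eq, OfNat.ofNat_ne_zero, not_false_eq_true, zero_pow, mul_zero, zero_mul,
      zero_div] at h3
    obtain ⟨n, hn⟩ := (h3.eventually (gt_mem_nhds hx)).exists
    exact ⟨n, by simpa [add_comm] using hn⟩
  have hη := Par.eta_le hs1
  have hη' := Par.eta_le (s := s + n) (by omega)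
  have hc : (0 : ℝ) ≤ Par.c2 P.C P.H := Nat.cast_nonneg _
  have h1 := P.cnt_last (η := ((2 : ℝ) ^ (s + n))⁻¹ ^ 10) (by positivity)
    (by linarith [hx1 (s + n)]) hx
  have h2 := (Par.cnt_exists (P := P) n _).trans
    (sum_le_sum fun i _ => P.cnt_step (s := s + i) (by omega))
  rw [← sum_mul, ← mul_sum] at h2
  have hl := P.len_pos' 0
  have h3 := mul_le_mul_of_nonneg_right (mul_le_mul_of_nonneg_left (sum_geom_le s n) hc) hl.le
  have h4 := mul_le_mul_of_nonneg_right hn.le hl.le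
  have h5 := mul_le_mul_of_nonneg_right hs.le hl.le
  refine le_trans (Par.cnt_mono fun t ht ⟨hu, d, hd, hlt⟩ => ?_) ((Par.cnt_or _ _).trans
    ((add_le_add (h1.trans h4) (h2.trans h3)).trans (by nlinarith [mul_pos hx hl])))
  by_contra hcon
  simp only [not_or, not_exists, not_and, not_lt] at hcon
  have a1 := hcon.1 d hd
  have a2 := P.S_first (by positivity) (by linarith [hx1 s]) ht hu hd
  have a3 := sum_range_sub (fun i => P.S (((2 : ℝ) ^ (s + i))⁻¹ ^ 10) d t) n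
  have a4 := (norm_sum_le _ _).trans
    (sum_le_sum (s := range n) fun i hi => hcon.2 i (mem_range.1 hi) d hd)
  simp only [add_assoc] at a4
  rw [a3, ← mul_sum, add_zero] at a4
  have a5 := sum_geom_le s n
  have a6 := norm_sub_norm_le (P.av P.F P.G d t) (P.S (((2 : ℝ) ^ (s + n))⁻¹ ^ 10) d t)
  have a7 := norm_sub_norm_le (P.S (((2 : ℝ) ^ (s + n))⁻¹ ^ 10) d t)
    (P.S (((2 : ℝ) ^ s)⁻¹ ^ 10) d t)
  nlinarith

end Pool.Agent.Shared.DoubleRec
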