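import Pool.Agent.Shared.DoubleRec.Tree

/-!
One level of the chaining: near minimisers on every node, stopping generations, labels.
-/

set_option autoImplicit false

open Finset ComplexConjugate

namespace Pool.Agent.Shared.DoubleRec

namespace Par

variable (P : Par)

/-- chosen near minimiser on a node -/
noncomputable def nm (η : ℝ) (c : ℕ) (f : ℤ → ℂ) (d i : ℕ) : Co :=
  Classical.epsilon (Near (η * P.len d) (η ^ 2 * P.len d) (P.iv c d i) f)

lemma nm_near {η : ℝ} (hη : 0 < η) (c : ℕ) (f : ℤ → ℂ) (d i : ℕ) :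
    Near (η * P.len d) (η ^ 2 * P.len d) (P.iv c d i) f (P.nm η c f d i) := by
  have := P.len_pos' d
  exact Classical.epsilon_spec (exists_near (by positivity) (by positivity) _ _)

lemma nm_unif {η : ℝ} (hη : 0 < η) {c : ℕ} (hc : c ≤ P.C) (f : ℤ → ℂ) (d i : ℕ) (θ : Tor) :
    ‖ft (P.iv c d i) (fun y => f y - ev (P.nm η c f d i) y) θ‖ ≤ 2 * P.C * η * P.len d := by
  have hl := P.len_pos' d
  refine ((P.nm_near hη c f d i).uniform (by positivity) (by positivity) hη θ).trans ?_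
  have h1 := P.card_iv_le hc d i
  have h2 := P.one_le_C
  have h3 : η ^ 2 * P.len d / (2 * η) = η * P.len d / 2 := by field_simp
  have h4 := mul_le_mul_of_nonneg_left h1 hη.le
  have h5 := mul_le_mul_of_nonneg_left h2 (mul_pos hη hl).le
  rw [h3]
  nlinarith

lemma nm_en {η : ℝ} (hη : 0 < η) (hη1 : η ≤ 1 / 4) {c : ℕ} {f : ℤ → ℂ} {d i : ℕ}
    (h : en (P.iv c d i) f ≤ P.len d) :
    en (P.iv c d i) (ev (P.nm η c f d i)) ≤ 9 / 4 * P.len d := by
  have hl := P.len_pos' d
  refine ((P.nm_near hη c f d i).en_le (by positivity)).trans ?_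
  have : η ^ 2 ≤ 1 / 16 := by nlinarith
  nlinarith

lemma nm_l1 {η : ℝ} (hη : 0 < η) (hη1 : η ≤ 1 / 4) {c : ℕ} {f : ℤ → ℂ} {d i : ℕ}
    (h : en (P.iv c d i) f ≤ P.len d) : l1 (P.nm η c f d i) ≤ η⁻¹ := by
  have hl := P.len_pos' d
  have h1 := (P.nm_near hη c f d i).l1_le
  have : η ^ 2 ≤ 1 := by nlinarith
  have h2 : (η * l1 (P.nm η c f d i)) * P.len d ≤ 1 * P.len d := by nlinarith
  have h3 := le_of_mul_le_mul_right h2 hl
  rwa [← le_div_iff₀' hη, one_div] at h3

/-- the coefficients `s` are close to the near minimisers of the node -/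
def Cl (η x : ℝ) (s : Co × Co × ℕ) (d i : ℕ) : Prop :=
  en (P.iv P.b d i) (fun y => ev (P.nm η P.b P.F d i) y - ev s.1 y) ≤ x ^ 2 * P.len d ∧
  en (P.iv P.a d i) (fun y => ev (P.nm η P.a P.G d i) y - ev s.2.1 y) ≤ x ^ 2 * P.len d

open Classical in
/-- state of a node: coefficients of the top of its generation, and the generation -/
noncomputable def st (η x : ℝ) : ℕ → ℕ → Co × Co × ℕ
  | 0, i => (P.nm η P.b P.F 0 i, P.nm η P.a P.G 0 i, 0)
  | d + 1, i => if P.Cl η x (st η x d (i / 2)) (d + 1) i then st η x d (i / 2) else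
      (P.nm η P.b P.F (d + 1) i, P.nm η P.a P.G (d + 1) i, (st η x d (i / 2)).2.2 + 1)

lemma cl_self (η x : ℝ) (d i g : ℕ) :
    P.Cl η x (P.nm η P.b P.F d i, P.nm η P.a P.G d i, g) d i := by
  have := P.len_pos' d
  constructor <;> simp only [sub_self, en, norm_zero] <;> simp <;> positivity

lemma st_cl (η x : ℝ) (d i : ℕ) : P.Cl η x (P.st η x d i) d i := by
  cases d with
  | zero => exact P.cl_self η x 0 i 0
  | succ d =>
    rw [st]; split_ifs with h
    · exact h
    · exact P.cl_self η x _ i _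

lemma st_l1 {η : ℝ} (hη : 0 < η) (hη1 : η ≤ 1 / 4) (x : ℝ) {t : ℕ} (ht : P.good t) {d : ℕ}
    (hd : d ≤ P.D) : l1 (P.st η x d (P.idx d t)).1 ≤ η⁻¹ ∧
      l1 (P.st η x d (P.idx d t)).2.1 ≤ η⁻¹ := by
  induction d with
  | zero => exact ⟨P.nm_l1 hη hη1 (ht 0 hd).1, P.nm_l1 hη hη1 (ht 0 hd).2⟩
  | succ d ih =>
    rw [st]; split_ifs with h
    · rw [← P.idx_succ (by omega)]; exact ih (by omega)
    · exact ⟨P.nm_l1 hη hη1 (ht _ hd).1, P.nm_l1 hη hη1 (ht _ hd).2⟩

lemma st_step (η x : ℝ) (d i : ℕ) : P.st η x (d + 1) i = P.st η x d (i / 2) ∨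
    (P.st η x (d + 1) i).2.2 = (P.st η x d (i / 2)).2.2 + 1 := by
  rw [st]; split_ifs
  · exact Or.inl rfl
  · exact Or.inr rfl

lemma st_chain (η x : ℝ) (t : ℕ) {d' d : ℕ} (h1 : d' ≤ d) (h2 : d ≤ P.D) :
    P.st η x d (P.idx d t) = P.st η x d' (P.idx d' t) ∨
      (P.st η x d' (P.idx d' t)).2.2 < (P.st η x d (P.idx d t)).2.2 := by
  induction d, h1 using Nat.le_induction with
  | base => exact Or.inl rfl
  | succ d _ ih =>
    have h3 := P.st_step η x d (P.idx (d + 1) t)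
    rw [← P.idx_succ (by omega)] at h3
    rcases ih (by omega) with h | h <;> rcases h3 with h' | h'
    · exact Or.inl (h'.trans h)
    · right; rw [h', h]; omega
    · right; rw [h']; exact h
    · right; omega

/-- objective of a state on a node -/
noncomputable def ph (η x : ℝ) (s : Co × Co × ℕ) (d i : ℕ) : ℝ :=
  obj (η * P.len d) (P.iv P.b d i) P.F s.1 + obj (η * P.len d) (P.iv P.a d i) P.G s.2.1 +
    x ^ 2 / 4 * P.len d * s.2.2

lemma ph_split (η x : ℝ) (s : Co × Co × ℕ) {d : ℕ} (h : d < P.D) (i : ℕ) :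
    P.ph η x s d i = P.ph η x s (d + 1) (2 * i) + P.ph η x s (d + 1) (2 * i + 1) := by
  simp only [ph, obj, P.en_iv h, P.len_succ h]
  push_cast; ring

lemma ph_step {η x : ℝ} (hη : 0 < η) (hx : 16 * η ^ 2 ≤ x ^ 2) (d i : ℕ) :
    P.ph η x (P.st η x (d + 1) i) (d + 1) i ≤ P.ph η x (P.st η x d (i / 2)) (d + 1) i := by
  rw [st]; split_ifs with h
  · exact le_rfl
  have hl := P.len_pos' (d + 1)
  have h1 := (P.nm_near hη P.b P.F (d + 1) i).mid (by positivity) (P.st η x d (i / 2)).1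
  have h2 := (P.nm_near hη P.a P.G (d + 1) i).mid (by positivity) (P.st η x d (i / 2)).2.1
  have h3 := mul_le_mul_of_nonneg_right hx hl.le
  unfold Cl at h
  simp only [ph]
  push_cast
  rw [not_and_or, not_le, not_le] at h
  rcases h with h | h
  · have := en_nonneg (P.iv P.a (d + 1) i)
      (fun y => ev (P.nm η P.a P.G (d + 1) i) y - ev (P.st η x d (i / 2)).2.1 y)
    nlinarith
  · have := en_nonneg (P.iv P.b (d + 1) i)
      (fun y => ev (P.nm η P.b P.F (d + 1) i) y - ev (P.st η x d (i / 2)).1 y)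
    nlinarith

lemma ph_sum {η x : ℝ} (hη : 0 < η) (hx : 16 * η ^ 2 ≤ x ^ 2) {d : ℕ} (hd : d ≤ P.D) :
    ∑ i ∈ range (2 ^ d), P.ph η x (P.st η x d i) d i ≤ P.ph η x (P.st η x 0 0) 0 0 := by
  induction d with
  | zero => simp
  | succ d ih =>
    refine le_trans ?_ (ih (by omega))
    rw [pow_succ, sum_range_mul_eq]
    refine sum_le_sum fun i _ => ?_
    rw [P.ph_split η x _ (show d < P.D by omega), sum_range_succ, sum_range_one, add_zero,
      mul_comm i 2]
    have h1 := P.ph_step hη hx d (2 * i)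
    have h2 := P.ph_step hη hx d (2 * i + 1)
    rw [show 2 * i / 2 = i by omega] at h1
    rw [show (2 * i + 1) / 2 = i by omega] at h2
    linarith

lemma cnt_gen {η x : ℝ} (hη : 0 < η) (hη1 : η ≤ 1 / 4) (hx0 : 0 < x) (hx : 16 * η ^ 2 ≤ x ^ 2)
    {g : ℕ} (hg : 0 < g) :
    P.cnt (fun t => g < (P.st η x P.D (P.idx P.D t)).2.2) ≤ 12 / (x ^ 2 * g) * P.len 0 := by
  classical
  have hl := P.len_pos' 0
  have hg' : (0 : ℝ) < g := by exact_mod_cast hg
  by_cases h0 : P.ok 0 0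
  · have h1 := P.ph_sum hη hx le_rfl
    have h2 : P.ph η x (P.st η x 0 0) 0 0 ≤ 3 * P.len 0 := by
      have a1 := P.nm_near hη P.b P.F 0 0 0
      have a2 := P.nm_near hη P.a P.G 0 0 0
      rw [obj_zero] at a1 a2
      have : η ^ 2 ≤ 1 / 16 := by nlinarith
      simp only [ph, st]
      nlinarith [h0.1, h0.2]
    have h3 : x ^ 2 / 4 * P.len P.D * ∑ i ∈ range (2 ^ P.D), ((P.st η x P.D i).2.2 : ℝ) ≤
        3 * P.len 0 := by
      refine le_trans ?_ (h1.trans h2)
      rw [mul_sum]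
      refine sum_le_sum fun i _ => le_add_of_nonneg_left ?_
      have := P.len_pos' P.D
      exact add_nonneg (obj_nonneg (by positivity) _ _ _) (obj_nonneg (by positivity) _ _ _)
    refine (cnt_le_sum (ψ := fun t => ((P.st η x P.D (P.idx P.D t)).2.2 : ℝ) / g)
      (fun t => by positivity) fun t _ ht => ?_).trans ?_
    · rw [le_div_iff₀ hg', one_mul]; exact_mod_cast ht.le
    · rw [← sum_div, div_le_iff₀ hg']
      have : ∑ t ∈ range (P.len 0), ((P.st η x P.D (P.idx P.D t)).2.2 : ℝ) =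
          P.len P.D * ∑ i ∈ range (2 ^ P.D), ((P.st η x P.D i).2.2 : ℝ) := by
        rw [P.len_zero le_rfl, sum_range_mul_eq, mul_sum]
        refine sum_congr rfl fun i _ => ?_
        rw [sum_congr rfl fun r hr => by rw [P.idx_node _ i (mem_range.1 hr)]]
        simp
      rw [this]
      have e : 12 / (x ^ 2 * g) * P.len 0 * g = 4 / x ^ 2 * (3 * P.len 0) := by
        field_simp; norm_num
      rw [e]
      refine le_trans (le_of_eq ?_) (mul_le_mul_of_nonneg_left h3 (by positivity))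
      field_simp
  · refine le_trans (le_of_eq ?_) (by positivity)
    simp only [cnt, Nat.cast_eq_zero, card_eq_zero, filter_eq_empty_iff, mem_range]
    rintro t ht ⟨h, -⟩
    have := h 0 (Nat.zero_le _)
    rw [idx, Nat.div_eq_of_lt ht] at this
    exact h0 this

/-- radii -/
noncomputable def rad (L i : ℕ) : ℝ := 2 ^ i / (2 * 2 ^ L * 2 ^ (P.k + P.D))

/-- sliding window sum of the potentials -/
noncomputable def W (m0 : ℝ) (L : ℕ) (c e : Co) (d : ℕ) : ℝ :=
  ∑ i ∈ range (2 * L + 3), pot m0 c e (P.rad L (d + i))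

lemma rad_mono (L : ℕ) {i i' : ℕ} (h : i ≤ i') : P.rad L i ≤ P.rad L i' := by
  unfold rad; gcongr; norm_num

lemma W_mono {m0 : ℝ} (hm : 0 < m0) (L : ℕ) (c e : Co) {d d' : ℕ} (h : d ≤ d') :
    P.W m0 L c e d ≤ P.W m0 L c e d' :=
  sum_le_sum fun _ _ => pot_mono hm c e (P.rad_mono L (by omega))

lemma W_sub {m0 : ℝ} (hm : 0 < m0) (L : ℕ) (c e : Co) {d d' : ℕ} (h : d' < d) :
    pot m0 c e (P.rad L (d + (2 * L + 2))) - pot m0 c e (P.rad L d') ≤
      P.W m0 L c e d - P.W m0 L c e d' := by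
  unfold W
  rw [sum_range_succ, sum_range_succ' (fun i => pot m0 c e (P.rad L (d' + i)))]
  have : ∑ i ∈ range (2 * L + 2), pot m0 c e (P.rad L (d' + (i + 1))) ≤
      ∑ i ∈ range (2 * L + 2), pot m0 c e (P.rad L (d + i)) :=
    sum_le_sum fun _ _ => pot_mono hm c e (P.rad_mono L (by omega))
  simp only [add_zero]
  linarith

/-- the label of a node -/
noncomputable def lab (η x m0 y : ℝ) (L V : ℕ) (d i : ℕ) : ℕ :=
  (P.st η x d i).2.2 * (V + 1) + min V ⌊P.W m0 L (P.st η x d i).1 (P.st η x d i).2.1 d / y⌋₊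

/-- the structured average -/
noncomputable def S (η : ℝ) (d t : ℕ) : ℂ :=
  P.av (ev (P.nm η P.b P.F d (P.idx d t))) (ev (P.nm η P.a P.G d (P.idx d t))) d t

lemma M_mul {d : ℕ} (hd : d ≤ P.D) : (P.M d : ℝ) * 2 ^ d = 2 ^ (P.k + P.D) := by
  unfold M; push_cast; rw [← pow_add]; congr 1; omega

lemma lev {η x m0 y : ℝ} {L V g : ℕ} (hη : 0 < η) (hη1 : η ≤ 1 / 4) (hx0 : 0 < x) (hx1 : x ≤ 1)
    (hx : 16 * η ^ 2 ≤ x ^ 2) (hm : 0 < m0) (hm1 : m0 ≤ 2 * η⁻¹) (hy : 0 < y)
    (hy1 : P.C * (2 * y) ≤ 1) (hg : 0 < g)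
    (hV : (2 * L + 3) * (2 * η⁻¹ * Real.log (2 * η⁻¹ / m0)) ≤ V * y) :
    P.Lev (P.S η) (P.lab η x m0 y L V)
      (64 * x + (64 * (P.C * (2 * y)) + (η⁻¹ ^ 2 * (P.H / 2 ^ L) + 16 * η⁻¹ * m0)))
      (g * (V + 1) + V) (12 / (x ^ 2 * g)) where
  mono d i := by
    unfold lab
    rcases P.st_step η x d i with h | h
    · rw [h]
      refine Nat.add_le_add_left (min_le_min le_rfl (Nat.floor_mono ?_)) _
      exact div_le_div_of_nonneg_right (P.W_mono hm _ _ _ (Nat.le_succ d)) hy.le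
    · rw [h, add_mul _ 1, one_mul]
      have := min_le_left V ⌊P.W m0 L (P.st η x d (i / 2)).1 (P.st η x d (i / 2)).2.1 d / y⌋₊
      omega
  few := by
    refine le_trans (cnt_mono fun t _ ht => ?_) (P.cnt_gen hη hη1 hx0 hx hg)
    by_contra hc
    unfold lab at ht
    have h1 := Nat.mul_le_mul_right (V + 1) (not_lt.1 hc)
    have := min_le_left V ⌊P.W m0 L (P.st η x P.D (P.idx P.D t)).1
      (P.st η x P.D (P.idx P.D t)).2.1 P.D / y⌋₊
    omega
  close t ht d' d h1 h2 e := by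
    have hC := P.one_le_C
    rcases h1.eq_or_lt with rfl | h1'
    · rw [sub_self, norm_zero]; positivity
    have hs : P.st η x d (P.idx d t) = P.st η x d' (P.idx d' t) := by
      refine (P.st_chain η x t h1 h2).resolve_right fun hlt => ?_
      unfold lab at e
      have a1 := Nat.mul_le_mul_right (V + 1) (Nat.succ_le_of_lt hlt)
      have a2 := min_le_left V ⌊P.W m0 L (P.st η x d' (P.idx d' t)).1
        (P.st η x d' (P.idx d' t)).2.1 d' / y⌋₊
      rw [Nat.succ_mul] at a1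
      omega
    have c1 := P.st_cl η x d (P.idx d t)
    have c2 := P.st_cl η x d' (P.idx d' t)
    have hl := P.st_l1 hη hη1 x ht h2
    unfold lab at e
    rw [← hs] at e c2
    set s := P.st η x d (P.idx d t)
    have hW : ∀ n, ⌊P.W m0 L s.1 s.2.1 n / y⌋₊ ≤ V := by
      intro n
      refine Nat.floor_le_of_le ?_
      rw [div_le_iff₀ hy]
      refine le_trans ?_ hV
      refine (sum_le_card_nsmul _ _ _ fun i _ => pot_le hm hm1 hl.1 hl.2 _).trans ?_
      simp
    rw [min_eq_right (hW _), min_eq_right (hW _), Nat.add_left_cancel_iff] at e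
    have hW0 : 0 ≤ P.W m0 L s.1 s.2.1 d' := sum_nonneg fun _ _ => pot_nonneg hm _ _ _
    have hW1 : P.W m0 L s.1 s.2.1 d - P.W m0 L s.1 s.2.1 d' ≤ y := by
      have b1 := Nat.lt_floor_add_one (P.W m0 L s.1 s.2.1 d / y)
      have b2 := Nat.floor_le (div_nonneg hW0 hy.le)
      rw [← e, div_lt_iff₀ hy] at b1
      rw [le_div_iff₀ hy] at b2
      linarith
    have hx2 : x ^ 2 ≤ 1 := pow_le_one₀ hx0.le hx1
    have en7 : ∀ {c n i : ℕ} {f : ℤ → ℂ} {u : Co}, en (P.iv c n i) f ≤ P.len n →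
        en (P.iv c n i) (fun y => ev (P.nm η c f n i) y - ev u y) ≤ x ^ 2 * P.len n →
        en (P.iv c n i) (ev u) ≤ 7 * P.len n := by
      intro c n i f u b1 b2
      have b3 := P.nm_en hη hη1 b1
      have b4 := en_sub_le (P.iv c n i) (ev (P.nm η c f n i))
        (fun y => ev (P.nm η c f n i) y - ev u y)
      simp only [sub_sub_cancel] at b4
      have := P.len_pos' n
      change en _ (ev u) ≤ _ at b4
      nlinarith
    have o1 := ht d h2
    have o2 := ht d' (by omega)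
    have l1 := P.len_pos' d
    have l2 := P.len_pos' d'
    have p1 := (P.win d t).perturb hx0.le ((en7 o1.1 c1.1).trans (by linarith))
      ((P.nm_en hη hη1 o1.2).trans (by linarith)) c1.1 c1.2
    have p2 := (P.win d' t).perturb hx0.le ((en7 o2.1 c2.1).trans (by linarith))
      ((P.nm_en hη hη1 o2.2).trans (by linarith)) c2.1 c2.2
    have hr : 0 < P.rad L d' := by unfold rad; positivity
    have hM := P.M_mul h2
    have hM' := P.M_mul (d := d') (by omega)
    have m0' : (0 : ℝ) < P.M d := by exact_mod_cast P.M_pos d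
    have hMM : (P.M d : ℝ) ≤ P.M d' := by
      unfold M; push_cast; gcongr
      norm_num
    have hH : (P.H : ℝ) = 2 * (P.j + 1) := by unfold H; push_cast; ring
    have hj : (1 : ℝ) ≤ P.j := by exact_mod_cast P.hj
    have k1 : ((P.M d' : ℝ) + P.N d') * (4 * P.rad L d') ≤ P.H / 2 ^ L := by
      refine le_of_eq ?_
      rw [hH, rad, ← hM', N]
      have : (0 : ℝ) < P.M d' := by linarith
      push_cast; field_simp; ring
    have k2 : 4 ≤ P.H / 2 ^ L * (P.M d * (P.rad L (d + (2 * L + 2)) / 2)) := by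
      have : P.H / 2 ^ L * (P.M d * (P.rad L (d + (2 * L + 2)) / 2)) = P.H := by
        rw [rad, ← hM]; field_simp; ring
      rw [this, hH]; linarith
    have hr2 : 2 * P.rad L d' ≤ P.rad L (d + (2 * L + 2)) := by
      refine le_trans (le_of_eq ?_) (P.rad_mono L (show d' + 1 ≤ _ by omega))
      unfold rad; ring
    have p3 := bil_stab (P.win d t) (P.win d' t) (P.off_ge d t) (P.off_le d t) (P.off_ge d' t)
      (P.off_le d' t) (c := s.1) (d := s.2.1) (e := P.H / 2 ^ L) (y := 2 * y)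
      (s1 := P.rad L d') (s2 := P.rad L (d + (2 * L + 2)) / 2) hm (by positivity) hl.1 hl.2
      (by linarith) hy1 (en7 o1.1 c1.1) (en7 o1.2 c1.2) (en7 o2.1 c2.1) (en7 o2.2 c2.2) hr
      (by linarith)
      (by rw [mul_div_cancel₀ _ two_ne_zero]; linarith [P.W_sub hm L s.1 s.2.1 h1'])
      (le_trans (by unfold N; push_cast; gcongr) k1) k1 k2
      (k2.trans (by gcongr; linarith))
    unfold S av
    rw [norm_sub_rev] at p2
    have q1 := @norm_sub_le_norm_sub_add_norm_sub ℂ _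
    exact (q1 _ _ _).trans ((add_le_add p1 ((q1 _ _ _).trans (add_le_add p3 p2))).trans
      (by linarith))

end Par

end Pool.Agent.Shared.DoubleRec
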