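import Pool.Agent.Shared.DoubleRec.Atoms

/-!
Stability of the bilinear averages of two fixed trigonometric sums across a range of scales in
which the masses of the frequency balls do not double.
-/

set_option autoImplicit false

open Finset ComplexConjugate

namespace Pool.Agent.Shared.DoubleRec

open Classical in
/-- joint support -/
noncomputable def sup2 (c d : Co) : Finset Tor := c.support ∪ d.support

/-- joint mass of a frequency -/
noncomputable def ms (c d : Co) (θ : Tor) : ℝ := ‖c θ‖ + ‖d θ‖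

open Classical in
/-- mass of a frequency ball -/
noncomputable def bm (c d : Co) (s : ℝ) (θ : Tor) : ℝ :=
  ∑ φ ∈ (sup2 c d).filter (fun φ => chord (θ - φ) ≤ s), ms c d φ

/-- entropy potential -/
noncomputable def pot (m0 : ℝ) (c d : Co) (s : ℝ) : ℝ :=
  ∑ θ ∈ sup2 c d, ms c d θ * Real.log (max (bm c d s θ) m0 / m0)

lemma sub_sup2_left (c d : Co) : c.support ⊆ sup2 c d := by
  classical
  intro x hx; simp only [sup2, mem_union]; exact Or.inl hx

lemma sub_sup2_right (c d : Co) : d.support ⊆ sup2 c d := by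
  classical
  intro x hx; simp only [sup2, mem_union]; exact Or.inr hx

lemma ms_nonneg (c d : Co) (θ : Tor) : 0 ≤ ms c d θ := by unfold ms; positivity

lemma sum_ms (c d : Co) : ∑ θ ∈ sup2 c d, ms c d θ = l1 c + l1 d := by
  rw [l1_eq (sub_sup2_left c d), l1_eq (sub_sup2_right c d), ← sum_add_distrib]; rfl

lemma bm_mono (c d : Co) {s s' : ℝ} (h : s ≤ s') (θ : Tor) : bm c d s θ ≤ bm c d s' θ := by
  classical
  refine sum_le_sum_of_subset_of_nonneg ?_ fun _ _ _ => ms_nonneg _ _ _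
  intro x hx
  simp only [mem_filter] at hx ⊢
  exact ⟨hx.1, hx.2.trans h⟩

lemma bm_le (c d : Co) (s : ℝ) (θ : Tor) : bm c d s θ ≤ l1 c + l1 d := by
  classical
  rw [← sum_ms]
  exact sum_le_sum_of_subset_of_nonneg (filter_subset _ _) fun _ _ _ => ms_nonneg _ _ _

lemma log_mono' {m0 x y : ℝ} (hm : 0 < m0) (h : x ≤ y) :
    Real.log (max x m0 / m0) ≤ Real.log (max y m0 / m0) := by
  have : 0 < max x m0 := lt_max_of_lt_right hm
  gcongr

lemma pot_mono {m0 : ℝ} (hm : 0 < m0) (c d : Co) {s s' : ℝ} (h : s ≤ s') :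
    pot m0 c d s ≤ pot m0 c d s' :=
  sum_le_sum fun θ _ =>
    mul_le_mul_of_nonneg_left (log_mono' hm (bm_mono c d h θ)) (ms_nonneg _ _ _)

lemma pot_nonneg {m0 : ℝ} (hm : 0 < m0) (c d : Co) (s : ℝ) : 0 ≤ pot m0 c d s :=
  sum_nonneg fun _ _ => mul_nonneg (ms_nonneg _ _ _)
    (Real.log_nonneg ((one_le_div hm).2 (le_max_right _ _)))

lemma pot_le {m0 B : ℝ} (hm : 0 < m0) (hmB : m0 ≤ 2 * B) {c d : Co} (hc : l1 c ≤ B)
    (hd : l1 d ≤ B) (s : ℝ) : pot m0 c d s ≤ 2 * B * Real.log (2 * B / m0) := by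
  have h0 : 0 ≤ Real.log (2 * B / m0) := Real.log_nonneg ((one_le_div hm).2 hmB)
  calc pot m0 c d s ≤ ∑ θ ∈ sup2 c d, ms c d θ * Real.log (2 * B / m0) := by
        refine sum_le_sum fun θ _ => mul_le_mul_of_nonneg_left ?_ (ms_nonneg _ _ _)
        have := log_mono' hm ((bm_le c d s θ).trans (show _ ≤ 2 * B by linarith))
        rwa [max_eq_left hmB] at this
    _ ≤ _ := by
        rw [← sum_mul, sum_ms]
        exact mul_le_mul_of_nonneg_right (by linarith) h0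

lemma chord_comm (θ φ : Tor) : chord (θ - φ) = chord (φ - θ) := by
  rw [chord_sub, chord_sub, norm_sub_rev]

lemma chord_tri (θ φ ψ : Tor) : chord (θ - ψ) ≤ chord (θ - φ) + chord (φ - ψ) := by
  simp only [chord_sub]; exact norm_sub_le_norm_sub_add_norm_sub _ _ _

lemma bm_add_le (c d : Co) {s1 s2 : ℝ} (h0 : 0 ≤ s1) (_h : s1 ≤ s2) {θ φ : Tor}
    (h1 : 2 * s1 < chord (θ - φ)) (h2 : chord (θ - φ) ≤ s2) :
    bm c d s1 θ + bm c d s1 φ ≤ bm c d (2 * s2) θ := by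
  classical
  unfold bm
  rw [← sum_union]
  · refine sum_le_sum_of_subset_of_nonneg ?_ fun _ _ _ => ms_nonneg _ _ _
    intro x hx
    simp only [mem_union, mem_filter] at hx ⊢
    rcases hx with hx | hx
    · exact ⟨hx.1, by linarith [hx.2]⟩
    · exact ⟨hx.1, by linarith [hx.2, chord_tri θ φ x]⟩
  · rw [disjoint_filter]
    intro x _ hx hx'
    have := chord_tri θ x φ
    rw [chord_comm x φ] at this
    linarith

/-- the frequencies whose ball mass does not double -/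
def Gd (m0 : ℝ) (c d : Co) (s1 s2 : ℝ) (θ : Tor) : Prop :=
  max (bm c d (2 * s2) θ) m0 < 2 * max (bm c d s1 θ) m0

lemma diffuse {m0 : ℝ} {c d : Co} {s1 s2 : ℝ} {θ : Tor} (hg : Gd m0 c d s1 s2 θ)
    (h : 2 * bm c d s1 θ ≤ bm c d (2 * s2) θ) : bm c d (2 * s2) θ ≤ 2 * m0 := by
  unfold Gd at hg
  rcases le_total (bm c d s1 θ) m0 with h1 | h1
  · rw [max_eq_right h1] at hg
    exact ((le_max_left _ _).trans hg.le)
  · rw [max_eq_left h1] at hg
    linarith [le_max_left (bm c d (2 * s2) θ) m0]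

open Classical in
lemma bad_mass {m0 : ℝ} (hm : 0 < m0) (c d : Co) {s1 s2 : ℝ} (h : s1 ≤ 2 * s2) :
    ∑ θ ∈ (sup2 c d).filter (fun θ => ¬ Gd m0 c d s1 s2 θ), ms c d θ ≤
      2 * (pot m0 c d (2 * s2) - pot m0 c d s1) := by
  rw [pot, pot, ← sum_sub_distrib, mul_sum, sum_filter]
  refine sum_le_sum fun θ _ => ?_
  have h1 := ms_nonneg c d θ
  rw [← mul_sub]
  split_ifs with hg
  · have := log_mono' hm (bm_mono c d h θ)
    have := mul_nonneg h1 (sub_nonneg.2 this)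
    linarith
  · unfold Gd at hg
    rw [not_lt] at hg
    have h2 : 0 < max (bm c d s1 θ) m0 := lt_max_of_lt_right hm
    have h3 : Real.log (2 * (max (bm c d s1 θ) m0 / m0)) ≤
        Real.log (max (bm c d (2 * s2) θ) m0 / m0) := by
      rw [← mul_div_assoc]; gcongr
    rw [Real.log_mul (by norm_num) (by positivity)] at h3
    have := Real.log_two_gt_d9
    nlinarith

open Classical in
lemma good_pairs {m0 B e : ℝ} (hm : 0 < m0) (he : 0 ≤ e) {c d : Co} (hc : l1 c ≤ B)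
    (hd : l1 d ≤ B) {s1 s2 : ℝ} (h0 : 0 ≤ s1) (h : s1 ≤ s2) (K : Tor → ℂ) (w : Tor → Tor → ℂ)
    (hw : ∀ θ φ, ‖w θ φ‖ ≤ 1) (hK : ∀ ξ, ‖K ξ‖ ≤ 2)
    (hKe : ∀ ξ, chord ξ ≤ 2 * s1 ∨ s2 < chord ξ → ‖K ξ‖ ≤ e) :
    ‖∑ θ ∈ sup2 c d, ∑ φ ∈ sup2 c d, (c.filter (Gd m0 c d s1 s2)) θ *
      conj ((d.filter (Gd m0 c d s1 s2)) φ) * w θ φ * K (θ - φ)‖ ≤ B ^ 2 * e + 16 * B * m0 := by
  set D : Tor → Prop := fun θ => bm c d (2 * s2) θ ≤ 2 * m0 with hD
  set g : Tor → Tor → ℝ := fun θ φ =>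
    if D θ ∧ chord (θ - φ) ≤ 2 * s2 then ms c d θ * ms c d φ else 0 with hg
  have g0 : ∀ θ φ, 0 ≤ g θ φ := fun θ φ => by
    simp only [hg]; split_ifs
    · exact mul_nonneg (ms_nonneg _ _ _) (ms_nonneg _ _ _)
    · exact le_rfl
  have hB : 0 ≤ B := (l1_nonneg c).trans hc
  have key : ∀ θ φ, ‖(c.filter (Gd m0 c d s1 s2)) θ *
      conj ((d.filter (Gd m0 c d s1 s2)) φ) * w θ φ * K (θ - φ)‖ ≤
      ‖c θ‖ * ‖d φ‖ * e + 2 * g θ φ + 2 * g φ θ := by
    intro θ φ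
    have a0 := g0 θ φ
    have a1 := g0 φ θ
    have a2 : 0 ≤ ‖c θ‖ * ‖d φ‖ := by positivity
    simp only [Finsupp.filter_apply]
    split_ifs with h1 h2
    · simp only [norm_mul, Complex.norm_conj]
      have b0 : ‖c θ‖ * ‖d φ‖ * ‖w θ φ‖ ≤ ‖c θ‖ * ‖d φ‖ := mul_le_of_le_one_right a2 (hw θ φ)
      by_cases hcf : chord (θ - φ) ≤ 2 * s1 ∨ s2 < chord (θ - φ)
      · have := mul_le_mul b0 (hKe _ hcf) (norm_nonneg _) a2
        linarith
      · rw [not_or, not_le, not_lt] at hcf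
        have b1 := mul_le_mul b0 (hK (θ - φ)) (norm_nonneg _) a2
        have b2 : ‖c θ‖ * ‖d φ‖ ≤ ms c d θ * ms c d φ :=
          mul_le_mul (le_add_of_nonneg_right (norm_nonneg _))
            (le_add_of_nonneg_left (norm_nonneg _)) (norm_nonneg _) (ms_nonneg _ _ _)
        have b3 : 0 ≤ ‖c θ‖ * ‖d φ‖ * e := by positivity
        have c1 := bm_add_le c d h0 h hcf.1 hcf.2
        have c2 := bm_add_le c d h0 h (θ := φ) (φ := θ) (chord_comm θ φ ▸ hcf.1)
          (chord_comm θ φ ▸ hcf.2)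
        have c3 : chord (θ - φ) ≤ 2 * s2 := by linarith [hcf.2]
        rcases le_total (bm c d s1 θ) (bm c d s1 φ) with h3 | h3
        · have : g θ φ = ms c d θ * ms c d φ := if_pos ⟨diffuse h1 (by linarith), c3⟩
          linarith
        · have : g φ θ = ms c d φ * ms c d θ :=
            if_pos ⟨diffuse h2 (by linarith), chord_comm θ φ ▸ c3⟩
          linarith
    all_goals simp only [map_zero, mul_zero, zero_mul, norm_zero]; positivity
  have sg : ∑ θ ∈ sup2 c d, ∑ φ ∈ sup2 c d, g θ φ ≤ 4 * B * m0 := by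
    calc _ ≤ ∑ θ ∈ sup2 c d, ms c d θ * (2 * m0) := by
          refine sum_le_sum fun θ _ => ?_
          by_cases hθ : D θ
          · simp only [hg, hθ, true_and]
            rw [← sum_filter, ← mul_sum]
            exact mul_le_mul_of_nonneg_left hθ (ms_nonneg _ _ _)
          · simp only [hg, hθ, false_and, if_false, sum_const_zero]
            exact mul_nonneg (ms_nonneg _ _ _) (by positivity)
      _ ≤ _ := by
          rw [← sum_mul, sum_ms]; nlinarith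
  refine (norm_sum_le _ _).trans ((sum_le_sum fun θ _ => (norm_sum_le _ _).trans
    (sum_le_sum fun φ _ => key θ φ)).trans ?_)
  simp only [sum_add_distrib, ← mul_sum]
  rw [sum_comm (f := fun θ φ => g φ θ)]
  have : ∑ θ ∈ sup2 c d, ∑ φ ∈ sup2 c d, ‖c θ‖ * ‖d φ‖ * e = l1 c * l1 d * e := by
    rw [l1_eq (sub_sup2_left c d), l1_eq (sub_sup2_right c d), sum_mul_sum, sum_mul]
    exact sum_congr rfl fun θ _ => by rw [sum_mul]
  rw [this]
  have h5 : l1 c * l1 d ≤ B ^ 2 := by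
    rw [sq]; exact mul_le_mul hc hd (l1_nonneg _) hB
  nlinarith

lemma en_le_of_norm_le (I : Finset ℤ) {p : ℤ → ℂ} {y : ℝ} (h : ∀ z, ‖p z‖ ≤ y) :
    en I p ≤ I.card * y ^ 2 := by
  refine (sum_le_card_nsmul _ _ (y ^ 2) fun z _ => ?_).trans (by simp)
  exact pow_le_pow_left₀ (norm_nonneg _) (h z) 2

/-- data of a window pair inside a node of size `ℓ` -/
structure Win (M N : ℕ) (I Z : Finset ℤ) (ℓ C : ℝ) (i i' : ℤ) : Prop where
  hM : 0 < M
  hN : 0 < N
  fI : Fits M N I i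
  fZ : Fits M N Z i'
  len0 : 0 ≤ ℓ
  len : ℓ ≤ 4 * N
  cI : (I.card : ℝ) ≤ C ^ 2 * ℓ
  cZ : (Z.card : ℝ) ≤ C ^ 2 * ℓ

lemma Win.norm_le {M N : ℕ} {I Z : Finset ℤ} {ℓ C : ℝ} {i i' : ℤ} (W : Win M N I Z ℓ C i i')
    {p q : ℤ → ℂ} {α β : ℝ} (hα : 0 ≤ α) (hβ : 0 ≤ β) (hp : en I p ≤ α ^ 2 * ℓ)
    (hq : en Z q ≤ β ^ 2 * ℓ) : ‖bil M N p q i i'‖ ≤ 4 * α * β := by
  have hN' : (0 : ℝ) < N := by exact_mod_cast W.hN
  refine (norm_bil_le W.fI W.fZ W.hM W.hN p q).trans ?_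
  have h1 : √(en I p) ≤ α * √ℓ := by
    rw [← Real.sqrt_sq hα, ← Real.sqrt_mul (sq_nonneg _)]; exact Real.sqrt_le_sqrt hp
  have h2 : √(en Z q) ≤ β * √ℓ := by
    rw [← Real.sqrt_sq hβ, ← Real.sqrt_mul (sq_nonneg _)]; exact Real.sqrt_le_sqrt hq
  rw [div_le_iff₀ hN']
  calc _ ≤ (α * √ℓ) * (β * √ℓ) := by gcongr
    _ = α * β * ℓ := by rw [mul_mul_mul_comm, Real.mul_self_sqrt W.len0]
    _ ≤ α * β * (4 * N) := mul_le_mul_of_nonneg_left W.len (by positivity)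
    _ = _ := by ring

/-- perturbing both entries -/
lemma Win.perturb {M N : ℕ} {I Z : Finset ℤ} {ℓ C : ℝ} {i i' : ℤ} (W : Win M N I Z ℓ C i i')
    {p q p' q' : ℤ → ℂ} {x : ℝ} (hx : 0 ≤ x) (hp : en I p' ≤ 4 ^ 2 * ℓ)
    (hq : en Z q ≤ 4 ^ 2 * ℓ) (hp' : en I (fun y => p y - p' y) ≤ x ^ 2 * ℓ)
    (hq' : en Z (fun y => q y - q' y) ≤ x ^ 2 * ℓ) :
    ‖bil M N p q i i' - bil M N p' q' i i'‖ ≤ 32 * x := by
  have h1 := W.norm_le hx (by norm_num) hp' hq
  have h2 := W.norm_le (by norm_num) hx hp hq'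
  rw [bil_sub_left] at h1
  rw [bil_sub_right] at h2
  have := norm_sub_le_norm_sub_add_norm_sub (bil M N p q i i') (bil M N p' q i i')
    (bil M N p' q' i i')
  linarith

open Classical in
lemma ev_filter_sub (c : Co) (P : Tor → Prop) (y : ℤ) :
    ‖ev c y - ev (c.filter P) y‖ ≤ ∑ θ ∈ c.support.filter (fun θ => ¬ P θ), ‖c θ‖ := by
  have : ev c y - ev (c.filter P) y = ev (c.filter fun θ => ¬ P θ) y := by
    have h := ev_add (c.filter P) (c.filter fun θ => ¬ P θ) y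
    rw [Finsupp.filter_add_filter_not] at h
    rw [h]; ring
  rw [this]
  refine (norm_ev_le _ _).trans (le_of_eq ?_)
  rw [l1_eq (S := c.support.filter fun θ => ¬ P θ) (by rw [Finsupp.support_filter])]
  exact sum_congr rfl fun θ hθ => by
    rw [Finsupp.filter_apply_pos (fun θ => ¬ P θ) c (mem_filter.1 hθ).2]

lemma Win.trunc {M N : ℕ} {I Z : Finset ℤ} {ℓ C : ℝ} {i i' : ℤ} (W : Win M N I Z ℓ C i i')
    {p q p' q' : ℤ → ℂ} {y : ℝ} (hy : 0 ≤ C * y) (hy1 : C * y ≤ 1) (hp : en I p ≤ 14 / 2 * ℓ)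
    (hq : en Z q ≤ 4 ^ 2 * ℓ) (hp' : ∀ z, ‖p z - p' z‖ ≤ y) (hq' : ∀ z, ‖q z - q' z‖ ≤ y) :
    ‖bil M N p q i i' - bil M N p' q' i i'‖ ≤ 32 * (C * y) := by
  have h0 := W.len0
  have a1 : en I (fun z => p z - p' z) ≤ (C * y) ^ 2 * ℓ := by
    refine (en_le_of_norm_le I hp').trans ?_
    have := mul_le_mul_of_nonneg_right W.cI (sq_nonneg y)
    linarith [show C ^ 2 * ℓ * y ^ 2 = (C * y) ^ 2 * ℓ by ring]
  have a2 : en Z (fun z => q z - q' z) ≤ (C * y) ^ 2 * ℓ := by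
    refine (en_le_of_norm_le Z hq').trans ?_
    have := mul_le_mul_of_nonneg_right W.cZ (sq_nonneg y)
    linarith [show C ^ 2 * ℓ * y ^ 2 = (C * y) ^ 2 * ℓ by ring]
  refine W.perturb hy ?_ hq a1 a2
  have := en_sub_le I p (fun z => p z - p' z)
  simp only [sub_sub_cancel] at this
  have h3 : (C * y) ^ 2 * ℓ ≤ ℓ := mul_le_of_le_one_left h0 (pow_le_one₀ hy hy1)
  change en I p' ≤ _ at this
  linarith

/-- stability across scales -/
lemma bil_stab {M N M' N' : ℕ} {I Z I' Z' : Finset ℤ} {ℓ ℓ' C : ℝ} {s s' o o' : ℤ}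
    (W : Win M N I Z ℓ C (s + o) (s' + o)) (W' : Win M' N' I' Z' ℓ' C (s + o') (s' + o'))
    (ho : -((M : ℤ) + N) ≤ o) (ho0 : o ≤ 0) (ho' : -((M' : ℤ) + N') ≤ o') (ho0' : o' ≤ 0)
    {c d : Co} {m0 B e y s1 s2 : ℝ} (hm : 0 < m0) (he : 0 ≤ e) (hc : l1 c ≤ B) (hd : l1 d ≤ B)
    (hC : 0 ≤ C) (hy1 : C * y ≤ 1)
    (e1 : en I (ev c) ≤ 7 * ℓ) (e2 : en Z (ev d) ≤ 7 * ℓ)
    (e1' : en I' (ev c) ≤ 7 * ℓ') (e2' : en Z' (ev d) ≤ 7 * ℓ')
    (h0 : 0 < s1) (h : s1 ≤ s2) (hpot : 2 * (pot m0 c d (2 * s2) - pot m0 c d s1) ≤ y)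
    (k1 : (M + N) * (4 * s1) ≤ e) (k1' : (M' + N') * (4 * s1) ≤ e)
    (k2 : 4 ≤ e * (M * s2)) (k2' : 4 ≤ e * (M' * s2)) :
    ‖bil M N (ev c) (ev d) (s + o) (s' + o) - bil M' N' (ev c) (ev d) (s + o') (s' + o')‖ ≤
      64 * (C * y) + (B ^ 2 * e + 16 * B * m0) := by
  classical
  have hb := (bad_mass hm c d (s1 := s1) (s2 := s2) (by linarith)).trans hpot
  have hy : 0 ≤ y := le_trans (sum_nonneg fun _ _ => ms_nonneg _ _ _) hb
  set P := Gd m0 c d s1 s2 with hP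
  have b1 : ∀ z, ‖ev c z - ev (c.filter P) z‖ ≤ y := fun z => by
    refine (ev_filter_sub c P z).trans (le_trans ?_ hb)
    refine le_trans ?_ (sum_le_sum fun θ _ => le_add_of_nonneg_right (norm_nonneg (d θ)))
    exact sum_le_sum_of_subset_of_nonneg (filter_subset_filter _ (sub_sup2_left c d))
      fun _ _ _ => norm_nonneg _
  have b2 : ∀ z, ‖ev d z - ev (d.filter P) z‖ ≤ y := fun z => by
    refine (ev_filter_sub d P z).trans (le_trans ?_ hb)
    refine le_trans ?_ (sum_le_sum fun θ _ => le_add_of_nonneg_left (norm_nonneg (c θ)))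
    exact sum_le_sum_of_subset_of_nonneg (filter_subset_filter _ (sub_sup2_right c d))
      fun _ _ _ => norm_nonneg _
  have l0 := W.len0
  have l0' := W'.len0
  have t1 := W.trunc (by positivity) hy1 (by linarith) (by linarith) b1 b2
  have t2 := W'.trunc (by positivity) hy1 (by linarith) (by linarith) b1 b2
  have sc : (c.filter P).support ⊆ sup2 c d := by
    rw [Finsupp.support_filter]; exact (filter_subset _ _).trans (sub_sup2_left c d)
  have sd : (d.filter P).support ⊆ sup2 c d := by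
    rw [Finsupp.support_filter]; exact (filter_subset _ _).trans (sub_sup2_right c d)
  have far : ∀ {M N : ℕ} (o : ℤ) (ξ : Tor), 0 < M → 0 < N → 4 ≤ e * (M * s2) → s2 < chord ξ →
      ‖ker M N o ξ‖ ≤ e / 2 := by
    intro M N o ξ hM hN k hξ
    have hM' : (0 : ℝ) < M := by exact_mod_cast hM
    have h1 := norm_ker_mul_chord hM hN o ξ
    have h2 : 0 < M * s2 := mul_pos hM' (by linarith)
    have h3 : ‖ker M N o ξ‖ * (M * s2) ≤ ‖ker M N o ξ‖ * (M * chord ξ) := by gcongr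
    refine le_of_mul_le_mul_right ?_ h2
    linarith
  have t3 := good_pairs hm he hc hd h0.le h (fun ξ => ker M N o ξ - ker M' N' o' ξ)
    (fun θ φ => ch θ s * conj (ch φ s')) (fun θ φ => by simp)
    (fun ξ => (norm_sub_le _ _).trans (by
      linarith [norm_ker_le W.hM W.hN o ξ, norm_ker_le W'.hM W'.hN o' ξ]))
    (fun ξ hξ => by
      rcases hξ with hξ | hξ
      · have u1 := norm_ker_sub_one W.hM W.hN ho ho0 ξ
        have u2 := norm_ker_sub_one W'.hM W'.hN ho' ho0' ξ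
        have u3 := norm_sub_le_norm_sub_add_norm_sub (ker M N o ξ) 1 (ker M' N' o' ξ)
        rw [norm_sub_rev 1] at u3
        have u4 : ((M : ℝ) + N) * chord ξ ≤ (M + N) * (2 * s1) := by gcongr
        have u5 : ((M' : ℝ) + N') * chord ξ ≤ (M' + N') * (2 * s1) := by gcongr
        nlinarith
      · refine (norm_sub_le _ _).trans ?_
        linarith [far o ξ W.hM W.hN k2 hξ, far o' ξ W'.hM W'.hN k2' hξ])
  simp only [mul_sub, sum_sub_distrib] at t3
  rw [← bil_ev M N sc sd, ← bil_ev M' N' sc sd] at t3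
  have := norm_sub_le_norm_sub_add_norm_sub (bil M N (ev c) (ev d) (s + o) (s' + o))
    (bil M N (ev (c.filter P)) (ev (d.filter P)) (s + o) (s' + o))
    (bil M' N' (ev c) (ev d) (s + o') (s' + o'))
  have h4 := norm_sub_le_norm_sub_add_norm_sub
    (bil M N (ev (c.filter P)) (ev (d.filter P)) (s + o) (s' + o))
    (bil M' N' (ev (c.filter P)) (ev (d.filter P)) (s + o') (s' + o'))
    (bil M' N' (ev c) (ev d) (s + o') (s' + o'))
  rw [norm_sub_rev] at t2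
  linarith

end Pool.Agent.Shared.DoubleRec
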