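import Pool.Agent.Shared.DoubleRec.WW
import Pool.Agent.Shared.DoubleRec.Finite

/-!
Transfer of the finite maximal estimate to measure preserving systems.
-/

set_option autoImplicit false

open MeasureTheory Filter Topology Finset ComplexConjugate

namespace Pool.Agent.Shared.DoubleRec

variable {X : Type*} [MeasurableSpace X] {μ : Measure X}

/-- two sided orbit -/
def orb (T : X ≃ᵐ X) (n : ℤ) (x : X) : X := (T.toEquiv ^ n) x

lemma orb_add (T : X ≃ᵐ X) (m n : ℤ) (x : X) : orb T (m + n) x = orb T m (orb T n x) := by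
  simp [orb, zpow_add]

lemma orb_nat (T : X ≃ᵐ X) (n : ℕ) (x : X) : orb T n x = T^[n] x := by
  rw [orb, zpow_natCast, Equiv.Perm.coe_pow]; rfl

lemma orb_neg (T : X ≃ᵐ X) (n : ℕ) (x : X) : orb T (-n) x = T.symm^[n] x := by
  rw [orb, zpow_neg, zpow_natCast, ← inv_pow, Equiv.Perm.coe_pow]; rfl

lemma orb_mp {T : X ≃ᵐ X} (hT : MeasurePreserving T μ μ) (n : ℤ) :
    MeasurePreserving (orb T n) μ μ := by
  obtain ⟨n, rfl | rfl⟩ := Int.eq_nat_or_neg n
  · rw [funext (orb_nat T n)]; exact hT.iterate n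
  · rw [funext (orb_neg T n)]; exact (hT.symm T).iterate n

lemma measurable_orb (T : X ≃ᵐ X) (n : ℤ) : Measurable (orb T n) := by
  obtain ⟨n, rfl | rfl⟩ := Int.eq_nat_or_neg n
  · rw [funext (orb_nat T n)]; exact T.measurable.iterate n
  · rw [funext (orb_neg T n)]; exact T.symm.measurable.iterate n

lemma sum_two_sided {E : Type*} [AddCommMonoid E] (ψ : ℤ → E) (N1 N2 : ℕ) :
    ∑ y ∈ Ico (-(N1 : ℤ)) N2, ψ y = ∑ n ∈ range N1, ψ (-n + -1) + ∑ n ∈ range N2, ψ n := by
  induction N1 with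
  | zero =>
    induction N2 with
    | zero => simp
    | succ N ih =>
      simp only [Nat.cast_zero, neg_zero, range_zero, sum_empty, zero_add] at ih ⊢
      rw [sum_range_succ, ← ih, add_comm _ (ψ _), ← sum_insert (by simp)]
      congr 1
      ext y; simp
  | succ N ih =>
    rw [sum_range_succ, add_right_comm, ← ih, add_comm _ (ψ _), ← sum_insert (by simp)]
    congr 1
    ext y; simp; omega

lemma one_sided {Θ : Type*} {s : Θ → ℕ → ℝ} {B : ℕ → ℝ} (hB : ∀ θ N, s θ N ≤ B N) {c : ℝ}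
    (hc : 0 ≤ c) (h : ∀ᶠ N : ℕ in atTop, ∀ θ, s θ N ≤ c * N) :
    ∃ Z, ∀ θ N, s θ N ≤ c * N + Z := by
  obtain ⟨N0, h0⟩ := eventually_atTop.1 h
  refine ⟨∑ n ∈ range N0, |B n|, fun θ N => ?_⟩
  rcases lt_or_ge N N0 with h1 | h1
  · have := single_le_sum (f := fun n => |B n|) (fun _ _ => abs_nonneg _) (mem_range.2 h1)
    have h2 : 0 ≤ c * N := by positivity
    linarith [hB θ N, le_abs_self (B N)]
  · exact (h0 N h1 θ).trans (le_add_of_nonneg_right (by positivity))

lemma two_sided {Θ : Type*} {s s' : Θ → ℕ → ℝ} {B B' : ℕ → ℝ} (hB : ∀ θ N, s θ N ≤ B N)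
    (hB' : ∀ θ N, s' θ N ≤ B' N) {c c' : ℝ} (hc : 0 ≤ c) (hcc : c < c')
    (h : ∀ᶠ N : ℕ in atTop, ∀ θ, s θ N ≤ c * N) (h' : ∀ᶠ N : ℕ in atTop, ∀ θ, s' θ N ≤ c * N) :
    ∀ᶠ l : ℕ in atTop, ∀ N1 N2 : ℕ, l ≤ N1 + N2 → ∀ θ, s θ N1 + s' θ N2 ≤ c' * (N1 + N2) := by
  obtain ⟨Z, hZ⟩ := one_sided hB hc h
  obtain ⟨Z', hZ'⟩ := one_sided hB' hc h'
  filter_upwards [tendsto_natCast_atTop_atTop.eventually_ge_atTop ((Z + Z') / (c' - c))]
    with l hl N1 N2 hN θ
  rw [div_le_iff₀ (sub_pos.2 hcc)] at hl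
  have : (l : ℝ) ≤ N1 + N2 := by exact_mod_cast hN
  nlinarith [hZ θ N1, hZ' θ N2]

/-- points whose two sided orbit is uniform with bounded energy on all long intervals -/
def goodSet (T : X ≃ᵐ X) (u : X → ℂ) (a : ℕ) (c η : ℝ) (l : ℕ) : Set X :=
  {p | ∀ N1 N2 : ℕ, l ≤ N1 + N2 →
    en (Ico (-(N1 : ℤ)) N2) (fun y => u (orb T (a * y) p)) ≤ c * (N1 + N2) ∧
    ∀ θ, ‖ft (Ico (-(N1 : ℤ)) N2) (fun y => u (orb T (a * y) p)) θ‖ ≤ η * (N1 + N2)}

lemma measurableSet_goodSet (T : X ≃ᵐ X) {u : X → ℂ} (hu : Measurable u) (a : ℕ) (c η : ℝ)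
    (l : ℕ) : MeasurableSet (goodSet T u a c η l) := by
  have hm : ∀ y, Measurable fun p => u (orb T y p) := fun y => hu.comp (measurable_orb T y)
  simp only [goodSet, Set.ofPred_forall, Set.ofPred_and]
  refine MeasurableSet.iInter fun N1 => MeasurableSet.iInter fun N2 =>
    MeasurableSet.iInter fun _ => MeasurableSet.inter ?_ ?_
  · exact measurableSet_le (Finset.measurable_sum _ fun y _ => (hm _).norm.pow_const 2)
      measurable_const
  · have : (⋂ θ, {p | ‖ft (Ico (-(N1 : ℤ)) N2) (fun y => u (orb T (a * y) p)) θ‖ ≤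
        η * (N1 + N2)}) = ⋂ q : ℕ, {p | ‖ft (Ico (-(N1 : ℤ)) N2) (fun y => u (orb T (a * y) p))
          (TopologicalSpace.denseSeq Tor q)‖ ≤ η * (N1 + N2)} := by
      ext p
      simp only [Set.mem_iInter, Set.mem_ofPred_eq]
      refine ⟨fun h q => h _, fun h θ => ?_⟩
      exact (TopologicalSpace.denseRange_denseSeq Tor).induction_on θ
        (isClosed_le (continuous_ft _ _).norm continuous_const) h
    rw [this]
    exact MeasurableSet.iInter fun q => measurableSet_le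
      (Finset.measurable_sum _ fun y _ => (hm _).mul_const _).norm measurable_const

lemma CorrSmall.symm {T : X ≃ᵐ X} (hT : MeasurePreserving T μ μ) {w : X → ℂ} (hw : Measurable w)
    (h : CorrSmall μ T w) : CorrSmall μ T.symm w := by
  refine Tendsto.congr (fun H => ?_) h
  rw [sum_comm]
  congr 1
  refine sum_congr rfl fun h _ => sum_congr rfl fun k _ => ?_
  congr 1
  have hm : Measurable fun x => w (T.symm^[h] x) * conj (w (T.symm^[k] x)) :=
    (hw.comp (T.symm.measurable.iterate h)).mul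
      (Complex.continuous_conj.measurable.comp (hw.comp (T.symm.measurable.iterate k)))
  rw [← integral_iterate hT hm.aestronglyMeasurable (h + k)]
  have e : ∀ (m n : ℕ) x, T.symm^[m] (T^[m + n] x) = T^[n] x := fun m n x => by
    rw [← orb_neg, ← orb_nat, ← orb_nat, ← orb_add]; congr 1; push_cast; ring
  congr 1
  ext x
  rw [e, add_comm h k, e]

variable [IsProbabilityMeasure μ]

lemma ae_goodSet {T : X ≃ᵐ X} (hT : Ergodic T μ) {u : X → ℂ} (hu : Measurable u)
    (h2 : MemLp u 2 μ) (hc : CorrSmall μ T u) {a : ℕ} (ha : 0 < a) {c η : ℝ}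
    (hc' : a * ∫ x, ‖u x‖ ^ 2 ∂μ < c) (hη : 0 < η) :
    ∀ᵐ p ∂μ, ∀ᶠ l in atTop, p ∈ goodSet T u a c η l := by
  have hp := hT.toMeasurePreserving
  have q := (orb_mp hp (-a)).quasiMeasurePreserving
  have e1 := sum_mul_le_of_ergodic hT (w := fun x => ‖u x‖ ^ 2) (hu.norm.pow_const 2)
    (fun x => sq_nonneg _) (integrable_sq h2) ha
  have e2 := q.ae (sum_mul_le_of_ergodic hT.symm (w := fun x => ‖u x‖ ^ 2) (hu.norm.pow_const 2)
    (fun x => sq_nonneg _) (integrable_sq h2) ha)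
  have w1 := ww hT hu h2 hc
  have w2 := q.ae (ww hT.symm hu h2 (hc.symm hp hu))
  obtain ⟨c0, h0, h0'⟩ := exists_between hc'
  have hc0 : 0 ≤ c0 := le_trans (mul_nonneg (Nat.cast_nonneg _)
    (integral_nonneg fun x => sq_nonneg _)) h0.le
  filter_upwards [e1, e2, w1, w2] with p e1 e2 w1 w2
  have o1 : ∀ n : ℕ, orb T (a * n) p = T^[a * n] p := fun n => by rw [← orb_nat]; push_cast; rfl
  have o2 : ∀ n : ℕ, orb T (a * (-n + -1)) p = T.symm^[a * n] (orb T (-a) p) := fun n => by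
    rw [← orb_neg, ← orb_add]; congr 1; push_cast; ring
  have t1 := two_sided (Θ := Unit)
    (s := fun _ N => ∑ n ∈ range N, ‖u (T.symm^[a * n] (orb T (-a) p))‖ ^ 2)
    (s' := fun _ N => ∑ n ∈ range N, ‖u (T^[a * n] p)‖ ^ 2) (fun _ _ => le_rfl) (fun _ _ => le_rfl) hc0 h0'
    ((e2 c0 h0).mono fun N h _ => h) ((e1 c0 h0).mono fun N h _ => h)
  have bd : ∀ (z : ℕ → ℂ) (θ : Tor) (N : ℕ), ‖∑ n ∈ range N, z n * ch θ n‖ ≤
      ∑ n ∈ range N, ‖z n‖ := fun z θ N => (norm_sum_le _ _).trans (by simp)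
  have t2 := two_sided (Θ := Tor) (fun θ => bd _ θ) (fun θ => bd _ (-θ)) (half_pos hη).le
    (half_lt_self hη) (w2.mul ha _ (half_pos hη))
    ((w1.mul ha _ (half_pos hη)).mono fun N h θ => h (-θ))
  filter_upwards [t1, t2] with l t1 t2 N1 N2 hN
  refine ⟨?_, fun θ => ?_⟩
  · rw [en, sum_two_sided]
    simp only [o1, o2]
    exact t1 N1 N2 hN ()
  · rw [ft, sum_two_sided]
    simp only [o1, o2]
    refine (norm_add_le _ _).trans (le_trans (le_of_eq ?_) (t2 N1 N2 hN θ))
    congr 1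
    · simp only [ch_add, ch_neg, map_mul, Complex.conj_conj, ← mul_assoc, ← sum_mul, norm_mul,
        norm_ch, mul_one]
    · simp only [ch_neg_left]

/-- trapezoidal average -/
noncomputable def trp (z : ℕ → ℂ) (M N : ℕ) : ℂ :=
  ((M : ℂ) * N)⁻¹ * ∑ m ∈ range M, ∑ n ∈ range N, z (m + n)

lemma norm_ch_mul (θ : Tor) (n : ℤ) (z : ℂ) : ‖ch θ n * z‖ = ‖z‖ := by simp

lemma sum_shift {E : Type*} [AddCommMonoid E] (ψ : ℤ → E) (s lo hi : ℤ) :
    ∑ y ∈ Ico (s + lo) (s + hi), ψ y = ∑ y ∈ Ico lo hi, ψ (s + y) := by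
  rw [← map_add_left_Ico, sum_map]; rfl

lemma Par.iv_eq (P : Par) (c d t : ℕ) : ∃ N1 N2 : ℕ, N1 + N2 = c * P.len d ∧
    P.iv c d (P.idx d t) = Ico ((c * t : ℤ) + -(N1 : ℤ)) (c * t + N2) := by
  have h1 := Nat.div_add_mod t (P.len d)
  have h2 := Nat.mod_lt t (P.len_pos d)
  obtain ⟨r', hr'⟩ := Nat.exists_eq_add_of_le h2.le
  refine ⟨c * (t % P.len d), c * r', by rw [← mul_add, ← hr'], ?_⟩
  have e1 : (t : ℤ) = P.len d * (P.idx d t) + (t % P.len d : ℕ) := by
    unfold Par.idx; exact_mod_cast h1.symm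
  have e2 : (P.len d : ℤ) = (t % P.len d : ℕ) + r' := by exact_mod_cast hr'
  rw [Par.iv]
  generalize t % P.len d = r at *
  congr 1
  · push_cast; rw [e1]; ring
  · push_cast; linear_combination (-c : ℤ) * e1 + c * e2

lemma Par.card_half (P : Par) {d : ℕ} (hd : d ≤ P.D) :
    ∑ t ∈ range (P.len 0), (if t % P.len d < P.hl d then (1 : ℝ) else 0) = P.len 0 / 2 := by
  rw [P.len_zero hd, sum_range_mul_eq]
  have : ∀ i, ∑ r ∈ range (P.len d),
      (if (i * P.len d + r) % P.len d < P.hl d then (1 : ℝ) else 0) = P.hl d := by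
    intro i
    rw [sum_congr rfl fun r hr => by
      rw [mul_comm, Nat.mul_add_mod, Nat.mod_eq_of_lt (mem_range.1 hr)]]
    rw [← sum_filter, sum_const, nsmul_eq_mul, mul_one]
    congr 1
    have : (range (P.len d)).filter (· < P.hl d) = range (P.hl d) := by
      ext r; simp only [mem_filter, mem_range, Par.len]; omega
    rw [this, card_range]
  simp only [this, sum_const, card_range, nsmul_eq_mul]
  rw [Par.len]
  push_cast; ring

/-- the weighted sequence along the orbit -/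
noncomputable def sq2 (T : X → X) (u v : X → ℂ) (a b : ℕ) (θ : Tor) (p : X) (n : ℕ) : ℂ :=
  ch θ n * u (T^[a * n] p) * v (T^[b * n] p)

omit [IsProbabilityMeasure μ] in
lemma measurable_trp {T : X → X} (hT : Measurable T) {u v : X → ℂ} (hu : Measurable u)
    (hv : Measurable v) (a b : ℕ) (θ : Tor) (M N : ℕ) :
    Measurable fun p => trp (sq2 T u v a b θ p) M N :=
  measurable_const.mul (Finset.measurable_sum _ fun _ _ => Finset.measurable_sum _ fun _ _ =>
    (measurable_const.mul (hu.comp (hT.iterate _))).mul (hv.comp (hT.iterate _)))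

theorem transfer {T : X ≃ᵐ X} (hT : MeasurePreserving T μ μ) {u v : X → ℂ} (hu : Measurable u)
    (hv : Measurable v) {a b j : ℕ} (ha : 0 < a) (hb : 0 < b) (hab : a ≠ b) (hj : 0 < j)
    {ρ : ℝ} (hρ : ∀ x, ‖v x‖ ≤ ρ) (hρ' : a * ρ ^ 2 ≤ 1) (θ : Tor) {ε : ℝ} (hε : 0 < ε) :
    ∃ η > 0, ∀ l k D : ℕ, l ≤ 2 ^ k → μ.real (goodSet T u a (b : ℝ)⁻¹ η l ∩
      {p | ∃ d ≤ D, ε < ‖trp (sq2 T u v a b θ p) (2 ^ (k + d)) (j * 2 ^ (k + d))‖}) ≤ 2 * ε := by
  classical
  obtain ⟨η, hη, H⟩ := finite_max (a + b) (2 * (j + 1)) hε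
  have hb' : (0 : ℝ) < b := by exact_mod_cast hb
  refine ⟨η / b, by positivity, fun l k D hl => ?_⟩
  set mk : (ℤ → ℂ) → (ℤ → ℂ) → Par := fun F G => ⟨a, b, j, k, D, F, G, ha, hb, hab, hj⟩ with hmk
  set P := mk 0 0 with hP
  set Gs := goodSet T u a (b : ℝ)⁻¹ (η / b) l with hGs
  have mG : MeasurableSet Gs := measurableSet_goodSet T hu _ _ _ _
  set E : ℕ → Set X := fun d => {p | ε < ‖trp (sq2 T u v a b θ p) (P.M d) (P.N d)‖} with hE
  have mE : ∀ d, MeasurableSet (E d) := fun d =>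
    measurableSet_lt measurable_const (measurable_trp T.measurable hu hv a b θ _ _).norm
  set R : ℕ → Set X := fun t => Gs ∩ ⋃ d, ⋃ (_ : d ≤ D ∧ t % P.len d < P.hl d), E d with hR
  have mR : ∀ t, MeasurableSet (R t) := fun t =>
    mG.inter (MeasurableSet.iUnion fun d => MeasurableSet.iUnion fun _ => mE d)
  have up : ∀ x, ∑ t ∈ range (P.len 0),
      (orb T (a * b * t) ⁻¹' R t).indicator (fun _ => (1 : ℝ)) x ≤ ε * P.len 0 := by
    intro x
    set Q := mk (fun y => ch θ y * u (orb T (a * y) x)) (fun y => conj (v (orb T (b * y) x)))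
    refine le_trans ?_ (H Q rfl rfl)
    rw [Par.cnt, card_filter]
    push_cast
    refine sum_le_sum fun t _ => ?_
    by_cases hx : x ∈ orb T (a * b * t) ⁻¹' R t
    swap
    · rw [Set.indicator_of_notMem hx]; positivity
    rw [Set.indicator_of_mem hx, if_pos]
    obtain ⟨hg, hx⟩ := hx
    simp only [Set.mem_iUnion] at hx
    obtain ⟨d, ⟨hd, hfit⟩, hx⟩ := hx
    set p := orb T (a * b * t) x with hp
    have o1 : ∀ y : ℤ, orb T (a * (b * t + y)) x = orb T (a * y) p := fun y => by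
      rw [hp, ← orb_add]; congr 1; ring
    have o2 : ∀ y : ℤ, orb T (b * (a * t + y)) x = orb T (b * y) p := fun y => by
      rw [hp, ← orb_add]; congr 1; ring
    have key : ∀ d, en (Q.iv b d (Q.idx d t)) Q.F ≤ Q.len d ∧
        ∀ φ, ‖ft (Q.iv b d (Q.idx d t)) Q.F φ‖ ≤ η * Q.len d := by
      intro d
      obtain ⟨N1, N2, h1, h2⟩ := Q.iv_eq b d t
      have h3 : l ≤ N1 + N2 := by
        rw [h1, Q.len_eq, ← mul_assoc]
        refine hl.trans (le_trans ?_ (Nat.le_mul_of_pos_left _ (Nat.mul_pos hb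
          (Nat.mul_pos two_pos (Nat.succ_pos _)))))
        exact Nat.pow_le_pow_right two_pos (Nat.le_add_right _ _)
      have h4 : (N1 : ℝ) + N2 = b * Q.len d := by exact_mod_cast h1
      obtain ⟨g1, g2⟩ := hg N1 N2 h3
      rw [h4] at g1 g2
      rw [h2]
      refine ⟨?_, fun φ => ?_⟩
      · rw [en, sum_shift]
        simp only [Q, hmk, norm_mul, norm_ch, one_mul, o1]
        rwa [inv_mul_cancel_left₀ hb'.ne'] at g1
      · have g3 := g2 (φ - θ)
        rw [← mul_assoc, div_mul_cancel₀ _ hb'.ne'] at g3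
        refine le_trans (le_of_eq ?_) g3
        rw [ft, sum_shift, ft]
        simp only [Q, hmk, o1]
        rw [← norm_ch_mul (θ - φ) (b * t) (∑ y ∈ Ico (-(N1 : ℤ)) N2, u (orb T (a * y) p) * _),
          mul_sum]
        congr 1
        refine sum_congr rfl fun y _ => ?_
        simp only [ch_add, ch_sub_left, map_mul, Complex.conj_conj]
        ring
    refine ⟨fun d _ => ⟨(key d).1, ?_⟩, fun d _ => (key d).2, d, hd, ?_⟩
    · refine (en_le_of_norm_le (y := ρ) _ fun z => ?_).trans ?_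
      · simpa [Q, hmk] using hρ _
      · rw [Par.card_iv]
        push_cast
        have := mul_le_mul_of_nonneg_right hρ' (Q.len_pos' d).le
        change (a : ℝ) * _ * _ ≤ _
        linarith
    · refine lt_of_lt_of_le hx (le_of_eq ?_)
      have : Q.off d t = 0 := if_pos hfit
      rw [Par.av, this, add_zero, add_zero, bil, trp, norm_mul, norm_mul]
      congr 1
      rw [← norm_ch_mul θ (b * t) (∑ m ∈ range (P.M d), _), mul_sum]
      congr 1
      refine sum_congr rfl fun m _ => ?_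
      rw [mul_sum]
      refine sum_congr rfl fun n _ => ?_
      simp only [Q, hmk, o1, o2, sq2, ← orb_nat, Complex.conj_conj, ch_add θ (b * t)]
      push_cast
      ring
  have e1 : ∑ t ∈ range (P.len 0), μ.real (R t) ≤ ε * P.len 0 := by
    have : ∀ t : ℕ, μ.real (R t) =
        ∫ x, (orb T (a * b * t) ⁻¹' R t).indicator (fun _ => (1 : ℝ)) x ∂μ := by
      intro t
      rw [integral_indicator_const _ (measurable_orb T _ (mR t)), smul_eq_mul, mul_one,
        (orb_mp hT _).measureReal_preimage (mR t).nullMeasurableSet]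
    simp only [this]
    have hi : ∀ t : ℕ, Integrable ((orb T (a * b * t) ⁻¹' R t).indicator fun _ => (1 : ℝ)) μ :=
      fun t => (integrable_const _).indicator (measurable_orb T _ (mR t))
    rw [← integral_finsetSum _ fun t _ => hi t]
    refine (integral_mono (integrable_finsetSum _ fun t _ => hi t) (integrable_const _) up).trans ?_
    simp
  set Bd := Gs ∩ ⋃ d, ⋃ (_ : d ≤ D), E d with hBd
  have mB : MeasurableSet Bd :=
    mG.inter (MeasurableSet.iUnion fun d => MeasurableSet.iUnion fun _ => mE d)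
  have e2 : μ.real Bd * (P.len 0 / 2) ≤ ∑ t ∈ range (P.len 0), μ.real (R t) := by
    have : ∀ t : ℕ, μ.real (R t) = ∫ x, (R t).indicator (fun _ => (1 : ℝ)) x ∂μ := by
      intro t
      rw [integral_indicator_const _ (mR t), smul_eq_mul, mul_one]
    simp only [this]
    have hi : ∀ t : ℕ, Integrable ((R t).indicator fun _ => (1 : ℝ)) μ :=
      fun t => (integrable_const _).indicator (mR t)
    rw [← integral_finsetSum _ fun t _ => hi t, ← smul_eq_mul, ← integral_indicator_const _ mB]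
    refine integral_mono ((integrable_const _).indicator mB)
      (integrable_finsetSum _ fun t _ => hi t) fun p => ?_
    by_cases hp : p ∈ Bd
    · rw [Set.indicator_of_mem hp]
      obtain ⟨hg, hp⟩ := hp
      simp only [Set.mem_iUnion] at hp
      obtain ⟨d, hd, hp⟩ := hp
      rw [← P.card_half (d := d) hd]
      refine sum_le_sum fun t _ => ?_
      split_ifs with h
      · rw [Set.indicator_of_mem]
        exact ⟨hg, Set.mem_iUnion.2 ⟨d, Set.mem_iUnion.2 ⟨⟨hd, h⟩, hp⟩⟩⟩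
      · exact Set.indicator_nonneg (fun _ _ => zero_le_one) _
    · rw [Set.indicator_of_notMem hp]
      exact sum_nonneg fun t _ => Set.indicator_nonneg (fun _ _ => zero_le_one) _
  have hl0 := P.len_pos' 0
  have e3 : μ.real Bd ≤ 2 * ε := by nlinarith
  refine le_trans (measureReal_mono ?_) e3
  rintro p ⟨hg, d, hd, hp⟩
  refine ⟨hg, Set.mem_iUnion.2 ⟨D - d, Set.mem_iUnion.2 ⟨Nat.sub_le _ _, ?_⟩⟩⟩
  have : P.M (D - d) = 2 ^ (k + d) := by
    change 2 ^ (k + (D - (D - d))) = _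
    congr 2; omega
  change ε < ‖trp _ (P.M (D - d)) (j * P.M (D - d))‖
  rwa [this]

end Pool.Agent.Shared.DoubleRec
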