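import Pool.Agent.Shared.DoubleRec.Stable

/-!
The dyadic tree of nodes, and the abstract counting lemma for leaders.
-/

set_option autoImplicit false

open Finset ComplexConjugate

namespace Pool.Agent.Shared.DoubleRec

lemma sum_range_mul_eq {E : Type*} [AddCommMonoid E] (n L : ℕ) (ψ : ℕ → E) :
    ∑ t ∈ range (n * L), ψ t = ∑ i ∈ range n, ∑ r ∈ range L, ψ (i * L + r) := by
  induction n with
  | zero => simp
  | succ n ih => rw [add_mul, one_mul, sum_range_add, ih, sum_range_succ]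

/-- parameters of the finite problem -/
structure Par where
  a : ℕ
  b : ℕ
  j : ℕ
  k : ℕ
  D : ℕ
  F : ℤ → ℂ
  G : ℤ → ℂ
  ha : 0 < a
  hb : 0 < b
  hab : a ≠ b
  hj : 0 < j

namespace Par

variable (P : Par)

/-- short length at depth `d` -/
def M (d : ℕ) : ℕ := 2 ^ (P.k + (P.D - d))
/-- long length at depth `d` -/
def N (d : ℕ) : ℕ := P.j * P.M d
/-- half the node length -/
def hl (d : ℕ) : ℕ := (P.j + 1) * P.M d
/-- node length -/
def len (d : ℕ) : ℕ := 2 * P.hl d
/-- dilated node -/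
noncomputable def iv (c d i : ℕ) : Finset ℤ :=
  Ico ((c * (i * P.len d) : ℕ) : ℤ) ((c * ((i + 1) * P.len d) : ℕ) : ℤ)
/-- index of the node containing `t` -/
def idx (d t : ℕ) : ℕ := t / P.len d
/-- window offset -/
def off (d t : ℕ) : ℤ := if t % P.len d < P.hl d then 0 else -((P.M d : ℤ) + P.N d)
/-- energy condition -/
def ok (d i : ℕ) : Prop := en (P.iv P.b d i) P.F ≤ P.len d ∧ en (P.iv P.a d i) P.G ≤ P.len d
/-- all nodes above `t` satisfy the energy condition -/
def good (t : ℕ) : Prop := ∀ d ≤ P.D, P.ok d (P.idx d t)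
/-- the average at depth `d` and position `t` -/
noncomputable def av (p q : ℤ → ℂ) (d t : ℕ) : ℂ :=
  bil (P.M d) (P.N d) p q (P.b * t + P.off d t) (P.a * t + P.off d t)
/-- dilation constant -/
def C : ℕ := P.a + P.b
/-- ratio of the node length and the short length -/
def H : ℕ := 2 * (P.j + 1)

lemma M_pos (d : ℕ) : 0 < P.M d := by unfold M; positivity
lemma N_pos (d : ℕ) : 0 < P.N d := Nat.mul_pos P.hj (P.M_pos d)
lemma hl_pos (d : ℕ) : 0 < P.hl d := Nat.mul_pos (Nat.succ_pos _) (P.M_pos d)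
lemma len_pos (d : ℕ) : 0 < P.len d := Nat.mul_pos two_pos (P.hl_pos d)
lemma len_pos' (d : ℕ) : (0 : ℝ) < P.len d := by exact_mod_cast P.len_pos d
lemma hl_eq (d : ℕ) : P.hl d = P.M d + P.N d := by unfold hl N; ring
lemma len_eq (d : ℕ) : P.len d = P.H * P.M d := by unfold len hl H; ring
lemma one_le_C : (1 : ℝ) ≤ P.C := by
  have := P.ha; unfold C; exact_mod_cast (by omega : 1 ≤ P.a + P.b)

lemma M_succ {d : ℕ} (h : d < P.D) : P.M d = 2 * P.M (d + 1) := by
  unfold M
  rw [show P.k + (P.D - d) = P.k + (P.D - (d + 1)) + 1 by omega, pow_succ, mul_comm]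

lemma len_succ {d : ℕ} (h : d < P.D) : P.len d = P.len (d + 1) * 2 := by
  rw [len_eq, len_eq, P.M_succ h]; ring

lemma len_zero {d : ℕ} (h : d ≤ P.D) : P.len 0 = 2 ^ d * P.len d := by
  induction d with
  | zero => simp
  | succ d ih => rw [ih (by omega), P.len_succ (d := d) (by omega)]; ring

lemma idx_succ {d : ℕ} (h : d < P.D) (t : ℕ) : P.idx d t = P.idx (d + 1) t / 2 := by
  unfold idx; rw [Nat.div_div_eq_div_mul, P.len_succ h]

lemma idx_node (d i : ℕ) {r : ℕ} (hr : r < P.len d) : P.idx d (i * P.len d + r) = i := by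
  unfold idx
  rw [mul_comm, Nat.mul_add_div (P.len_pos d), Nat.div_eq_of_lt hr, add_zero]

lemma card_iv (c d i : ℕ) : (P.iv c d i).card = c * P.len d := by
  rw [iv, Int.card_Ico]
  have : ((c * ((i + 1) * P.len d) : ℕ) : ℤ) - ((c * (i * P.len d) : ℕ) : ℤ) =
      ((c * P.len d : ℕ) : ℤ) := by push_cast; ring
  rw [this, Int.toNat_natCast]

lemma en_iv {d : ℕ} (h : d < P.D) (c i : ℕ) (p : ℤ → ℂ) : en (P.iv c d i) p =
    en (P.iv c (d + 1) (2 * i)) p + en (P.iv c (d + 1) (2 * i + 1)) p := by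
  unfold en iv
  rw [← sum_union (Ico_disjoint_Ico_consecutive _ _ _), Ico_union_Ico_eq_Ico, P.len_succ h]
  · congr 3 <;> ring
  · exact_mod_cast Nat.mul_le_mul_left _ (Nat.mul_le_mul_right _ (by omega))
  · exact_mod_cast Nat.mul_le_mul_left _ (Nat.mul_le_mul_right _ (by omega))

lemma off_ge (d t : ℕ) : -((P.M d : ℤ) + P.N d) ≤ P.off d t := by
  unfold off; split_ifs <;> omega

lemma off_le (d t : ℕ) : P.off d t ≤ 0 := by
  unfold off; split_ifs <;> omega

lemma fits {c : ℕ} (hc : 0 < c) (d t : ℕ) :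
    Fits (P.M d) (P.N d) (P.iv c d (P.idx d t)) (c * t + P.off d t) := by
  intro m hm n hn
  have h1 := Nat.div_add_mod t (P.len d)
  have h2 := Nat.mod_lt t (P.len_pos d)
  have h3 := P.hl_eq d
  set r := t % P.len d with hr
  have h4 : P.len d = 2 * P.hl d := rfl
  have e1 : c * t = c * (P.idx d t * P.len d) + c * r := by
    conv_lhs => rw [← h1]
    unfold idx; ring
  have e2 : c * ((P.idx d t + 1) * P.len d) = c * (P.idx d t * P.len d) + 2 * (c * P.hl d) := by
    rw [add_mul, mul_add, one_mul, h4]; ring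
  have e3 : P.hl d ≤ c * P.hl d := Nat.le_mul_of_pos_left _ hc
  rw [iv, mem_Ico, e2, ← Nat.cast_mul c t, e1, off, ← hr]
  split_ifs with h
  · have : c * r ≤ c * P.hl d := Nat.mul_le_mul_left _ h.le
    constructor <;> push_cast <;> omega
  · have a1 : c * P.hl d ≤ c * r := Nat.mul_le_mul_left _ (not_lt.1 h)
    have a2 : c * r ≤ c * (2 * P.hl d) := Nat.mul_le_mul_left _ (by omega)
    rw [← mul_assoc, mul_comm c 2, mul_assoc] at a2
    constructor <;> push_cast <;> omega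

lemma card_iv_le {c : ℕ} (hc : c ≤ P.C) (d i : ℕ) :
    ((P.iv c d i).card : ℝ) ≤ P.C * P.len d := by
  rw [card_iv]; push_cast
  exact mul_le_mul_of_nonneg_right (by exact_mod_cast hc) (P.len_pos' d).le

lemma a_le_C : P.a ≤ P.C := Nat.le_add_right _ _
lemma b_le_C : P.b ≤ P.C := Nat.le_add_left _ _

lemma win (d t : ℕ) : Win (P.M d) (P.N d) (P.iv P.b d (P.idx d t)) (P.iv P.a d (P.idx d t))
    (P.len d) P.C (P.b * t + P.off d t) (P.a * t + P.off d t) where
  hM := P.M_pos d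
  hN := P.N_pos d
  fI := P.fits P.hb d t
  fZ := P.fits P.ha d t
  len0 := (P.len_pos' d).le
  len := by
    have := P.hj
    have : P.len d ≤ 4 * P.N d := by
      unfold len hl N
      rw [← mul_assoc, ← mul_assoc]
      exact Nat.mul_le_mul_right _ (by omega)
    exact_mod_cast this
  cI := (P.card_iv_le P.b_le_C d _).trans
    (mul_le_mul_of_nonneg_right (by nlinarith [P.one_le_C]) (P.len_pos' d).le)
  cZ := (P.card_iv_le P.a_le_C d _).trans
    (mul_le_mul_of_nonneg_right (by nlinarith [P.one_le_C]) (P.len_pos' d).le)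

/-- single scale bound on a node -/
lemma node_bound {a b : ℕ} (ha : 0 < a) (hb : 0 < b) (hab : a ≠ b) (d i : ℕ) {p q : ℤ → ℂ}
    {U E : ℝ} (hU : ∀ θ, ‖ft (P.iv b d i) p θ‖ ≤ U * P.len d)
    (hE : en (P.iv a d i) q ≤ E * P.len d) :
    ∑ r ∈ range (P.len d), ‖bil (P.M d) (P.N d) p q
      (b * (i * P.len d + r : ℕ) + P.off d (i * P.len d + r))
      (a * (i * P.len d + r : ℕ) + P.off d (i * P.len d + r))‖ ^ 2 ≤
      2 * (U ^ 2 * E * P.H ^ 2) * P.len d := by
  have hM : (0 : ℝ) < P.M d := by exact_mod_cast P.M_pos d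
  have hN : (P.M d : ℝ) ≤ P.N d := by exact_mod_cast Nat.le_mul_of_pos_left _ P.hj
  have hl := P.len_pos' d
  have hE0 : 0 ≤ E := nonneg_of_mul_nonneg_left ((en_nonneg _ _).trans hE) hl
  have key : ∀ o : ℤ, ∑ r ∈ range (P.len d), ‖bil (P.M d) (P.N d) (res (P.iv b d i) p)
      (res (P.iv a d i) q) (b * (i * P.len d + r : ℕ) + o) (a * (i * P.len d + r : ℕ) + o)‖ ^ 2 ≤
      (U ^ 2 * E * P.H ^ 2) * P.len d := by
    intro o
    have h1 := single_scale (P.iv b d i) (P.iv a d i)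
      ((range (P.len d)).image fun r => ((i * P.len d + r : ℕ) : ℤ)) p q (a := a) (b := b)
      (by exact_mod_cast hab) o (P.M_pos d) (P.N_pos d) hU
    rw [sum_image (fun x _ y _ e => by simpa using e)] at h1
    refine h1.trans ?_
    have h2 : (U * P.len d) ^ 2 / (P.M d * P.N d) ≤ U ^ 2 * P.H ^ 2 := by
      rw [div_le_iff₀ (by nlinarith), P.len_eq]
      push_cast
      calc (U * (P.H * P.M d)) ^ 2 = U ^ 2 * P.H ^ 2 * (P.M d * P.M d) := by ring
        _ ≤ _ := by gcongr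
    calc _ ≤ (U ^ 2 * P.H ^ 2) * (E * P.len d) :=
          mul_le_mul h2 hE (en_nonneg _ _) (by positivity)
      _ = _ := by ring
  rw [mul_assoc, two_mul]
  refine le_trans ?_ (add_le_add (key 0) (key (-((P.M d : ℤ) + P.N d))))
  rw [← sum_add_distrib]
  refine sum_le_sum fun r hr => ?_
  have f1 := P.fits hb d (i * P.len d + r)
  have f2 := P.fits ha d (i * P.len d + r)
  rw [P.idx_node d i (mem_range.1 hr)] at f1 f2
  rw [bil_res f1 f2]
  unfold off
  split_ifs
  · exact le_add_of_nonneg_right (sq_nonneg _)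
  · exact le_add_of_nonneg_left (sq_nonneg _)

lemma node_diff (d i : ℕ) {p q p' q' : ℤ → ℂ} {U : ℝ}
    (hp : ∀ θ, ‖ft (P.iv P.b d i) (fun y => p y - p' y) θ‖ ≤ U * P.len d)
    (hq : ∀ θ, ‖ft (P.iv P.a d i) (fun y => q y - q' y) θ‖ ≤ U * P.len d)
    (ep : en (P.iv P.b d i) p' ≤ 7 * P.len d) (eq : en (P.iv P.a d i) q ≤ 7 * P.len d) :
    ∑ r ∈ range (P.len d), ‖P.av p q d (i * P.len d + r) - P.av p' q' d (i * P.len d + r)‖ ^ 2 ≤
      56 * (U ^ 2 * P.H ^ 2) * P.len d := by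
  have h1 := P.node_bound P.ha P.hb P.hab d i hp eq
  have h2 := P.node_bound P.hb P.ha P.hab.symm d i hq ep
  refine le_trans ?_ (show 2 * (2 * (U ^ 2 * 7 * P.H ^ 2) * P.len d) +
    2 * (2 * (U ^ 2 * 7 * P.H ^ 2) * P.len d) ≤ _ from le_of_eq (by ring))
  refine le_trans ?_ (add_le_add (mul_le_mul_of_nonneg_left h1 two_pos.le)
    (mul_le_mul_of_nonneg_left h2 two_pos.le))
  rw [mul_sum, mul_sum, ← sum_add_distrib]
  refine sum_le_sum fun r _ => ?_
  rw [bil_swap _ _ p', Complex.norm_conj, bil_sub_left, bil_sub_right]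
  unfold av
  set x := bil (P.M d) (P.N d) p q _ _
  set y := bil (P.M d) (P.N d) p' q _ _
  set z := bil (P.M d) (P.N d) p' q' _ _
  have := pow_le_pow_left₀ (norm_nonneg _) (norm_sub_le_norm_sub_add_norm_sub x y z) 2
  nlinarith [sq_nonneg (‖x - y‖ - ‖y - z‖)]

open Classical in
/-- number of good positions with a property -/
noncomputable def cnt (Q : ℕ → Prop) : ℝ := ((range (P.len 0)).filter fun t => P.good t ∧ Q t).card

/-- a labelling of the nodes controlling the variation of `S` along branches -/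
structure Lev (S : ℕ → ℕ → ℂ) (lab : ℕ → ℕ → ℕ) (z : ℝ) (Λ : ℕ) (ε : ℝ) : Prop where
  mono : ∀ d i, lab d (i / 2) ≤ lab (d + 1) i
  close : ∀ t, P.good t → ∀ d' d, d' ≤ d → d ≤ P.D →
    lab d' (P.idx d' t) = lab d (P.idx d t) → ‖S d t - S d' t‖ ≤ z
  few : P.cnt (fun t => Λ < lab P.D (P.idx P.D t)) ≤ ε * P.len 0

variable {P}

lemma cnt_mono {Q Q' : ℕ → Prop} (h : ∀ t, P.good t → Q t → Q' t) : P.cnt Q ≤ P.cnt Q' := by
  classical
  unfold cnt
  refine Nat.cast_le.2 (card_le_card fun t ht => ?_)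
  simp only [mem_filter] at ht ⊢
  exact ⟨ht.1, ht.2.1, h t ht.2.1 ht.2.2⟩

lemma cnt_or (Q Q' : ℕ → Prop) : P.cnt (fun t => Q t ∨ Q' t) ≤ P.cnt Q + P.cnt Q' := by
  classical
  unfold cnt
  rw [← Nat.cast_add]
  refine Nat.cast_le.2 (le_trans (card_le_card fun t ht => ?_) (card_union_le _ _))
  simp only [mem_filter, mem_union] at ht ⊢
  tauto

lemma cnt_false : P.cnt (fun _ => False) = 0 := by simp [cnt]

lemma cnt_exists (n : ℕ) (Q : ℕ → ℕ → Prop) :
    P.cnt (fun t => ∃ s < n, Q s t) ≤ ∑ s ∈ range n, P.cnt (Q s) := by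
  induction n with
  | zero => simp [cnt]
  | succ n ih =>
    rw [sum_range_succ]
    refine le_trans (cnt_mono fun t _ ⟨s, hs, h⟩ => ?_) ((cnt_or _ _).trans (add_le_add ih le_rfl))
    rcases Nat.lt_succ_iff_lt_or_eq.1 hs with h' | rfl
    · exact Or.inl ⟨s, h', h⟩
    · exact Or.inr h

lemma cnt_le_sum {Q : ℕ → Prop} {ψ : ℕ → ℝ} (h0 : ∀ t, 0 ≤ ψ t)
    (h : ∀ t, P.good t → Q t → 1 ≤ ψ t) : P.cnt Q ≤ ∑ t ∈ range (P.len 0), ψ t := by
  classical
  unfold cnt
  rw [card_filter]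
  push_cast
  refine sum_le_sum fun t _ => ?_
  split_ifs with ht
  · exact h t ht.1 ht.2
  · exact h0 t

lemma mono_chain {lab : ℕ → ℕ → ℕ} (h : ∀ d i, lab d (i / 2) ≤ lab (d + 1) i) (t : ℕ) {d' d : ℕ}
    (h1 : d' ≤ d) (h2 : d ≤ P.D) : lab d' (P.idx d' t) ≤ lab d (P.idx d t) := by
  induction d, h1 using Nat.le_induction with
  | base => exact le_rfl
  | succ d _ ih =>
    refine (ih (by omega)).trans ?_
    rw [P.idx_succ (d := d) (by omega)]
    exact h _ _

lemma Lev.sub {S S' : ℕ → ℕ → ℂ} {lab lab' : ℕ → ℕ → ℕ} {z z' ε ε' : ℝ} {Λ Λ' : ℕ}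
    (h : P.Lev S lab z Λ ε) (h' : P.Lev S' lab' z' Λ' ε') :
    P.Lev (fun d t => S' d t - S d t) (fun d i => lab d i + lab' d i) (z + z') (Λ + Λ')
      (ε + ε') where
  mono d i := add_le_add (h.mono d i) (h'.mono d i)
  close t ht d' d h1 h2 e := by
    have a1 := mono_chain h.mono t h1 h2
    have a2 := mono_chain h'.mono t h1 h2
    have b1 := h.close t ht d' d h1 h2 (by omega)
    have b2 := h'.close t ht d' d h1 h2 (by omega)
    have : S' d t - S d t - (S' d' t - S d' t) = (S' d t - S' d' t) - (S d t - S d' t) := by ring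
    rw [this]
    linarith [norm_sub_le (S' d t - S' d' t) (S d t - S d' t)]
  few := by
    refine le_trans (cnt_mono fun t _ ht => ?_) ((cnt_or _ _).trans
      ((add_le_add h.few h'.few).trans (le_of_eq (by ring))))
    omega

lemma lev_trivial (S : ℕ → ℕ → ℂ) : P.Lev S (fun d _ => d) 0 P.D 0 where
  mono d _ := Nat.le_succ d
  close t _ d' d _ _ e := by simp [e]
  few := by simp [cnt]

lemma Lev.count {S : ℕ → ℕ → ℂ} {lab : ℕ → ℕ → ℕ} {z ε γ x : ℝ} {Λ : ℕ}
    (h : P.Lev S lab z Λ ε) (hx : 0 < x) (hγ : 0 ≤ γ)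
    (hS : ∀ d ≤ P.D, ∀ i, P.ok d i →
      ∑ r ∈ range (P.len d), ‖S d (i * P.len d + r)‖ ^ 2 ≤ γ * P.len d) :
    P.cnt (fun t => ∃ d ≤ P.D, z + x < ‖S d t‖) ≤ (ε + γ * (Λ + 1) / x ^ 2) * P.len 0 := by
  classical
  set χ : ℕ → ℕ → Prop := fun d i =>
    P.ok d i ∧ lab d i ≤ Λ ∧ ∀ d', d' + 1 = d → lab d' (i / 2) ≠ lab d i with hχ
  have h1 : P.cnt (fun t => lab P.D (P.idx P.D t) ≤ Λ ∧ ∃ d ≤ P.D, z + x < ‖S d t‖) ≤
      ∑ t ∈ range (P.len 0), (∑ d ∈ range (P.D + 1),
        if χ d (P.idx d t) then ‖S d t‖ ^ 2 else 0) / x ^ 2 := by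
    refine cnt_le_sum (fun t => div_nonneg (sum_nonneg fun d _ => by positivity) (sq_nonneg _)) ?_
    rintro t ht ⟨hΛ, d, hd, hlt⟩
    have ex : ∃ d', lab d' (P.idx d' t) = lab d (P.idx d t) := ⟨d, rfl⟩
    have e1 := Nat.find_spec ex
    have e2 : Nat.find ex ≤ d := Nat.find_min' ex rfl
    have e3 := fun m => Nat.find_min ex (m := m)
    set d' := Nat.find ex
    have c1 := h.close t ht d' d e2 hd e1
    have c2 : x ≤ ‖S d' t‖ := by
      have := norm_sub_norm_le (S d t) (S d' t)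
      linarith
    have c3 : χ d' (P.idx d' t) := by
      refine ⟨ht d' (by omega), (mono_chain h.mono t (by omega) le_rfl).trans hΛ, ?_⟩
      intro m hm
      have := e3 m (by omega)
      rw [P.idx_succ (d := m) (by omega), hm] at this
      rwa [e1]
    rw [le_div_iff₀ (by positivity), one_mul]
    refine le_trans ?_ (single_le_sum (f := fun d => if χ d (P.idx d t) then ‖S d t‖ ^ 2 else 0)
      (fun d _ => by positivity) (mem_range.2 (show d' < P.D + 1 by omega)))
    simp only [c3, if_true]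
    exact pow_le_pow_left₀ hx.le c2 2
  have h2 : ∀ d ∈ range (P.D + 1), ∑ t ∈ range (P.len 0),
      (if χ d (P.idx d t) then ‖S d t‖ ^ 2 else 0) ≤
      ∑ t ∈ range (P.len 0), γ * (if χ d (P.idx d t) then 1 else 0) := by
    intro d hd
    have hd' : d ≤ P.D := Nat.lt_succ_iff.1 (mem_range.1 hd)
    rw [P.len_zero hd', sum_range_mul_eq, sum_range_mul_eq]
    refine sum_le_sum fun i _ => ?_
    rw [sum_congr rfl fun r hr => by rw [P.idx_node d i (mem_range.1 hr)]]
    conv_rhs => rw [sum_congr rfl (g := fun _ => γ * if χ d i then 1 else 0)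
        fun r hr => by rw [P.idx_node d i (mem_range.1 hr)]]
    by_cases hc : χ d i
    · simp only [hc, if_true, mul_one, sum_const, card_range, nsmul_eq_mul]
      rw [mul_comm _ γ]; exact hS d hd' i hc.1
    · simp [hc]
  have h3 : ∀ t, ∑ d ∈ range (P.D + 1), (if χ d (P.idx d t) then (1 : ℝ) else 0) ≤ Λ + 1 := by
    intro t
    rw [← sum_filter, sum_const, nsmul_eq_mul, mul_one]
    have : ((range (P.D + 1)).filter fun d => χ d (P.idx d t)).card ≤ (range (Λ + 1)).card := by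
      have key : ∀ d1 d2, d1 < d2 → d2 ≤ P.D → χ d2 (P.idx d2 t) →
          lab d1 (P.idx d1 t) < lab d2 (P.idx d2 t) := by
        intro d1 d2 l1 l2 c
        obtain ⟨m, rfl⟩ : ∃ m, d2 = m + 1 := ⟨d2 - 1, by omega⟩
        have a1 := mono_chain (P := P) h.mono t (show d1 ≤ m by omega) (by omega)
        have a2 := c.2.2 m rfl
        have a3 := h.mono m (P.idx (m + 1) t)
        rw [← P.idx_succ (d := m) (by omega)] at a2 a3
        omega
      refine card_le_card_of_injOn (fun d => lab d (P.idx d t)) ?_ ?_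
      · intro d hd
        simp only [coe_filter, mem_range, Set.mem_ofPred_eq, coe_range, Set.mem_Iio] at hd ⊢
        exact Nat.lt_succ_of_le hd.2.2.1
      · intro d1 h1 d2 h2 e
        simp only [coe_filter, mem_range, Set.mem_ofPred_eq] at h1 h2 e
        rcases lt_trichotomy d1 d2 with l | l | l
        · have := key d1 d2 l (by omega) h2.2; omega
        · exact l
        · have := key d2 d1 l (by omega) h1.2; omega
    rw [card_range] at this
    exact_mod_cast this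
  have h4 : ∑ t ∈ range (P.len 0), (∑ d ∈ range (P.D + 1),
        if χ d (P.idx d t) then ‖S d t‖ ^ 2 else 0) ≤ γ * (Λ + 1) * P.len 0 := by
    rw [sum_comm]
    refine (sum_le_sum h2).trans ?_
    rw [sum_comm]
    refine (sum_le_card_nsmul _ _ (γ * (Λ + 1)) fun t _ => ?_).trans (by simp [mul_comm])
    rw [← mul_sum]
    exact mul_le_mul_of_nonneg_left (h3 t) hγ
  rw [← sum_div] at h1
  have h5 := h1.trans (div_le_div_of_nonneg_right h4 (sq_nonneg x))
  refine le_trans (cnt_mono fun t _ ht => ?_) ((cnt_or _ _).trans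
    ((add_le_add h.few h5).trans (le_of_eq (by ring))))
  rcases lt_or_ge Λ (lab P.D (P.idx P.D t)) with l | l
  · exact Or.inl l
  · exact Or.inr ⟨l, ht⟩

end Par

end Pool.Agent.Shared.DoubleRec
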