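import Pool.Agent.Shared.DoubleRec.Erg
import Pool.Agent.Shared.DoubleRec.Tree

/-!
Uniform Wiener Wintner theorem through the van der Corput inequality.
-/

set_option autoImplicit false

open MeasureTheory Filter Topology Finset ComplexConjugate

namespace Pool.Agent.Shared.DoubleRec

/-- uniformly small twisted sums -/
def Unif (z : ℕ → ℂ) : Prop :=
  ∀ ε > 0, ∀ᶠ N : ℕ in atTop, ∀ θ, ‖∑ n ∈ range N, z n * ch θ n‖ ≤ ε * N

lemma term_small {z : ℕ → ℂ} {c : ℝ} (hE : ∀ᶠ N : ℕ in atTop, ∑ n ∈ range N, ‖z n‖ ^ 2 ≤ c * N)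
    (H : ℕ) {δ : ℝ} (hδ : 0 < δ) : ∀ᶠ N : ℕ in atTop, ∀ n < H, ‖z (N + n)‖ ≤ δ * N := by
  filter_upwards [(tendsto_add_atTop_nat H).eventually hE, eventually_ge_atTop H,
    tendsto_natCast_atTop_atTop.eventually_ge_atTop (2 * |c| / δ ^ 2)] with N h1 h2 h3 n hn
  have h4 := single_le_sum (f := fun n => ‖z n‖ ^ 2) (fun _ _ => sq_nonneg _)
    (mem_range.2 (show N + n < N + H by omega))
  have h5 : (H : ℝ) ≤ N := by exact_mod_cast h2
  rw [div_le_iff₀ (by positivity)] at h3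
  refine (pow_le_pow_iff_left₀ (norm_nonneg _) (by positivity) two_ne_zero).1 ?_
  push_cast at h1
  have h6 : c * (N + H) ≤ |c| * (2 * N) :=
    mul_le_mul (le_abs_self c) (by linarith) (by positivity) (abs_nonneg _)
  have h7 := mul_le_mul_of_nonneg_right h3 (Nat.cast_nonneg (α := ℝ) N)
  nlinarith

lemma shift_small {z : ℕ → ℂ} {c : ℝ} (hE : ∀ᶠ N : ℕ in atTop, ∑ n ∈ range N, ‖z n‖ ^ 2 ≤ c * N)
    (H : ℕ) {δ : ℝ} (hδ : 0 < δ) : ∀ᶠ N : ℕ in atTop, ∀ y : ℕ → ℂ, (∀ n, ‖y n‖ ≤ ‖z n‖) →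
      ∀ h < H, ‖∑ n ∈ range N, y n - ∑ n ∈ range N, y (n + h)‖ ≤ δ * N := by
  have hH : (0 : ℝ) < H + 1 := by positivity
  filter_upwards [term_small hE H (δ := δ / 2 / (H + 1)) (by positivity),
    tendsto_natCast_atTop_atTop.eventually_ge_atTop ((∑ n ∈ range H, ‖z n‖) / (δ / 2))]
    with N h1 h2 y hy h hh
  have e1 := sum_range_add y N h
  have e2 := sum_range_add y h N
  rw [add_comm h N, e1] at e2
  have e3 : ∑ n ∈ range N, y n - ∑ n ∈ range N, y (n + h) =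
      ∑ n ∈ range h, y n - ∑ n ∈ range h, y (N + n) := by
    simp only [add_comm h] at e2
    linear_combination e2
  rw [e3]
  rw [div_le_iff₀ (by positivity)] at h2
  have a1 : ‖∑ n ∈ range h, y n‖ ≤ ∑ n ∈ range H, ‖z n‖ :=
    (norm_sum_le _ _).trans ((sum_le_sum fun n _ => hy n).trans
      (sum_le_sum_of_subset_of_nonneg (range_subset_range.2 hh.le) fun _ _ _ => norm_nonneg _))
  have a2 : ‖∑ n ∈ range h, y (N + n)‖ ≤ h * (δ / 2 / (H + 1) * N) :=
    (norm_sum_le _ _).trans ((sum_le_card_nsmul _ _ _ fun n hn =>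
      (hy _).trans (h1 n ((mem_range.1 hn).trans hh))).trans (by simp))
  have a3 : (h : ℝ) * (δ / 2 / (H + 1) * N) ≤ δ / 2 * N := by
    have : (h : ℝ) ≤ H + 1 := by exact_mod_cast (by omega : h ≤ H + 1)
    calc _ ≤ (H + 1) * (δ / 2 / (H + 1) * N) := by gcongr
      _ = _ := by field_simp
  linarith [norm_sub_le (∑ n ∈ range h, y n) (∑ n ∈ range h, y (N + n))]

lemma vdc_core (y : ℕ → ℂ) (N H : ℕ) : ‖∑ h ∈ range H, ∑ n ∈ range N, y (n + h)‖ ^ 2 ≤
    N * ∑ h ∈ range H, ∑ k ∈ range H, ‖∑ n ∈ range N, y (n + h) * conj (y (n + k))‖ := by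
  rw [sum_comm]
  refine (pow_le_pow_left₀ (norm_nonneg _) (norm_sum_le _ _) 2).trans ?_
  refine sq_sum_le_card_mul_sum_sq.trans ?_
  rw [card_range]
  refine mul_le_mul_of_nonneg_left ?_ (Nat.cast_nonneg _)
  have e : ((∑ n ∈ range N, ‖∑ h ∈ range H, y (n + h)‖ ^ 2 : ℝ) : ℂ) =
      ∑ h ∈ range H, ∑ k ∈ range H, ∑ n ∈ range N, y (n + h) * conj (y (n + k)) := by
    simp only [← Complex.normSq_eq_norm_sq, Complex.ofReal_sum, ← Complex.mul_conj, map_sum,
      sum_mul_sum]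
    rw [sum_comm]
    exact sum_congr rfl fun h _ => sum_comm
  have := congrArg norm e
  rw [Complex.norm_real, Real.norm_of_nonneg (by positivity)] at this
  rw [this]
  exact (norm_sum_le _ _).trans (sum_le_sum fun h _ => norm_sum_le _ _)

lemma unif_of_corr {z : ℕ → ℂ} {c : ℝ}
    (hE : ∀ᶠ N : ℕ in atTop, ∑ n ∈ range N, ‖z n‖ ^ 2 ≤ c * N) {γ : ℕ → ℕ → ℂ}
    (hC : ∀ h k, Tendsto (ces fun n => z (n + h) * conj (z (n + k))) atTop (𝓝 (γ h k)))
    (hS : Tendsto (fun H : ℕ => ((H : ℝ) ^ 2)⁻¹ * ∑ h ∈ range H, ∑ k ∈ range H, ‖γ h k‖) atTop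
      (𝓝 0)) : Unif z := by
  intro ε hε
  obtain ⟨H, h1, hH⟩ := ((hS.eventually (gt_mem_nhds (show (0 : ℝ) < ε ^ 2 / 8 by positivity))).and
    (eventually_gt_atTop 0)).exists
  have hH' : (0 : ℝ) < H := by exact_mod_cast hH
  rw [inv_mul_lt_iff₀ (by positivity)] at h1
  have h2 : ∀ᶠ N : ℕ in atTop, ∀ h ∈ range H, ∀ k ∈ range H,
      ‖ces (fun n => z (n + h) * conj (z (n + k))) N‖ < ‖γ h k‖ + ε ^ 2 / 8 :=
    (eventually_all_finset _).2 fun h _ => (eventually_all_finset _).2 fun k _ =>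
      (hC h k).norm.eventually (gt_mem_nhds (by linarith [show 0 < ε ^ 2 / 8 by positivity]))
  filter_upwards [h2, shift_small hE H (half_pos hε), eventually_gt_atTop 0] with N h2 h3 hN θ
  have hN' : (0 : ℝ) < N := by exact_mod_cast hN
  set y : ℕ → ℂ := fun n => z n * ch θ n with hy
  have h4 := h3 y fun n => by simp [hy]
  have h5 := vdc_core y N H
  have h6 : ∀ h ∈ range H, ∀ k ∈ range H, ‖∑ n ∈ range N, y (n + h) * conj (y (n + k))‖ ≤
      N * (‖γ h k‖ + ε ^ 2 / 8) := by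
    intro h hh k hk
    have a1 := (h2 h hh k hk).le
    rw [ces, norm_mul, norm_inv, Complex.norm_natCast, inv_mul_le_iff₀ hN'] at a1
    refine le_trans (le_of_eq ?_) a1
    have : ∑ n ∈ range N, y (n + h) * conj (y (n + k)) =
        (ch θ h * conj (ch θ k)) * ∑ n ∈ range N, z (n + h) * conj (z (n + k)) := by
      rw [mul_sum]
      refine sum_congr rfl fun n _ => ?_
      simp only [hy, Nat.cast_add, ch_add, map_mul]
      linear_combination (z (n + h) * conj (z (n + k)) * ch θ h * conj (ch θ k)) * ch_mul_conj θ n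
    rw [this]; simp
  have h7 : ‖∑ h ∈ range H, ∑ n ∈ range N, y (n + h)‖ ≤ H * (ε / 2 * N) := by
    refine (pow_le_pow_iff_left₀ (norm_nonneg _) (by positivity) two_ne_zero).1 (h5.trans ?_)
    have := sum_le_sum fun h hh => sum_le_sum (h6 h hh)
    simp only [← mul_sum, sum_add_distrib, sum_const, card_range, nsmul_eq_mul] at this
    have a2 := mul_le_mul_of_nonneg_left h1.le hN'.le
    have a3 : ∑ h ∈ range H, ∑ k ∈ range H, ‖∑ n ∈ range N, y (n + h) * conj (y (n + k))‖ ≤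
        N * (H ^ 2 * (ε ^ 2 / 4)) := by nlinarith
    calc _ ≤ N * (N * (H ^ 2 * (ε ^ 2 / 4))) := mul_le_mul_of_nonneg_left a3 hN'.le
      _ = _ := by ring
  have h8 : ‖(H : ℂ) * ∑ n ∈ range N, y n - ∑ h ∈ range H, ∑ n ∈ range N, y (n + h)‖ ≤
      H * (ε / 2 * N) := by
    have : (H : ℂ) * ∑ n ∈ range N, y n = ∑ h ∈ range H, ∑ n ∈ range N, y n := by simp
    rw [this, ← sum_sub_distrib]
    exact (norm_sum_le _ _).trans ((sum_le_card_nsmul _ _ _ fun h hh =>
      h4 h (mem_range.1 hh)).trans (by simp))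
  have h9 := norm_sub_norm_le ((H : ℂ) * ∑ n ∈ range N, y n)
    (∑ h ∈ range H, ∑ n ∈ range N, y (n + h))
  rw [norm_mul, Complex.norm_natCast] at h9
  refine le_of_mul_le_mul_left ?_ hH'
  linarith

lemma exists_div (θ : Tor) {a : ℕ} (ha : 0 < a) : ∃ φ : Tor, (a : ℤ) • φ = θ := by
  obtain ⟨x, rfl⟩ := QuotientAddGroup.mk_surjective θ
  refine ⟨((x / a : ℝ) : Tor), ?_⟩
  have : (a : ℝ) ≠ 0 := by exact_mod_cast ha.ne'
  rw [← AddCircle.coe_zsmul]
  congr 1
  simp; field_simp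

lemma root_filter {a : ℕ} (ha : 0 < a) : ∃ ζ : Tor, ∀ m : ℕ,
    ∑ i ∈ range a, ch ((i : ℤ) • ζ) m = if a ∣ m then (a : ℂ) else 0 := by
  refine ⟨((1 / a : ℝ) : Tor), fun m => ?_⟩
  have hp := Complex.isPrimitiveRoot_exp a ha.ne'
  have e : ch ((1 / a : ℝ) : Tor) 1 = Complex.exp (2 * Real.pi * Complex.I / a) := by
    rw [ch, fourier_coe_apply]; congr 1; push_cast; ring
  have e2 : ∀ i : ℕ, ch ((i : ℤ) • ((1 / a : ℝ) : Tor)) m =
      (Complex.exp (2 * Real.pi * Complex.I / a) ^ m) ^ i := by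
    intro i
    rw [ch_smul, ← Nat.cast_mul, ch_natCast, e, ← pow_mul, mul_comm i m]
  simp only [e2]
  split_ifs with h
  · simp [(hp.pow_eq_one_iff_dvd m).2 h]
  · have h1 : Complex.exp (2 * Real.pi * Complex.I / a) ^ m ≠ 1 :=
      fun h' => h ((hp.pow_eq_one_iff_dvd m).1 h')
    rw [geom_sum_eq h1, ← pow_mul, mul_comm m, pow_mul, hp.pow_eq_one]
    simp

lemma Unif.mul {z : ℕ → ℂ} (hz : Unif z) {a : ℕ} (ha : 0 < a) : Unif fun n => z (a * n) := by
  intro ε hε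
  have ha' : (0 : ℝ) < a := by exact_mod_cast ha
  obtain ⟨ζ, hζ⟩ := root_filter ha
  filter_upwards [(tendsto_mul_atTop ha).eventually (hz (ε / a) (by positivity))] with N hN θ
  obtain ⟨φ, rfl⟩ := exists_div θ ha
  have e : (a : ℂ) * ∑ n ∈ range N, z (a * n) * ch ((a : ℤ) • φ) n =
      ∑ i ∈ range a, ∑ m ∈ range (a * N), z m * ch (φ + (i : ℤ) • ζ) m := by
    rw [sum_comm]
    simp only [ch_add_left, ← mul_assoc, ← mul_sum, hζ]
    rw [mul_comm a N, sum_range_mul_eq, mul_sum]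
    refine sum_congr rfl fun n _ => ?_
    rw [sum_eq_single 0]
    · rw [add_zero, if_pos (dvd_mul_left _ _), ch_smul, mul_comm n a]; push_cast; ring
    · intro r hr h0
      rw [if_neg, mul_zero]
      intro hd
      exact h0 (Nat.eq_zero_of_dvd_of_lt ((Nat.dvd_add_right (dvd_mul_left _ _)).1 hd)
        (mem_range.1 hr))
    · intro h; exact absurd (mem_range.2 ha) h
  have h1 := congrArg norm e
  rw [norm_mul, Complex.norm_natCast] at h1
  refine le_of_mul_le_mul_left ?_ ha'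
  rw [h1]
  refine (norm_sum_le _ _).trans ((sum_le_card_nsmul _ _ _ fun i _ => hN _).trans (le_of_eq ?_))
  simp only [card_range, nsmul_eq_mul]
  push_cast; field_simp

variable {X : Type*} [MeasurableSpace X] {μ : Measure X} [IsProbabilityMeasure μ]

/-- the correlations of `w` are small on average -/
def CorrSmall (μ : Measure X) (T : X → X) (w : X → ℂ) : Prop :=
  Tendsto (fun H : ℕ => ((H : ℝ) ^ 2)⁻¹ * ∑ h ∈ range H, ∑ k ∈ range H,
    ‖∫ x, w (T^[h] x) * conj (w (T^[k] x)) ∂μ‖) atTop (𝓝 0)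

omit [IsProbabilityMeasure μ] in
lemma integrable_sq {w : X → ℂ} (h2 : MemLp w 2 μ) : Integrable (fun x => ‖w x‖ ^ 2) μ :=
  (memLp_two_iff_integrable_sq_norm h2.1).1 h2

omit [IsProbabilityMeasure μ] in
lemma memLp_conj {w : X → ℂ} (h2 : MemLp w 2 μ) : MemLp (fun x => conj (w x)) 2 μ :=
  h2.star

/-- uniform Wiener Wintner theorem -/
theorem ww {T : X → X} (hT : Ergodic T μ) {w : X → ℂ} (hw : Measurable w) (h2 : MemLp w 2 μ)
    (hc : CorrSmall μ T w) : ∀ᵐ x ∂μ, Unif fun n => w (T^[n] x) := by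
  have hp := hT.toMeasurePreserving
  have h1 := sum_le_of_ergodic hT (w := fun x => ‖w x‖ ^ 2) (hw.norm.pow_const 2)
    (fun x => sq_nonneg _) (integrable_sq h2)
  have h3 := ae_all_iff.2 fun h : ℕ => ae_all_iff.2 fun k : ℕ => birkhoff_ergodic hT
    (f := fun x => w (T^[h] x) * conj (w (T^[k] x)))
    ((hw.comp (hp.measurable.iterate h)).mul
      (Complex.continuous_conj.measurable.comp (hw.comp (hp.measurable.iterate k))))
    ((h2.comp_measurePreserving (hp.iterate h)).integrable_mul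
      (memLp_conj (h2.comp_measurePreserving (hp.iterate k))))
  filter_upwards [h1, h3] with x h1 h3
  refine unif_of_corr (h1 _ (lt_add_one _)) (fun h k => ?_) hc
  simpa only [add_comm _ h, add_comm _ k, Function.iterate_add_apply] using h3 h k

end Pool.Agent.Shared.DoubleRec
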